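import Mathlib

set_option autoImplicit false

/-!
Hadamard's lemma for analytic functions and second order Taylor expansion for polynomials.
-/

namespace Q51.PolyDeg

open Filter Topology

section hadamard

variable {𝕜 E F : Type*} [NontriviallyNormedField 𝕜] [NormedAddCommGroup E] [NormedSpace 𝕜 E]
  [NormedAddCommGroup F] [NormedSpace 𝕜 F] [CompleteSpace F]

omit [CompleteSpace F] in
lemma hasSum_apply (g : ℕ → E →L[𝕜] F) (s : E →L[𝕜] F) (x : E) (h2 : HasSum g s) :
    HasSum (fun k => g k x) (s x) := by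
  have := (ContinuousLinearMap.apply 𝕜 F x).hasSum h2
  exact this

omit [CompleteSpace F] in
lemma shift_apply (p : FormalMultilinearSeries 𝕜 E F) (k : ℕ) (x : E) :
    (p.shift k (fun _ => x)) x = p (k + 1) (fun _ => x) := by
  have e1 : (p.shift k (fun _ => x)) x =
      p (k + 1) (Fin.snoc (α := fun _ => E) (fun _ : Fin k => x) x) := rfl
  have e2 : (Fin.snoc (α := fun _ => E) (fun _ : Fin k => x) x : Fin (k + 1) → E) =
      fun _ => x := by
    funext i
    induction i using Fin.lastCases with
    | last => rw [Fin.snoc_last]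
    | cast j => rw [Fin.snoc_castSucc]
  rw [e1, e2]

/-- Hadamard's lemma -/
theorem hadamard {f : E → F} (hf : AnalyticAt 𝕜 f 0) :
    ∃ G : E → (E →L[𝕜] F), AnalyticAt 𝕜 G 0 ∧ ∀ᶠ x in 𝓝 (0 : E), f x = f 0 + G x x := by
  obtain ⟨p, r, hp⟩ := hf
  have hrad : 0 < p.shift.radius := by
    rw [FormalMultilinearSeries.radius_shift]
    exact lt_of_lt_of_le hp.r_pos hp.r_le
  have hG := p.shift.hasFPowerSeriesOnBall hrad
  refine ⟨p.shift.sum, hG.analyticAt, ?_⟩
  have hball : Metric.eball (0 : E) (min r p.shift.radius) ∈ 𝓝 (0 : E) :=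
    Metric.eball_mem_nhds _ (lt_min hp.r_pos hrad)
  filter_upwards [hball] with x hx
  have hx1 : x ∈ Metric.eball (0 : E) r := Metric.eball_subset_eball (min_le_left _ _) hx
  have hx2 : x ∈ Metric.eball (0 : E) p.shift.radius :=
    Metric.eball_subset_eball (min_le_right _ _) hx
  have h1 := hp.hasSum hx1
  have h2 := hG.hasSum hx2
  rw [zero_add] at h1 h2
  have h3 : HasSum (fun k => (p.shift k (fun _ => x)) x) (p.shift.sum x x) :=
    hasSum_apply _ _ x h2
  simp_rw [shift_apply] at h3
  have h5 := (hasSum_nat_add_iff' (f := fun k => p k (fun _ => x)) 1).mpr h1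
  have h6 := h5.unique h3
  rw [Finset.sum_range_one] at h6
  have h7 : p 0 (fun _ => x) = f 0 := by
    have := hp.coeff_zero (fun _ => x)
    exact this
  rw [h7] at h6
  rw [← h6]
  abel

end hadamard

section taylor

open MvPolynomial

variable {n : ℕ}

/-- Second order Taylor expansion of a polynomial, with analytic remainder. -/
theorem taylor_two (P : MvPolynomial (Fin n) ℂ) :
    ∃ G : Fin n → Fin n → ((Fin n → ℂ) × (Fin n → ℂ)) → ℂ,
      (∀ i j, AnalyticOnNhd ℂ (G i j) Set.univ) ∧
      ∀ x ξ : Fin n → ℂ, eval (x + ξ) P = eval x P + ∑ i, eval x (pderiv i P) * ξ i +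
        ∑ i, ∑ j, G i j (x, ξ) * ξ i * ξ j := by
  classical
  induction P using MvPolynomial.induction_on with
  | C a =>
    refine ⟨fun _ _ _ => 0, fun _ _ => analyticOnNhd_const, fun x ξ => ?_⟩
    simp
  | add p q hp hq =>
    obtain ⟨G, hG, hp⟩ := hp
    obtain ⟨H, hH, hq⟩ := hq
    refine ⟨fun i j z => G i j z + H i j z, fun i j => (hG i j).add (hH i j), fun x ξ => ?_⟩
    rw [map_add, hp, hq]
    simp only [map_add, add_mul, Finset.sum_add_distrib]
    ring
  | mul_X p k hp =>
    obtain ⟨G, hG, hp⟩ := hp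
    refine ⟨fun i j z => (if j = k then eval z.1 (pderiv i p) else 0) + (z.1 k + z.2 k) * G i j z,
      fun i j => ?_, fun x ξ => ?_⟩
    · have h1 : AnalyticOnNhd ℂ (fun z : (Fin n → ℂ) × (Fin n → ℂ) => z.1 k + z.2 k) Set.univ := by
        intro z _
        have e1 : AnalyticAt ℂ (fun z : (Fin n → ℂ) × (Fin n → ℂ) => z.1 k) z :=
          ((ContinuousLinearMap.proj (R := ℂ) (φ := fun _ : Fin n => ℂ) k).comp
            (ContinuousLinearMap.fst ℂ (Fin n → ℂ) (Fin n → ℂ))).analyticAt z
        have e2 : AnalyticAt ℂ (fun z : (Fin n → ℂ) × (Fin n → ℂ) => z.2 k) z :=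
          ((ContinuousLinearMap.proj (R := ℂ) (φ := fun _ : Fin n => ℂ) k).comp
            (ContinuousLinearMap.snd ℂ (Fin n → ℂ) (Fin n → ℂ))).analyticAt z
        exact e1.add e2
      refine AnalyticOnNhd.add ?_ (h1.mul (hG i j))
      by_cases hjk : j = k
      · simp only [hjk, if_true]
        intro z _
        have h2 : AnalyticAt ℂ (fun x : Fin n → ℂ => eval x (pderiv i p)) z.1 :=
          AnalyticOnNhd.eval_mvPolynomial (pderiv i p) z.1 (Set.mem_univ _)
        exact h2.comp ((ContinuousLinearMap.fst ℂ (Fin n → ℂ) (Fin n → ℂ)).analyticAt z)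
      · simp only [hjk, if_false]
        exact analyticOnNhd_const
    · rw [map_mul, hp, eval_X, Pi.add_apply]
      have h3 : ∀ i, eval x (pderiv i (p * X k)) * ξ i =
          eval x (pderiv i p) * ξ i * x k + (if i = k then eval x p * ξ k else 0) := by
        intro i
        rw [pderiv_mul, pderiv_X]
        by_cases hik : i = k
        · subst hik
          simp; ring
        · simp [hik, Ne.symm hik]; ring
      simp_rw [h3]
      simp only [add_mul, Finset.sum_add_distrib, ite_mul, zero_mul, Finset.sum_ite_eq',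
        Finset.mem_univ, if_true, map_mul, eval_X]
      have h4 : ∑ i, ∑ j, (x k * G i j (x, ξ) * ξ i * ξ j) =
          x k * ∑ i, ∑ j, G i j (x, ξ) * ξ i * ξ j := by
        rw [Finset.mul_sum]
        refine Finset.sum_congr rfl fun i _ => ?_
        rw [Finset.mul_sum]
        refine Finset.sum_congr rfl fun j _ => ?_
        ring
      have h5 : ∑ i, ∑ j, (ξ k * G i j (x, ξ) * ξ i * ξ j) =
          ξ k * ∑ i, ∑ j, G i j (x, ξ) * ξ i * ξ j := by
        rw [Finset.mul_sum]
        refine Finset.sum_congr rfl fun i _ => ?_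
        rw [Finset.mul_sum]
        refine Finset.sum_congr rfl fun j _ => ?_
        ring
      have h6 : ∑ i, eval x (pderiv i p) * ξ i * ξ k = (∑ i, eval x (pderiv i p) * ξ i) * ξ k := by
        rw [Finset.sum_mul]
      have h7 : ∑ i, eval x (pderiv i p) * ξ i * x k = (∑ i, eval x (pderiv i p) * ξ i) * x k := by
        rw [Finset.sum_mul]
      rw [h4, h5, h6, h7]
      ring

end taylor

end Q51.PolyDeg
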