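import Mathlib
import Pool.Agent.Q51.Hadamard

set_option autoImplicit false

/-!
Determinacy: a perturbation of a polynomial in `𝔪 J²` is a change of coordinates.
-/

namespace Q51.PolyDeg

open Filter Topology MvPolynomial
open scoped ContDiff

variable {n : ℕ}

/-- matrices as functions -/
abbrev Mt (n : ℕ) : Type := Fin n → Fin n → ℂ

/-- vectors -/
abbrev Vc (n : ℕ) : Type := Fin n → ℂ

lemma hasFDerivAt_mul_zero {E : Type*} [NormedAddCommGroup E] [NormedSpace ℂ E] {a b : E → ℂ}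
    {z : E} (ha : DifferentiableAt ℂ a z) (hb : DifferentiableAt ℂ b z) (ha0 : a z = 0)
    (hb0 : b z = 0) : HasFDerivAt (fun x => a x * b x) (0 : E →L[ℂ] ℂ) z := by
  have h : HasFDerivAt (fun x => a x * b x) (a z • fderiv ℂ b z + b z • fderiv ℂ a z) z :=
    ha.hasFDerivAt.mul hb.hasFDerivAt
  rw [ha0, hb0] at h
  convert h using 1
  ext v
  simp

lemma sum_swap4 (f : Fin n → Fin n → Fin n → Fin n → ℂ) :
    ∑ k, ∑ l, ∑ i, ∑ j, f k l i j = ∑ i, ∑ j, ∑ k, ∑ l, f k l i j := by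
  calc ∑ k, ∑ l, ∑ i, ∑ j, f k l i j = ∑ k, ∑ i, ∑ l, ∑ j, f k l i j :=
        Finset.sum_congr rfl fun k _ => Finset.sum_comm
    _ = ∑ i, ∑ k, ∑ l, ∑ j, f k l i j := Finset.sum_comm
    _ = ∑ i, ∑ k, ∑ j, ∑ l, f k l i j :=
        Finset.sum_congr rfl fun i _ => Finset.sum_congr rfl fun k _ => Finset.sum_comm
    _ = ∑ i, ∑ j, ∑ k, ∑ l, f k l i j := Finset.sum_congr rfl fun i _ => Finset.sum_comm

/-- Determinacy for polynomials by the analytic implicit function theorem. -/
theorem determinacy (P : MvPolynomial (Fin n) ℂ)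
    (hP : ∀ i, eval (0 : Fin n → ℂ) (pderiv i P) = 0)
    (c : Fin n → Fin n → (Fin n → ℂ) → ℂ) (hc : ∀ i j, AnalyticAt ℂ (c i j) 0)
    (hc0 : ∀ i j, c i j 0 = 0) :
    ∃ φ : (Fin n → ℂ) → (Fin n → ℂ), AnalyticAt ℂ φ 0 ∧ φ 0 = 0 ∧
      HasFDerivAt φ (ContinuousLinearMap.id ℂ (Fin n → ℂ)) 0 ∧
      ∀ᶠ x in 𝓝 (0 : Fin n → ℂ), eval (φ x) P =
        eval x P + ∑ i, ∑ j, c i j x * eval x (pderiv i P) * eval x (pderiv j P) := by
  classical
  obtain ⟨G, hG, hTay⟩ := taylor_two P
  -- abbreviations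
  let Pd : Fin n → Vc n → ℂ := fun i x => eval x (pderiv i P)
  have hPd : ∀ i (x : Vc n), AnalyticAt ℂ (Pd i) x := fun i x =>
    AnalyticOnNhd.eval_mvPolynomial (pderiv i P) x (Set.mem_univ _)
  let ξ : Vc n × Mt n → Vc n := fun z m => ∑ j, z.2 m j * Pd j z.1
  have hA : ∀ k i (z : Vc n × Mt n), AnalyticAt ℂ (fun z : Vc n × Mt n => z.2 k i) z := by
    intro k i z
    exact (((ContinuousLinearMap.proj (R := ℂ) (φ := fun _ : Fin n => ℂ) i).comp
      (ContinuousLinearMap.proj (R := ℂ) (φ := fun _ : Fin n => Fin n → ℂ) k)).comp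
      (ContinuousLinearMap.snd ℂ (Vc n) (Mt n))).analyticAt z
  have hfst : ∀ (z : Vc n × Mt n), AnalyticAt ℂ (fun z : Vc n × Mt n => z.1) z := fun z =>
    (ContinuousLinearMap.fst ℂ (Vc n) (Mt n)).analyticAt z
  have hPd1 : ∀ i (z : Vc n × Mt n), AnalyticAt ℂ (fun z : Vc n × Mt n => Pd i z.1) z := fun i z =>
    (hPd i z.1).comp (hfst z)
  have hξ : ∀ z : Vc n × Mt n, AnalyticAt ℂ ξ z := by
    intro z
    rw [analyticAt_pi_iff]
    intro m
    refine Finset.analyticAt_fun_sum _ fun j _ => ?_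
    exact (hA m j z).mul (hPd1 j z)
  have hGξ : ∀ k l (z : Vc n × Mt n), AnalyticAt ℂ (fun z : Vc n × Mt n => G k l (z.1, ξ z)) z := by
    intro k l z
    have h1 : AnalyticAt ℂ (fun z : Vc n × Mt n => (z.1, ξ z)) z := (hfst z).prod (hξ z)
    exact AnalyticAt.comp (g := G k l) (hG k l (z.1, ξ z) (Set.mem_univ _)) h1
  let F : Vc n × Mt n → Mt n := fun z i j =>
    z.2 i j + (∑ k, ∑ l, z.2 k i * (G k l (z.1, ξ z) * z.2 l j)) - c i j z.1
  have hFan : AnalyticAt ℂ F (0, 0) := by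
    rw [analyticAt_pi_iff]
    intro i
    rw [analyticAt_pi_iff]
    intro j
    refine ((hA i j _).add ?_).sub ?_
    · refine Finset.analyticAt_fun_sum _ fun k _ => ?_
      refine Finset.analyticAt_fun_sum _ fun l _ => ?_
      exact (hA k i _).mul ((hGξ k l _).mul (hA l j _))
    · exact AnalyticAt.comp (g := c i j) (hc i j) (hfst (0, 0))
  let F' : Vc n × Mt n →L[ℂ] Mt n := ContinuousLinearMap.pi fun i => ContinuousLinearMap.pi fun j =>
    ((ContinuousLinearMap.proj (R := ℂ) (φ := fun _ : Fin n => ℂ) j).comp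
      (ContinuousLinearMap.proj (R := ℂ) (φ := fun _ : Fin n => Fin n → ℂ) i)).comp
      (ContinuousLinearMap.snd ℂ (Vc n) (Mt n)) -
      (fderiv ℂ (c i j) 0).comp (ContinuousLinearMap.fst ℂ (Vc n) (Mt n))
  have hFder : HasFDerivAt F F' (0, 0) := by
    rw [hasFDerivAt_pi]
    intro i
    rw [hasFDerivAt_pi]
    intro j
    refine HasFDerivAt.sub ?_ ?_
    · have h1 : HasFDerivAt (fun z : Vc n × Mt n => z.2 i j)
        (((ContinuousLinearMap.proj (R := ℂ) (φ := fun _ : Fin n => ℂ) j).comp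
          (ContinuousLinearMap.proj (R := ℂ) (φ := fun _ : Fin n => Fin n → ℂ) i)).comp
          (ContinuousLinearMap.snd ℂ (Vc n) (Mt n))) (0, 0) :=
        (((ContinuousLinearMap.proj (R := ℂ) (φ := fun _ : Fin n => ℂ) j).comp
          (ContinuousLinearMap.proj (R := ℂ) (φ := fun _ : Fin n => Fin n → ℂ) i)).comp
          (ContinuousLinearMap.snd ℂ (Vc n) (Mt n))).hasFDerivAt
      have h2 : HasFDerivAt (fun z : Vc n × Mt n => ∑ k, ∑ l, z.2 k i * (G k l (z.1, ξ z) * z.2 l j))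
          (∑ k : Fin n, ∑ l : Fin n, (0 : Vc n × Mt n →L[ℂ] ℂ)) (0, 0) := by
        refine HasFDerivAt.fun_sum fun k _ => ?_
        refine HasFDerivAt.fun_sum fun l _ => ?_
        refine hasFDerivAt_mul_zero (hA k i _).differentiableAt
          ((hGξ k l _).mul (hA l j _)).differentiableAt ?_ ?_
        · simp
        · simp
      have h3 := h1.add h2
      simp only [Finset.sum_const_zero, add_zero] at h3
      exact h3
    · exact HasFDerivAt.comp (g := c i j) (0, 0) (hc i j).differentiableAt.hasFDerivAt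
        (ContinuousLinearMap.fst ℂ (Vc n) (Mt n)).hasFDerivAt
  have hF0 : F (0, 0) = 0 := by
    funext i j
    simp [F, hc0]
  have hcd : ContDiffAt ℂ ω F (0, 0) := hFan.contDiffAt
  have hinv : (fderiv ℂ F (0, 0) ∘L .inr ℂ (Vc n) (Mt n)).IsInvertible := by
    rw [hFder.fderiv]
    have : F' ∘L .inr ℂ (Vc n) (Mt n) = (ContinuousLinearEquiv.refl ℂ (Mt n) : Mt n →L[ℂ] Mt n) := by
      ext A i j
      simp [F']
    rw [this]
    exact ContinuousLinearMap.isInvertible_equiv
  let ψ := hcd.implicitFunction (by simp) hinv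
  have hψ0 : ψ 0 = 0 := hcd.implicitFunction_apply_self (by simp) hinv
  have hψan : AnalyticAt ℂ ψ 0 :=
    (hcd.contDiffAt_implicitFunction (by simp) hinv).analyticAt
  have hψF : ∀ᶠ x in 𝓝 (0 : Vc n), F (x, ψ x) = F (0, 0) :=
    hcd.eventually_apply_implicitFunction (by simp) hinv
  have hψij : ∀ i j, AnalyticAt ℂ (fun x => ψ x i j) 0 := by
    intro i j
    have h1 := (analyticAt_pi_iff.mp hψan) i
    exact (analyticAt_pi_iff.mp h1) j
  refine ⟨fun x => x + ξ (x, ψ x), ?_, ?_, ?_, ?_⟩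
  · refine analyticAt_id.add ?_
    rw [analyticAt_pi_iff]
    intro m
    refine Finset.analyticAt_fun_sum _ fun j _ => ?_
    exact (hψij m j).mul (hPd j 0)
  · funext m
    simp [ξ, hψ0]
  · have h1 : HasFDerivAt (fun x => ξ (x, ψ x)) (0 : Vc n →L[ℂ] Vc n) 0 := by
      rw [hasFDerivAt_pi']
      intro m
      have h2 : HasFDerivAt (fun x : Vc n => ∑ j, ψ x m j * Pd j x)
          (∑ j : Fin n, (0 : Vc n →L[ℂ] ℂ)) 0 := by
        refine HasFDerivAt.fun_sum fun j _ => ?_
        refine hasFDerivAt_mul_zero (hψij m j).differentiableAt (hPd j 0).differentiableAt ?_ ?_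
        · simp [hψ0]
        · exact hP j
      simp only [Finset.sum_const_zero] at h2
      simpa using h2
    have h3 := (hasFDerivAt_id (𝕜 := ℂ) (0 : Vc n)).add h1
    simpa using h3
  · filter_upwards [hψF] with x hx
    rw [hF0] at hx
    have hx' : ∀ i j, c i j x = ψ x i j +
        ∑ k, ∑ l, ψ x k i * (G k l (x, ξ (x, ψ x)) * ψ x l j) := by
      intro i j
      have h1 := congrFun (congrFun hx i) j
      simp only [F, Pi.zero_apply] at h1
      exact (sub_eq_zero.mp h1).symm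
    rw [hTay, add_assoc]
    congr 1
    set A := ψ x with hAdef
    set ζ := ξ (x, A) with hζ
    have hζm : ∀ m, ζ m = ∑ j, A m j * Pd j x := fun m => rfl
    have e1 : ∑ i, eval x (pderiv i P) * ζ i = ∑ i, ∑ j, A i j * Pd i x * Pd j x := by
      refine Finset.sum_congr rfl fun i _ => ?_
      rw [hζm, Finset.mul_sum]
      refine Finset.sum_congr rfl fun j _ => ?_
      change Pd i x * _ = _
      ring
    have e2 : ∑ k, ∑ l, G k l (x, ζ) * ζ k * ζ l =
        ∑ i, ∑ j, (∑ k, ∑ l, A k i * (G k l (x, ζ) * A l j)) * Pd i x * Pd j x := by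
      calc ∑ k, ∑ l, G k l (x, ζ) * ζ k * ζ l
          = ∑ k, ∑ l, ∑ i, ∑ j, A k i * (G k l (x, ζ) * A l j) * Pd i x * Pd j x := by
            refine Finset.sum_congr rfl fun k _ => Finset.sum_congr rfl fun l _ => ?_
            rw [hζm, hζm, mul_assoc, Finset.sum_mul_sum, Finset.mul_sum]
            refine Finset.sum_congr rfl fun i _ => ?_
            rw [Finset.mul_sum]
            refine Finset.sum_congr rfl fun j _ => ?_
            ring
        _ = ∑ i, ∑ j, ∑ k, ∑ l, A k i * (G k l (x, ζ) * A l j) * Pd i x * Pd j x :=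
            sum_swap4 _
        _ = _ := by
            refine Finset.sum_congr rfl fun i _ => Finset.sum_congr rfl fun j _ => ?_
            rw [Finset.sum_mul, Finset.sum_mul]
            refine Finset.sum_congr rfl fun k _ => ?_
            rw [Finset.sum_mul, Finset.sum_mul]
    rw [e1, e2, ← Finset.sum_add_distrib]
    refine Finset.sum_congr rfl fun i _ => ?_
    rw [← Finset.sum_add_distrib]
    refine Finset.sum_congr rfl fun j _ => ?_
    rw [hx' i j]
    change _ = _ * Pd i x * Pd j x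
    ring

end Q51.PolyDeg
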