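import Mathlib
import Pool.Agent.Helper56.Disc.Assoc

set_option autoImplicit false

/-!
The discriminant along the family `z_0^d + ... + z_{m-1}^d + t z_m^d`.
-/

namespace Q51.DiscDiag

open MvPolynomial Matrix
open Pool.Agent.Helper56 Pool.Agent.Helper56.Disc

section diag

variable {R : Type*} [CommRing R] {n d : ℕ}

/-- the diagonal form -/
noncomputable def dform (d : ℕ) (w : Fin n → R) : MvPolynomial (Fin n) R :=
  ∑ i, C (w i) * X i ^ d

lemma dform_isHomogeneous (w : Fin n → R) : (dform d w).IsHomogeneous d := by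
  refine IsHomogeneous.sum _ _ _ fun i _ => ?_
  have h := (isHomogeneous_C (Fin n) (w i)).mul ((isHomogeneous_X R i).pow d)
  simpa using h

lemma pderiv_dform (w : Fin n → R) (i : Fin n) :
    pderiv i (dform d w) = C (w i * d) * X i ^ (d - 1) := by
  classical
  unfold dform
  rw [map_sum, Finset.sum_eq_single i]
  · rw [pderiv_C_mul, pderiv_pow, pderiv_X_self, mul_one, map_mul, map_natCast]
    ring
  · intro j _ hj
    rw [pderiv_C_mul, pderiv_pow, pderiv_X_of_ne hj, mul_zero, mul_zero]
  · simp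

lemma hess_dform (w : Fin n → R) :
    hess (dform d w) = ∏ i, (C (w i * d * (d - 1 : ℕ)) * X i ^ (d - 2)) := by
  classical
  unfold hess
  have h : (Matrix.of fun i j => pderiv j (pderiv i (dform d w))) =
      Matrix.diagonal fun i => (C (w i * d * (d - 1 : ℕ)) * X i ^ (d - 2)) := by
    ext1 i j
    rw [Matrix.of_apply, pderiv_dform, pderiv_C_mul, pderiv_pow]
    by_cases hij : i = j
    · subst hij
      rw [Matrix.diagonal_apply_eq, pderiv_X_self, mul_one]
      have h2 : d - 1 - 1 = d - 2 := by omega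
      rw [h2, map_mul C (w i * (d : R)), map_natCast (C : R →+* MvPolynomial (Fin n) R) (d - 1)]
      ring
    · rw [Matrix.diagonal_apply_ne _ hij, pderiv_X_of_ne hij, mul_zero, mul_zero]
  rw [h, Matrix.det_diagonal]

/-- coefficient vector of the diagonal form -/
noncomputable def dcv (d : ℕ) (w : Fin n → R) : Mon n d → R := cv (dform d w)

lemma form_dcv (w : Fin n → R) : form (dcv d w) = dform d w :=
  form_cv _ (dform_isHomogeneous w)

lemma row_dcv {e a : ℕ} (w : Fin n → R) (κ : Fin n × Mon n a) (γ : Mon n e) :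
    Disc.row (dcv d w) κ γ = if γ.1 = κ.2.1 + Finsupp.single κ.1 (d - 1) then w κ.1 * d else 0 := by
  classical
  unfold Disc.row cv
  rw [form_dcv, pderiv_dform]
  have h : monomial κ.2.1 (1 : R) * (C (w κ.1 * d) * X κ.1 ^ (d - 1)) =
      monomial (κ.2.1 + Finsupp.single κ.1 (d - 1)) (w κ.1 * d) := by
    rw [X_pow_eq_monomial, C_mul_monomial, monomial_mul, mul_one, one_mul]
  rw [h, coeff_monomial]
  by_cases hγ : γ.1 = κ.2.1 + Finsupp.single κ.1 (d - 1)
  · rw [if_pos hγ, if_pos hγ.symm]
  · rw [if_neg hγ, if_neg (Ne.symm hγ)]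

lemma prod_hess (w : Fin n → R) : ∏ i, (C (w i * d * (d - 1 : ℕ)) * X i ^ (d - 2)) =
    monomial (Finsupp.equivFunOnFinite.symm fun _ : Fin n => d - 2)
      (∏ i, (w i * d * (d - 1 : ℕ))) := by
  classical
  rw [Finset.prod_mul_distrib, ← map_prod, monomial_eq, Finsupp.prod_fintype _ _ (by simp)]
  rfl

lemma hv_dcv (w : Fin n → R) (γ : Mon n (n * (d - 2))) :
    hv (dcv d w) γ = if γ.1 = Finsupp.equivFunOnFinite.symm (fun _ : Fin n => d - 2) then
      ∏ i, (w i * d * (d - 1 : ℕ)) else 0 := by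
  classical
  unfold hv cv
  rw [form_dcv, hess_dform, prod_hess, coeff_monomial]
  by_cases hγ : γ.1 = Finsupp.equivFunOnFinite.symm (fun _ : Fin n => d - 2)
  · rw [if_pos hγ, if_pos hγ.symm]
  · rw [if_neg hγ, if_neg (Ne.symm hγ)]

/-- the Lam determinant for an adapted choice of rows -/
lemma Lam_dcv {a : ℕ} (w : Fin n → R) (α0 : Mon n (n * (d - 2)))
    (hα0 : α0.1 = Finsupp.equivFunOnFinite.symm (fun _ : Fin n => d - 2))
    (J : Mon n (n * (d - 2)) → Fin n × Mon n a)
    (hJ : ∀ α, α ≠ α0 → α.1 = (J α).2.1 + Finsupp.single (J α).1 (d - 1)) :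
    Lam α0 J (dcv d w) (hv (dcv d w)) =
      ∏ α, if α = α0 then ∏ i, (w i * d * (d - 1 : ℕ)) else w (J α).1 * d := by
  classical
  unfold Lam
  rw [← Matrix.det_diagonal]
  congr 1
  ext α γ
  by_cases hα : α = α0
  · subst hα
    rw [updateRow_self, hv_dcv]
    by_cases hγ : α = γ
    · subst hγ
      rw [Matrix.diagonal_apply_eq, if_pos hα0, if_pos rfl]
    · rw [Matrix.diagonal_apply_ne _ hγ, if_neg]
      intro h
      exact hγ (Subtype.ext (hα0.trans h.symm))
  · rw [updateRow_ne hα, Matrix.of_apply, row_dcv]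
    by_cases hγ : α = γ
    · subst hγ
      rw [Matrix.diagonal_apply_eq, if_pos (hJ α hα), if_neg hα]
    · rw [Matrix.diagonal_apply_ne _ hγ, if_neg]
      intro h
      exact hγ (Subtype.ext ((hJ α hα).trans h.symm))

end diag

section choice

variable {m d : ℕ}

/-- the set of monomials with all exponents but the last at most `d-2` has at most `(d-1)^m`
elements -/
lemma card_small (hd : 2 ≤ d) (e : ℕ) :
    (Finset.univ.filter fun α : Mon (m + 1) e => ∀ j : Fin m, α.1 j.castSucc ≤ d - 2).card ≤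
      (d - 1) ^ m := by
  classical
  have h1 : (Finset.univ : Finset (Fin m → Fin (d - 1))).card = (d - 1) ^ m := by simp
  rw [← h1]
  have hd1 : 0 < d - 1 := by omega
  refine Finset.card_le_card_of_injOn
    (fun α j => if h : α.1 j.castSucc < d - 1 then ⟨α.1 j.castSucc, h⟩ else ⟨0, hd1⟩)
    (fun _ _ => Finset.mem_univ _) ?_
  intro α hα β hβ hab
  simp only [Finset.coe_filter, Finset.mem_univ, true_and, Set.mem_ofPred_eq] at hα hβ
  have h2 : ∀ j : Fin m, α.1 j.castSucc = β.1 j.castSucc := by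
    intro j
    have h3 := congrFun hab j
    have ha := hα j
    have hb := hβ j
    have ha' : α.1 j.castSucc < d - 1 := by omega
    have hb' : β.1 j.castSucc < d - 1 := by omega
    simp only [ha', hb', dif_pos] at h3
    exact Fin.mk.inj_iff.mp h3
  apply Subtype.ext
  ext i
  refine Fin.lastCases ?_ h2 i
  have hsa := mon_degree α
  have hsb := mon_degree β
  rw [Finsupp.degree_eq_sum, Fin.sum_univ_castSucc] at hsa hsb
  have h4 : ∑ j : Fin m, α.1 j.castSucc = ∑ j : Fin m, β.1 j.castSucc :=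
    Finset.sum_congr rfl fun j _ => h2 j
  omega

/-- adapted choice of rows -/
lemma exists_choice (hd : 3 ≤ d) (a : ℕ) (ha : a + (d - 1) = (m + 1) * (d - 2))
    (α0 : Mon (m + 1) ((m + 1) * (d - 2)))
    (hα0 : α0.1 = Finsupp.equivFunOnFinite.symm (fun _ : Fin (m + 1) => d - 2)) :
    ∃ J : Mon (m + 1) ((m + 1) * (d - 2)) → Fin (m + 1) × Mon (m + 1) a,
      ∀ α, α ≠ α0 → α.1 = (J α).2.1 + Finsupp.single (J α).1 (d - 1) ∧
        ((J α).1 = Fin.last m → ∀ j : Fin m, α.1 j.castSucc ≤ d - 2) := by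
  classical
  have key : ∀ α : Mon (m + 1) ((m + 1) * (d - 2)), ∃ κ : Fin (m + 1) × Mon (m + 1) a, α ≠ α0 →
      α.1 = κ.2.1 + Finsupp.single κ.1 (d - 1) ∧
        (κ.1 = Fin.last m → ∀ j : Fin m, α.1 j.castSucc ≤ d - 2) := by
    intro α
    by_cases hα : α = α0
    · subst hα
      exact ⟨(0, ⟨Finsupp.single 0 a, mem_mon _ (by simp)⟩), fun h => absurd rfl h⟩
    -- an index with large exponent
    have hex : ∃ i : Fin (m + 1), d - 1 ≤ α.1 i ∧
        (i = Fin.last m → ∀ j : Fin m, α.1 j.castSucc ≤ d - 2) := by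
      by_cases h1 : ∃ j : Fin m, d - 1 ≤ α.1 j.castSucc
      · obtain ⟨j, hj⟩ := h1
        exact ⟨j.castSucc, hj, fun h => absurd h (Fin.castSucc_ne_last j)⟩
      · push Not at h1
        refine ⟨Fin.last m, ?_, fun _ j => by have := h1 j; omega⟩
        by_contra h2
        push Not at h2
        apply hα
        have hdeg := mon_degree α
        rw [Finsupp.degree_eq_sum] at hdeg
        have hle : ∀ i : Fin (m + 1), α.1 i ≤ d - 2 := by
          intro i
          refine Fin.lastCases ?_ (fun j => ?_) i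
          · omega
          · have := h1 j
            omega
        have hsum : ∑ i : Fin (m + 1), α.1 i = ∑ _i : Fin (m + 1), (d - 2) := by
          rw [hdeg]
          simp
        have h3 := (Finset.sum_eq_sum_iff_of_le fun i _ => hle i).mp hsum
        apply Subtype.ext
        rw [hα0]
        ext i
        exact h3 i (Finset.mem_univ i)
    obtain ⟨i, hi, hi'⟩ := hex
    have hle : Finsupp.single i (d - 1) ≤ α.1 := by
      intro k
      by_cases hk : i = k
      · subst hk; simpa using hi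
      · simp [Finsupp.single_eq_of_ne' hk]
    have hadd : α.1 = (α.1 - Finsupp.single i (d - 1)) + Finsupp.single i (d - 1) :=
      (tsub_add_cancel_of_le hle).symm
    have hdeg : (α.1 - Finsupp.single i (d - 1)).degree = a := by
      have h1 := mon_degree α
      rw [hadd, map_add] at h1
      rw [Finsupp.degree_single] at h1
      omega
    exact ⟨(i, ⟨α.1 - Finsupp.single i (d - 1), mem_mon _ hdeg⟩), fun _ => ⟨hadd, hi'⟩⟩
  choose J hJ using key
  exact ⟨J, hJ⟩

end choice

end Q51.DiscDiag
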