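import Mathlib
import Pool.Agent.Q51.DiscDiag

set_option autoImplicit false

/-!
Lower bound for the order of vanishing of the discriminant at a cone over a Fermat hypersurface.
-/

namespace Q51.DiscDiag

open MvPolynomial Matrix
open Pool.Agent.Helper56 Pool.Agent.Helper56.Disc

lemma ringHom_aeval {σ S T : Type*} [CommRing S] [Algebra ℂ S] [CommRing T] [Algebra ℂ T]
    (φ : S →+* T) (hφ : φ.comp (algebraMap ℂ S) = algebraMap ℂ T) (g : σ → S)
    (P : MvPolynomial σ ℂ) : φ (aeval g P) = aeval (fun i => φ (g i)) P := by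
  induction P using MvPolynomial.induction_on with
  | C a =>
    rw [aeval_C, aeval_C]
    exact DFunLike.congr_fun hφ a
  | add p q hp hq => rw [map_add, map_add, map_add, hp, hq]
  | mul_X p k hp => rw [map_mul, map_mul, map_mul, hp, aeval_X, aeval_X]

section fam

variable {m d : ℕ} {R : Type*} [CommRing R]

/-- the perturbed cone -/
noncomputable def pform (d : ℕ) (s : Fin m → R) (t : R) : MvPolynomial (Fin (m + 1)) R :=
  (∑ j : Fin m, (X j.castSucc ^ d - C (s j) * (X j.castSucc * X (Fin.last m) ^ (d - 1)))) +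
    C t * X (Fin.last m) ^ d

lemma pform_isHomogeneous (hd : 1 ≤ d) (s : Fin m → R) (t : R) :
    (pform d s t).IsHomogeneous d := by
  refine IsHomogeneous.add (IsHomogeneous.sum _ _ _ fun j _ => ?_) ?_
  · have h0 := (isHomogeneous_X R j.castSucc).pow d
    rw [one_mul] at h0
    refine h0.sub ?_
    have h := (isHomogeneous_C (Fin (m + 1)) (s j)).mul ((isHomogeneous_X R j.castSucc).mul
      ((isHomogeneous_X R (Fin.last m)).pow (d - 1)))
    have h2 : 0 + (1 + 1 * (d - 1)) = d := by omega
    rwa [h2] at h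
  · have h := (isHomogeneous_C (Fin (m + 1)) t).mul ((isHomogeneous_X R (Fin.last m)).pow d)
    simpa using h

lemma map_pform {S : Type*} [CommRing S] (φ : R →+* S) (s : Fin m → R) (t : R) :
    MvPolynomial.map φ (pform d s t) = pform d (fun j => φ (s j)) (φ t) := by
  unfold pform
  simp

lemma eval_pderiv_castSucc (s : Fin m → ℂ) (t : ℂ) (z : Fin (m + 1) → ℂ) (k : Fin m) :
    eval z (pderiv k.castSucc (pform d s t)) =
      d * z k.castSucc ^ (d - 1) - s k * z (Fin.last m) ^ (d - 1) := by
  classical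
  unfold pform
  have hl : pderiv k.castSucc (X (Fin.last m) : MvPolynomial (Fin (m + 1)) ℂ) = 0 :=
    pderiv_X_of_ne (Fin.castSucc_ne_last k).symm
  rw [map_add, map_sum, Finset.sum_eq_single k]
  · rw [map_sub, pderiv_pow, pderiv_X_self, pderiv_C_mul, pderiv_mul, pderiv_X_self, pderiv_pow, hl,
      pderiv_C_mul, pderiv_pow, hl]
    simp
  · intro j _ hj
    have hne : j.castSucc ≠ k.castSucc := fun h => hj (Fin.castSucc_injective m h)
    rw [map_sub, pderiv_pow, pderiv_X_of_ne hne, pderiv_C_mul, pderiv_mul, pderiv_X_of_ne hne,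
      pderiv_pow, hl]
    simp
  · simp

lemma eval_pderiv_last (s : Fin m → ℂ) (t : ℂ) (z : Fin (m + 1) → ℂ) :
    eval z (pderiv (Fin.last m) (pform d s t)) =
      (∑ j : Fin m, -(s j * (z j.castSucc * ((d - 1 : ℕ) * z (Fin.last m) ^ (d - 1 - 1))))) +
        t * (d * z (Fin.last m) ^ (d - 1)) := by
  classical
  unfold pform
  rw [map_add, map_sum, pderiv_C_mul, pderiv_pow, pderiv_X_self, map_add, map_sum]
  congr 1
  · refine Finset.sum_congr rfl fun j _ => ?_
    have hne : j.castSucc ≠ Fin.last m := Fin.castSucc_ne_last j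
    rw [map_sub, pderiv_pow, pderiv_X_of_ne hne, pderiv_C_mul, pderiv_mul, pderiv_X_of_ne hne,
      pderiv_pow, pderiv_X_self]
    simp
  · simp

/-- explicit singular point of the perturbed cone -/
lemma not_nondegenerate (hd : 3 ≤ d) (σ ω : Fin m → ℂ) (hω : ∀ j, ω j ^ (d - 1) = 1) :
    ¬ Nondegenerate (pform d (fun j => d * σ j ^ (d - 1))
      ((d - 1 : ℕ) * ∑ j, ω j * σ j ^ d)) := by
  intro h
  let z : Fin (m + 1) → ℂ := Fin.snoc (fun j => ω j * σ j) 1
  have hz1 : z (Fin.last m) = 1 := Fin.snoc_last _ _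
  have hzj : ∀ j : Fin m, z j.castSucc = ω j * σ j := fun j => Fin.snoc_castSucc _ _ _
  have h0 := h z (fun i => by
    induction i using Fin.lastCases with
    | last =>
      rw [eval_pderiv_last, hz1]
      simp_rw [hzj]
      rw [one_pow, one_pow, mul_one, mul_one, mul_assoc, Finset.sum_mul, Finset.mul_sum,
        ← Finset.sum_add_distrib]
      refine Finset.sum_eq_zero fun j _ => ?_
      have h1 : σ j ^ d = σ j ^ (d - 1) * σ j := by
        rw [← pow_succ]; congr 1; omega
      rw [h1]
      ring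
    | cast j =>
      rw [eval_pderiv_castSucc, hz1, hzj, mul_pow, hω, one_pow]
      ring)
  have h2 := congrFun h0 (Fin.last m)
  rw [hz1] at h2
  exact one_ne_zero h2

end fam

section order

variable {m d : ℕ}

/-- the parameter ring -/
abbrev PR (m : ℕ) : Type := MvPolynomial (Fin m) ℂ

/-- the critical values -/
noncomputable def tau (d : ℕ) (ζ : ℂ) (κ : Fin m → Fin (d - 1)) : MvPolynomial (Fin m) ℂ :=
  C ((d - 1 : ℕ) : ℂ) * ∑ j, C (ζ ^ (κ j : ℕ)) * X j ^ d

lemma tau_injective (hd : 3 ≤ d) (ζ : ℂ) (hζ : IsPrimitiveRoot ζ (d - 1)) :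
    Function.Injective (tau d ζ : (Fin m → Fin (d - 1)) → MvPolynomial (Fin m) ℂ) := by
  classical
  intro κ κ' h
  funext j
  have h1 := congrArg (eval (Pi.single j (1 : ℂ))) h
  unfold tau at h1
  have h2 : ∀ κ : Fin m → Fin (d - 1), eval (Pi.single j (1 : ℂ))
      (C ((d - 1 : ℕ) : ℂ) * ∑ j, C (ζ ^ (κ j : ℕ)) * X j ^ d) =
      ((d - 1 : ℕ) : ℂ) * ζ ^ (κ j : ℕ) := by
    intro κ
    rw [map_mul, eval_C, map_sum, Finset.sum_eq_single j]
    · simp
    · intro k _ hk
      rw [map_mul, map_pow (eval _) (X k), eval_X, Pi.single_eq_of_ne hk, zero_pow (by omega),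
        mul_zero]
    · simp
  rw [h2, h2] at h1
  have h3 : ((d - 1 : ℕ) : ℂ) ≠ 0 := by
    rw [Nat.cast_ne_zero]; omega
  have h4 := mul_left_cancel₀ h3 h1
  exact Fin.ext (hζ.pow_inj (κ j).2 (κ' j).2 h4)

/-- the weights of the one parameter family -/
noncomputable def wt (m : ℕ) : Fin (m + 1) → Polynomial ℂ :=
  Fin.snoc (fun _ => 1) Polynomial.X

/-- the discriminant vanishes to order at least `(d-1)^m` along the family
`z_0^d + ... + z_{m-1}^d + t z_m^d` -/
theorem pow_dvd_discriminant (hd : 3 ≤ d) (Δ : MvPolynomial (Mon (m + 1) d) ℂ)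
    (hΔ : ∀ c : Mon (m + 1) d → ℂ, ¬ Nondegenerate (form c) → eval c Δ = 0) :
    (Polynomial.X : Polynomial ℂ) ^ ((d - 1) ^ m) ∣ aeval (dcv d (wt m)) Δ := by
  classical
  obtain ⟨ζ, hζ⟩ : ∃ ζ : ℂ, IsPrimitiveRoot ζ (d - 1) :=
    ⟨_, Complex.isPrimitiveRoot_exp (d - 1) (by omega)⟩
  let s : Fin m → Polynomial (PR m) := fun j => Polynomial.C (C (d : ℂ) * X j ^ (d - 1))
  let G : MvPolynomial (Fin (m + 1)) (Polynomial (PR m)) := pform d s Polynomial.X
  let g : Mon (m + 1) d → Polynomial (PR m) := cv G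
  have hG : form g = G := form_cv _ (pform_isHomogeneous (by omega) _ _)
  set D : Polynomial (PR m) := aeval g Δ with hD
  -- roots
  have hroot : ∀ κ : Fin m → Fin (d - 1), D.eval (tau d ζ κ) = 0 := by
    intro κ
    apply MvPolynomial.funext
    intro σ
    rw [map_zero]
    let φ : Polynomial (PR m) →+* ℂ := (MvPolynomial.eval σ).comp (Polynomial.evalRingHom (tau d ζ κ))
    have hφ : φ.comp (algebraMap ℂ (Polynomial (PR m))) = algebraMap ℂ ℂ := by
      ext a
      simp only [φ, RingHom.comp_apply, Polynomial.algebraMap_apply, Polynomial.coe_evalRingHom,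
        Polynomial.eval_C, MvPolynomial.algebraMap_eq, eval_C]
      simp
    have h1 : MvPolynomial.eval σ (D.eval (tau d ζ κ)) = φ D := rfl
    rw [h1, hD, ringHom_aeval φ hφ, aeval_eq_eval]
    apply hΔ
    have h2 : form (fun i => φ (g i)) = MvPolynomial.map φ G := by
      rw [← hG, map_form]
    rw [h2, map_pform]
    have h3 : (fun j => φ (s j)) = fun j => (d : ℂ) * σ j ^ (d - 1) := by
      funext j
      simp only [φ, s, RingHom.comp_apply, Polynomial.coe_evalRingHom, Polynomial.eval_C, map_mul,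
        eval_C, map_pow, eval_X]
    have h4 : φ Polynomial.X = (d - 1 : ℕ) * ∑ j, ζ ^ (κ j : ℕ) * σ j ^ d := by
      simp only [φ, RingHom.comp_apply, Polynomial.coe_evalRingHom, Polynomial.eval_X, tau, map_mul,
        eval_C, map_sum, map_pow, eval_X]
    rw [h3, h4]
    apply not_nondegenerate hd
    intro j
    rw [← pow_mul, mul_comm, pow_mul, hζ.pow_eq_one, one_pow]
  -- the product divides
  have hprod : (∏ κ : Fin m → Fin (d - 1), (Polynomial.X - Polynomial.C (tau d ζ κ))) ∣ D := by
    by_cases hD0 : D = 0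
    · rw [hD0]; exact dvd_zero _
    have h1 := (Multiset.prod_X_sub_C_dvd_iff_le_roots hD0
      ((Finset.univ : Finset (Fin m → Fin (d - 1))).val.map (tau d ζ))).mpr (by
        rw [Multiset.le_iff_subset]
        · intro a ha
          rw [Multiset.mem_map] at ha
          obtain ⟨κ, _, rfl⟩ := ha
          rw [Polynomial.mem_roots hD0]
          exact hroot κ
        · exact Multiset.Nodup.map (tau_injective hd ζ hζ) Finset.univ.nodup)
    rw [Multiset.map_map] at h1
    exact h1
  -- specialise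
  let ψ : Polynomial (PR m) →+* Polynomial ℂ := Polynomial.mapRingHom (MvPolynomial.eval 0)
  have hψ : ψ.comp (algebraMap ℂ (Polynomial (PR m))) = algebraMap ℂ (Polynomial ℂ) := by
    ext1 a
    simp only [ψ, RingHom.comp_apply, Polynomial.algebraMap_apply, Polynomial.coe_mapRingHom,
      Polynomial.map_C, MvPolynomial.algebraMap_eq, eval_C]
    simp
  have h5 := map_dvd ψ hprod
  rw [map_prod, hD, ringHom_aeval ψ hψ] at h5
  have h6 : (fun i => ψ (g i)) = dcv d (wt m) := by
    have h7 : form (fun i => ψ (g i)) = dform d (wt m) := by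
      rw [← map_form, hG, map_pform]
      unfold pform dform
      rw [Fin.sum_univ_castSucc]
      congr 1
      · refine Finset.sum_congr rfl fun j _ => ?_
        have h8 : ψ (s j) = 0 := by
          have h8' : MvPolynomial.eval (0 : Fin m → ℂ) (C (d : ℂ) * X j ^ (d - 1)) = 0 := by
            rw [map_mul, map_pow, eval_X, Pi.zero_apply, zero_pow (by omega), mul_zero]
          simp only [ψ, s, Polynomial.coe_mapRingHom, Polynomial.map_C]
          rw [h8', map_zero]
        change _ - C (ψ (s j)) * _ = _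
        rw [h8, map_zero, zero_mul, sub_zero]
        simp [wt]
      · simp [ψ, wt]
    unfold dcv
    rw [← h7, cv_form]
  rw [h6] at h5
  have h9 : ∏ κ : Fin m → Fin (d - 1), ψ (Polynomial.X - Polynomial.C (tau d ζ κ)) =
      Polynomial.X ^ ((d - 1) ^ m) := by
    have h10 : ∀ κ : Fin m → Fin (d - 1), ψ (Polynomial.X - Polynomial.C (tau d ζ κ)) =
        Polynomial.X := by
      intro κ
      have h11 : MvPolynomial.eval (0 : Fin m → ℂ) (tau d ζ κ) = 0 := by
        unfold tau
        rw [map_mul, map_sum, Finset.sum_eq_zero, mul_zero]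
        intro j _
        rw [map_mul, map_pow (eval _) (X j), eval_X, Pi.zero_apply, zero_pow (by omega), mul_zero]
      simp only [ψ, Polynomial.coe_mapRingHom, Polynomial.map_sub, Polynomial.map_X,
        Polynomial.map_C]
      rw [h11, Polynomial.C_0, sub_zero]
    rw [Finset.prod_congr rfl fun κ _ => h10 κ, Finset.prod_const]
    simp
  rw [h9] at h5
  exact h5

end order

end Q51.DiscDiag
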