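import Mathlib
import Pool.Agent.Q51.DiscOrder

set_option autoImplicit false

/-!
`Δ Φ` extends to all forms: the discriminant exponent equals one.
-/

namespace Q51.DiscDiag

open MvPolynomial Matrix
open Pool.Agent.Helper56 Pool.Agent.Helper56.Disc

variable {m d : ℕ}

lemma wt_last : wt m (Fin.last m) = Polynomial.X := Fin.snoc_last _ _
lemma wt_castSucc (j : Fin m) : wt m j.castSucc = 1 := Fin.snoc_castSucc _ _ _

lemma wt_ne_zero (i : Fin (m + 1)) : wt m i ≠ 0 := by
  induction i using Fin.lastCases with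
  | last => rw [wt_last]; exact Polynomial.X_ne_zero
  | cast j => rw [wt_castSucc]; exact one_ne_zero

lemma aeval_MM {n a : ℕ} (α0 : Mon n (n * (d - 2)))
    (J : Mon n (n * (d - 2)) → Fin n × Mon n a) (c : Mon n d → Polynomial ℂ) :
    aeval c (MM α0 J) = Lam α0 J c (hv c) := by
  unfold MM
  have h := Lam_map (aeval c : MvPolynomial (Mon n d) ℂ →ₐ[ℂ] Polynomial ℂ).toRingHom α0 J
    (fun α => X α) (hv fun α => X α)
  have h1 : (fun α => (aeval c : MvPolynomial (Mon n d) ℂ →ₐ[ℂ] Polynomial ℂ).toRingHom (X α)) =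
      c := by
    funext α
    exact aeval_X c α
  have h2 : (fun γ => (aeval c : MvPolynomial (Mon n d) ℂ →ₐ[ℂ] Polynomial ℂ).toRingHom
      (hv (fun α => X α) γ)) = hv c := by
    funext γ
    rw [hv_map, h1]
  rw [h1, h2] at h
  exact h

/-- the choice of rows with a minor that is not divisible by `Δ²` -/
theorem exists_not_sq_dvd (hd : 3 ≤ d) (Δ : MvPolynomial (Mon (m + 1) d) ℂ)
    (hΔ : ∀ c : Mon (m + 1) d → ℂ, ¬ Nondegenerate (form c) → eval c Δ = 0) (a : ℕ)
    (ha : a + (d - 1) = (m + 1) * (d - 2))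
    (α0 : Mon (m + 1) ((m + 1) * (d - 2)))
    (hα0 : α0.1 = Finsupp.equivFunOnFinite.symm (fun _ : Fin (m + 1) => d - 2)) :
    ∃ J : Mon (m + 1) ((m + 1) * (d - 2)) → Fin (m + 1) × Mon (m + 1) a,
      ¬ Δ ^ 2 ∣ MM α0 J := by
  classical
  obtain ⟨J, hJ⟩ := exists_choice hd a ha α0 hα0
  refine ⟨J, fun hdvd => ?_⟩
  have h1 := pow_dvd_discriminant hd Δ hΔ
  have h2 : (aeval (dcv d (wt m)) Δ) ^ 2 ∣ aeval (dcv d (wt m)) (MM α0 J) := by
    rw [← map_pow]
    exact map_dvd _ hdvd
  have h3 := (pow_dvd_pow_of_dvd h1 2).trans h2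
  rw [← pow_mul, aeval_MM, Lam_dcv _ _ hα0 J fun α hα => (hJ α hα).1] at h3
  set PP : Polynomial ℂ := ∏ α, if α = α0 then ∏ i, (wt m i * d * (d - 1 : ℕ))
    else wt m (J α).1 * d with hPP
  have hdne : (d : Polynomial ℂ) ≠ 0 := by
    rw [Nat.cast_ne_zero]; omega
  have hd1ne : ((d - 1 : ℕ) : Polynomial ℂ) ≠ 0 := by
    rw [Nat.cast_ne_zero]; omega
  have hPP0 : PP ≠ 0 := by
    rw [hPP, Finset.prod_ne_zero_iff]
    intro α _
    split_ifs
    · rw [Finset.prod_ne_zero_iff]
      intro i _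
      exact mul_ne_zero (mul_ne_zero (wt_ne_zero i) hdne) hd1ne
    · exact mul_ne_zero (wt_ne_zero _) hdne
  have hdeg : PP.natDegree ≤ (d - 1) ^ m := by
    have hcast : ∀ k : ℕ, (k : Polynomial ℂ) = Polynomial.C (k : ℂ) := fun k => by simp
    have hwt : ∀ i : Fin (m + 1), (wt m i).natDegree ≤ if i = Fin.last m then 1 else 0 := by
      intro i
      induction i using Fin.lastCases with
      | last => rw [wt_last, if_pos rfl]; exact Polynomial.natDegree_X_le
      | cast j =>
        rw [wt_castSucc, if_neg (Fin.castSucc_ne_last j)]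
        simp
    have hfac : ∀ α : Mon (m + 1) ((m + 1) * (d - 2)),
        (if α = α0 then ∏ i, (wt m i * d * (d - 1 : ℕ)) else wt m (J α).1 * d : Polynomial ℂ).natDegree
          ≤ if ∀ j : Fin m, α.1 j.castSucc ≤ d - 2 then 1 else 0 := by
      intro α
      by_cases hα : α = α0
      · rw [if_pos hα, if_pos]
        · refine (Polynomial.natDegree_prod_le _ _).trans ?_
          calc ∑ i, (wt m i * d * (d - 1 : ℕ) : Polynomial ℂ).natDegree
              ≤ ∑ i : Fin (m + 1), (if i = Fin.last m then 1 else 0) := by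
                refine Finset.sum_le_sum fun i _ => ?_
                rw [hcast, hcast]
                refine (Polynomial.natDegree_mul_C_le _ _).trans ?_
                exact (Polynomial.natDegree_mul_C_le _ _).trans (hwt i)
            _ = 1 := by simp
        · intro j
          rw [hα, hα0]
          simp
      · rw [if_neg hα, hcast]
        refine (Polynomial.natDegree_mul_C_le _ _).trans ((hwt _).trans ?_)
        by_cases hl : (J α).1 = Fin.last m
        · rw [if_pos hl, if_pos ((hJ α hα).2 hl)]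
        · rw [if_neg hl]
          exact Nat.zero_le _
    calc PP.natDegree ≤ ∑ α : Mon (m + 1) ((m + 1) * (d - 2)),
          (if ∀ j : Fin m, α.1 j.castSucc ≤ d - 2 then 1 else 0) :=
          (Polynomial.natDegree_prod_le _ _).trans (Finset.sum_le_sum fun α _ => hfac α)
      _ = (Finset.univ.filter fun α : Mon (m + 1) ((m + 1) * (d - 2)) =>
          ∀ j : Fin m, α.1 j.castSucc ≤ d - 2).card := by
          rw [Finset.card_filter]
      _ ≤ (d - 1) ^ m := card_small (by omega) _
  have h4 := Polynomial.natDegree_le_of_dvd h3 hPP0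
  rw [Polynomial.natDegree_X_pow] at h4
  have h5 : 0 < (d - 1) ^ m := pow_pos (by omega) m
  omega

/-- **The discriminant exponent is one.** -/
theorem powerExtends (hm : 1 ≤ m) (hd : 3 ≤ d) (Δ : MvPolynomial (Mon (m + 1) d) ℂ)
    (hΔ : IsDiscriminant Δ) : PowerExtends Δ 1 := by
  classical
  have hle : d - 1 ≤ (m + 1) * (d - 2) := by
    have h1 : 2 * (d - 2) ≤ (m + 1) * (d - 2) := Nat.mul_le_mul_right _ (by omega)
    omega
  obtain ⟨a, ha'⟩ := Nat.exists_eq_add_of_le hle
  have ha : a + (d - 1) = (m + 1) * (d - 2) := by omega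
  let e0 : Fin (m + 1) →₀ ℕ := Finsupp.equivFunOnFinite.symm (fun _ : Fin (m + 1) => d - 2)
  have he0 : e0.degree = (m + 1) * (d - 2) := by
    rw [Finsupp.degree_eq_sum]
    simp [e0]
  let α0 : Mon (m + 1) ((m + 1) * (d - 2)) := ⟨e0, mem_mon _ he0⟩
  obtain ⟨J0, hJ0⟩ := exists_not_sq_dvd hd Δ (fun c hc => (hΔ.2 c).mpr hc) a ha α0 rfl
  have hne : Nonempty (Mon (m + 1) a) := ⟨⟨Finsupp.single 0 a, mem_mon _ (by simp)⟩⟩
  exact powerExtends_one (by omega) Δ fun x =>
    exists_extension (by omega) (by omega) ha α0 Δ hΔ J0 hJ0 x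

end Q51.DiscDiag
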