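import Mathlib
import Pool.Agent.Q51.DiscMain

set_option autoImplicit false

/-!
The ideal of the polynomials vanishing on the degenerate forms is prime.
-/

namespace Q51.DiscDiag

open MvPolynomial Matrix
open Pool.Agent.Helper56 Pool.Agent.Helper56.Disc

section lsub

variable {R : Type*} [CommRing R] {n : ℕ}

/-- linear substitution -/
noncomputable def lsub (M : Matrix (Fin n) (Fin n) R) :
    MvPolynomial (Fin n) R →ₐ[R] MvPolynomial (Fin n) R :=
  aeval fun i => ∑ j, C (M i j) * X j

lemma lsub_isHomogeneous (M : Matrix (Fin n) (Fin n) R) {d : ℕ} {f : MvPolynomial (Fin n) R}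
    (hf : f.IsHomogeneous d) : (lsub M f).IsHomogeneous d := by
  have h := hf.aeval (fun i => ∑ j, C (M i j) * X j) (n := 1) (fun i => by
    refine IsHomogeneous.sum _ _ _ fun j _ => ?_
    have h1 := (isHomogeneous_C (Fin n) (M i j)).mul (isHomogeneous_X R j)
    simpa using h1)
  rw [one_mul] at h
  exact h

lemma map_lsub {S : Type*} [CommRing S] (φ : R →+* S) (M : Matrix (Fin n) (Fin n) R)
    (f : MvPolynomial (Fin n) R) :
    MvPolynomial.map φ (lsub M f) = lsub (M.map φ) (MvPolynomial.map φ f) := by
  unfold lsub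
  induction f using MvPolynomial.induction_on with
  | C a => simp
  | add p q hp hq => rw [map_add, map_add, hp, hq, map_add, map_add]
  | mul_X p k hp =>
    rw [map_mul, map_mul, hp, map_mul, map_mul, aeval_X, MvPolynomial.map_X, aeval_X, map_sum]
    simp

lemma eval_lsub (M : Matrix (Fin n) (Fin n) R) (f : MvPolynomial (Fin n) R) (z : Fin n → R) :
    eval z (lsub M f) = eval (M *ᵥ z) f := by
  unfold lsub
  induction f using MvPolynomial.induction_on with
  | C a => simp
  | add p q hp hq => rw [map_add, map_add, hp, hq, map_add]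
  | mul_X p k hp =>
    rw [map_mul, map_mul, hp, map_mul, aeval_X, eval_X, map_sum]
    simp [Matrix.mulVec, dotProduct]

lemma eval_pderiv_lsub (M : Matrix (Fin n) (Fin n) R) (f : MvPolynomial (Fin n) R)
    (z : Fin n → R) (j : Fin n) :
    eval z (pderiv j (lsub M f)) = ∑ i, M i j * eval (M *ᵥ z) (pderiv i f) := by
  classical
  induction f using MvPolynomial.induction_on with
  | C a => simp [lsub]
  | add p q hp hq =>
    rw [map_add, map_add, map_add, hp, hq, ← Finset.sum_add_distrib]
    refine Finset.sum_congr rfl fun i _ => ?_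
    rw [map_add, map_add, mul_add]
  | mul_X p k hp =>
    rw [map_mul, pderiv_mul, map_add, map_mul, map_mul, hp, eval_lsub, eval_lsub, eval_X]
    have h1 : eval z (pderiv j (lsub M (X k))) = M k j := by
      unfold lsub
      rw [aeval_X, map_sum, map_sum, Finset.sum_eq_single j]
      · simp
      · intro i _ hi
        rw [pderiv_C_mul, pderiv_X_of_ne hi]
        simp
      · simp
    have h2 : ∀ i, M i j * eval (M *ᵥ z) (pderiv i (p * X k)) =
        M i j * eval (M *ᵥ z) (pderiv i p) * (M *ᵥ z) k +
          (if i = k then eval (M *ᵥ z) p * M k j else 0) := by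
      intro i
      rw [pderiv_mul, map_add, map_mul, map_mul, eval_X]
      by_cases hik : i = k
      · subst hik
        simp; ring
      · rw [pderiv_X_of_ne (Ne.symm hik)]
        simp [hik]; ring
    rw [h1]
    simp_rw [h2]
    rw [Finset.sum_add_distrib, ← Finset.sum_mul]
    simp

end lsub

variable {m d : ℕ}

/-- parameter ring: matrix entries and coefficients -/
abbrev PP (m d : ℕ) : Type :=
  MvPolynomial ((Fin (m + 1) × Fin (m + 1)) ⊕ Mon (m + 1) d) ℂ

/-- the coefficient vectors singular at the last coordinate point -/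
noncomputable def singAtLast {R : Type*} [CommRing R] (h : Mon (m + 1) d → R) :
    Mon (m + 1) d → R :=
  fun α => if α.1 (Fin.last m) + 2 ≤ d then h α else 0

lemma eval_single_monomial_eq_zero (γ : Fin (m + 1) →₀ ℕ) (b w : ℂ) (k : Fin (m + 1))
    (hk : k ≠ Fin.last m) (h : γ k ≠ 0) :
    eval (Pi.single (Fin.last m) w) (monomial γ b) = 0 := by
  classical
  rw [eval_monomial, Finsupp.prod_fintype _ _ (by simp), Finset.prod_eq_zero (Finset.mem_univ k),
    mul_zero]
  rw [Pi.single_eq_of_ne hk, zero_pow h]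

lemma exists_index (β : Fin (m + 1) →₀ ℕ) (i : Fin (m + 1)) (hβi : β i ≠ 0) (e : ℕ)
    (hdeg : β.degree = e + 1) (hne : β ≠ Finsupp.single (Fin.last m) e + Finsupp.single i 1) :
    ∃ k, k ≠ Fin.last m ∧ (β - Finsupp.single i 1 : Fin (m + 1) →₀ ℕ) k ≠ 0 := by
  classical
  by_contra hall
  push Not at hall
  apply hne
  obtain ⟨γ, hγ⟩ : ∃ γ : Fin (m + 1) →₀ ℕ, γ = β - Finsupp.single i 1 := ⟨_, rfl⟩
  rw [← hγ] at hall
  have h3 : γ + Finsupp.single i 1 = β := by
    rw [hγ]
    apply tsub_add_cancel_of_le
    intro k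
    by_cases hk : i = k
    · subst hk
      simp only [Finsupp.single_eq_same]
      omega
    · simp [Finsupp.single_eq_of_ne' hk]
  have h4 : γ = Finsupp.single (Fin.last m) (γ (Fin.last m)) := by
    ext k
    by_cases hk : k = Fin.last m
    · subst hk; simp
    · rw [hall k hk, Finsupp.single_eq_of_ne hk]
  rw [← h3, map_add, Finsupp.degree_single, h4, Finsupp.degree_single] at hdeg
  have h5 : γ (Fin.last m) = e := by
    have : (Finsupp.single (Fin.last m) (γ (Fin.last m)) : Fin (m + 1) →₀ ℕ) (Fin.last m) =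
        γ (Fin.last m) := Finsupp.single_eq_same
    omega
  rw [← h3]
  conv_lhs => rw [h4, h5]

lemma eval_pderiv_singAtLast (hd : 2 ≤ d) (h : Mon (m + 1) d → ℂ) (i : Fin (m + 1)) (w : ℂ) :
    eval (Pi.single (Fin.last m) w) (pderiv i (form (singAtLast h))) = 0 := by
  classical
  unfold form
  rw [map_sum, map_sum]
  refine Finset.sum_eq_zero fun α _ => ?_
  unfold singAtLast
  split_ifs with hα
  · rw [pderiv_monomial]
    by_cases hαi : α.1 i = 0
    · rw [hαi]; simp
    have hdeg := mon_degree α
    obtain ⟨k, hk, hk0⟩ := exists_index α.1 i hαi (d - 1) (by omega) (by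
      intro h
      have h1 : α.1 (Fin.last m) = (Finsupp.single (Fin.last m) (d - 1) +
        Finsupp.single i 1 : Fin (m + 1) →₀ ℕ) (Fin.last m) := by rw [← h]
      rw [Finsupp.add_apply, Finsupp.single_eq_same] at h1
      omega)
    exact eval_single_monomial_eq_zero _ _ _ k hk hk0
  · simp

/-- the generic degenerate form -/
noncomputable def genF (m d : ℕ) : MvPolynomial (Fin (m + 1)) (PP m d) :=
  lsub (Matrix.of fun i j => X (Sum.inl (i, j))) (form (singAtLast fun α => X (Sum.inr α)))

lemma genF_isHomogeneous : (genF m d).IsHomogeneous d :=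
  lsub_isHomogeneous _ (form_isHomogeneous _)

/-- its coefficient vector -/
noncomputable def genc (m d : ℕ) : Mon (m + 1) d → PP m d := cv (genF m d)

lemma form_genc : form (genc m d) = genF m d := form_cv _ genF_isHomogeneous

lemma map_genF (s : (Fin (m + 1) × Fin (m + 1)) ⊕ Mon (m + 1) d → ℂ) :
    MvPolynomial.map (eval s) (genF m d) =
      lsub (Matrix.of fun i j => s (Sum.inl (i, j))) (form (singAtLast fun α => s (Sum.inr α))) := by
  have hM : (Matrix.of fun i j => (X (Sum.inl (i, j)) : PP m d)).map (eval s) =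
      Matrix.of fun i j => s (Sum.inl (i, j)) := by
    ext i j
    rw [Matrix.map_apply, Matrix.of_apply, Matrix.of_apply, eval_X]
  have hh : (fun γ => eval s (singAtLast (fun α : Mon (m + 1) d => (X (Sum.inr α) : PP m d)) γ)) =
      singAtLast fun α => s (Sum.inr α) := by
    funext α
    unfold singAtLast
    split_ifs
    · rw [eval_X]
    · rw [map_zero]
  unfold genF
  rw [map_lsub, map_form, hM, hh]

lemma lsub_degenerate (hd : 2 ≤ d) (M : Matrix (Fin (m + 1)) (Fin (m + 1)) ℂ)
    (h : Mon (m + 1) d → ℂ) : ¬ Disc.Nondegenerate (lsub M (form (singAtLast h))) := by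
  classical
  intro hnd
  by_cases hdet : M.det = 0
  · obtain ⟨v, hv, hMv⟩ := Matrix.exists_mulVec_eq_zero_iff.mpr hdet
    apply hv
    apply hnd
    intro j
    rw [eval_pderiv_lsub, hMv]
    refine Finset.sum_eq_zero fun i _ => ?_
    have h2 := eval_pderiv_singAtLast hd h i 0
    rw [Pi.single_zero] at h2
    rw [h2, mul_zero]
  · have hunit : IsUnit M.det := isUnit_iff_ne_zero.mpr hdet
    have hMz : M *ᵥ (M⁻¹ *ᵥ (Pi.single (Fin.last m) 1)) = Pi.single (Fin.last m) (1 : ℂ) := by
      rw [Matrix.mulVec_mulVec, Matrix.mul_nonsing_inv _ hunit, Matrix.one_mulVec]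
    have h3 := hnd (M⁻¹ *ᵥ (Pi.single (Fin.last m) 1)) (fun j => by
      rw [eval_pderiv_lsub, hMz]
      refine Finset.sum_eq_zero fun i _ => ?_
      rw [eval_pderiv_singAtLast hd h i 1, mul_zero])
    rw [h3, Matrix.mulVec_zero] at hMz
    have h4 := congrFun hMz (Fin.last m)
    simp at h4

lemma specialised_degenerate (hd : 2 ≤ d)
    (s : (Fin (m + 1) × Fin (m + 1)) ⊕ Mon (m + 1) d → ℂ) :
    ¬ Disc.Nondegenerate (form fun α => eval s (genc m d α)) := by
  have h1 : form (fun α => eval s (genc m d α)) = MvPolynomial.map (eval s) (genF m d) := by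
    rw [← form_genc, map_form]
  rw [h1, map_genF]
  exact lsub_degenerate hd _ _

lemma exists_equiv_last (p : Fin (m + 1) → ℂ) (hp : p ≠ 0) :
    ∃ M N : Matrix (Fin (m + 1)) (Fin (m + 1)) ℂ, M * N = 1 ∧
      M *ᵥ (Pi.single (Fin.last m) 1) = p := by
  classical
  have he : (Pi.single (Fin.last m) 1 : Fin (m + 1) → ℂ) ≠ 0 := by
    intro h
    have := congrFun h (Fin.last m)
    simp at this
  let f := (LinearEquiv.toSpanNonzeroSingleton ℂ (Fin (m + 1) → ℂ) _ he).symm.trans
    (LinearEquiv.toSpanNonzeroSingleton ℂ (Fin (m + 1) → ℂ) p hp)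
  obtain ⟨g, hg⟩ := Submodule.exists_linearEquiv_restrict_eq f
  have hge : g (Pi.single (Fin.last m) 1) = p := by
    have h1 := hg ⟨Pi.single (Fin.last m) 1, Submodule.mem_span_singleton_self _⟩
    change _ = g (Pi.single (Fin.last m) 1) at h1
    rw [← h1]
    simp only [f, LinearEquiv.trans_apply]
    have h2 : (LinearEquiv.toSpanNonzeroSingleton ℂ (Fin (m + 1) → ℂ) _ he).symm
        ⟨Pi.single (Fin.last m) 1, Submodule.mem_span_singleton_self _⟩ = 1 := by
      rw [LinearEquiv.symm_apply_eq]
      ext1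
      simp
    rw [h2]
    simp
  refine ⟨LinearMap.toMatrix' g.toLinearMap, LinearMap.toMatrix' g.symm.toLinearMap, ?_, ?_⟩
  · rw [← LinearMap.toMatrix'_comp]
    have : g.toLinearMap.comp g.symm.toLinearMap = LinearMap.id := by
      ext1 x
      simp
    rw [this, LinearMap.toMatrix'_id]
  · rw [LinearMap.toMatrix'_mulVec]
    exact hge

/-- a form singular at the last coordinate point has no monomials of large last exponent -/
lemma singAtLast_of_singular (hd : 2 ≤ d) (c : Mon (m + 1) d → ℂ)
    (hc : ∀ i, eval (Pi.single (Fin.last m) 1) (pderiv i (form c)) = 0) :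
    singAtLast c = c := by
  classical
  funext α
  unfold singAtLast
  split_ifs with hα
  · rfl
  -- the exponent is `(d-1) e_last + e_i`
  have hdeg := mon_degree α
  rw [Finsupp.degree_eq_sum, Fin.sum_univ_castSucc] at hdeg
  have hex : ∃ i : Fin (m + 1), α.1 = Finsupp.single (Fin.last m) (d - 1) + Finsupp.single i 1 := by
    by_cases hl : α.1 (Fin.last m) = d
    · refine ⟨Fin.last m, ?_⟩
      have h0 : ∀ j : Fin m, α.1 j.castSucc = 0 := by
        have : ∑ j : Fin m, α.1 j.castSucc = 0 := by omega
        rw [Finset.sum_eq_zero_iff] at this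
        exact fun j => this j (Finset.mem_univ j)
      ext k
      induction k using Fin.lastCases with
      | last => simp [hl]; omega
      | cast j => simp [h0 j, Finsupp.single_eq_of_ne (Fin.castSucc_ne_last j)]
    · have h1 : ∑ j : Fin m, α.1 j.castSucc = 1 := by
        have : 0 ≤ ∑ j : Fin m, α.1 j.castSucc := Nat.zero_le _
        omega
      have hne : ∃ j : Fin m, α.1 j.castSucc ≠ 0 := by
        by_contra hall
        push Not at hall
        rw [Finset.sum_eq_zero fun j _ => hall j] at h1
        omega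
      obtain ⟨j, hj⟩ := hne
      refine ⟨j.castSucc, ?_⟩
      have h2 : α.1 j.castSucc = 1 ∧ ∀ k : Fin m, k ≠ j → α.1 k.castSucc = 0 := by
        rw [← Finset.add_sum_erase _ _ (Finset.mem_univ j)] at h1
        have h3 : ∑ k ∈ Finset.univ.erase j, α.1 k.castSucc = 0 := by omega
        rw [Finset.sum_eq_zero_iff] at h3
        exact ⟨by omega, fun k hk => h3 k (Finset.mem_erase.mpr ⟨hk, Finset.mem_univ k⟩)⟩
      ext k
      induction k using Fin.lastCases with
      | last =>
        simp [Finsupp.single_eq_of_ne (Fin.castSucc_ne_last j).symm]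
        omega
      | cast k =>
        by_cases hk : k = j
        · subst hk
          simp [h2.1, Finsupp.single_eq_of_ne (Fin.castSucc_ne_last k)]
        · have hne : k.castSucc ≠ j.castSucc := fun h => hk (Fin.castSucc_injective m h)
          simp [h2.2 k hk, Finsupp.single_eq_of_ne (Fin.castSucc_ne_last k),
            Finsupp.single_eq_of_ne hne]
  obtain ⟨i, hi⟩ := hex
  -- extract the coefficient
  have h1 := hc i
  unfold form at h1
  rw [map_sum, map_sum, Finset.sum_eq_single α] at h1
  · rw [pderiv_monomial, eval_monomial, Finsupp.prod_fintype _ _ (by simp)] at h1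
    have h2 : (α.1 - Finsupp.single i 1 : Fin (m + 1) →₀ ℕ) =
        Finsupp.single (Fin.last m) (d - 1) := by
      rw [hi, add_tsub_cancel_right]
    have h3 : ∏ k : Fin (m + 1), (Pi.single (Fin.last m) (1 : ℂ) : Fin (m + 1) → ℂ) k ^
        (α.1 - Finsupp.single i 1 : Fin (m + 1) →₀ ℕ) k = 1 := by
      rw [h2]
      refine Finset.prod_eq_one fun k _ => ?_
      by_cases hk : k = Fin.last m
      · subst hk; simp
      · rw [Finsupp.single_eq_of_ne hk, pow_zero]
    rw [h3, mul_one] at h1
    have h4 : (α.1 i : ℂ) ≠ 0 := by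
      rw [Nat.cast_ne_zero, hi]
      simp
    rcases mul_eq_zero.mp h1 with h5 | h5
    · exact h5.symm
    · exact absurd h5 h4
  · intro β _ hβ
    rw [pderiv_monomial]
    by_cases hβi : β.1 i = 0
    · rw [hβi]; simp
    obtain ⟨k, hk, hk0⟩ := exists_index β.1 i hβi (d - 1) (by
      have := mon_degree β
      omega) (fun h => hβ (Subtype.ext (h.trans hi.symm)))
    exact eval_single_monomial_eq_zero _ _ _ k hk hk0
  · simp

/-- every degenerate form is a specialisation of the generic one -/
lemma exists_specialisation (hd : 2 ≤ d) (c : Mon (m + 1) d → ℂ)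
    (hc : ¬ Disc.Nondegenerate (form c)) :
    ∃ s : (Fin (m + 1) × Fin (m + 1)) ⊕ Mon (m + 1) d → ℂ, (fun α => eval s (genc m d α)) = c := by
  classical
  unfold Disc.Nondegenerate at hc
  push Not at hc
  obtain ⟨p, hp, hp0⟩ := hc
  obtain ⟨M, N, hMN, hMp⟩ := exists_equiv_last p hp0
  let g : MvPolynomial (Fin (m + 1)) ℂ := lsub M (form c)
  have hg : g.IsHomogeneous d := lsub_isHomogeneous _ (form_isHomogeneous c)
  have hgs : singAtLast (cv g : Mon (m + 1) d → ℂ) = cv g := by
    apply singAtLast_of_singular hd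
    intro i
    rw [form_cv g hg, eval_pderiv_lsub, hMp]
    refine Finset.sum_eq_zero fun k _ => ?_
    rw [hp, mul_zero]
  refine ⟨Sum.elim (fun ij => N ij.1 ij.2) (cv g), ?_⟩
  have h1 : form (fun α => eval (Sum.elim (fun ij => N ij.1 ij.2) (cv g)) (genc m d α)) =
      form c := by
    rw [← map_form, form_genc, map_genF]
    simp only [Sum.elim_inl, Sum.elim_inr]
    rw [hgs, form_cv g hg]
    apply MvPolynomial.funext
    intro z
    rw [eval_lsub, eval_lsub]
    have h2 : (Matrix.of fun i j => N i j) = N := rfl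
    rw [h2, Matrix.mulVec_mulVec, hMN, Matrix.one_mulVec]
  have h3 := congrArg (cv (e := d)) h1
  rw [cv_form, cv_form] at h3
  exact h3

/-- A product of polynomials vanishes on the degenerate forms only if one factor does. -/
theorem vanishing_prime (hd : 2 ≤ d) (P Q : MvPolynomial (Mon (m + 1) d) ℂ)
    (h : ∀ c : Mon (m + 1) d → ℂ, ¬ Disc.Nondegenerate (form c) → eval c (P * Q) = 0) :
    (∀ c : Mon (m + 1) d → ℂ, ¬ Disc.Nondegenerate (form c) → eval c P = 0) ∨
      ∀ c : Mon (m + 1) d → ℂ, ¬ Disc.Nondegenerate (form c) → eval c Q = 0 := by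
  have key : ∀ P : MvPolynomial (Mon (m + 1) d) ℂ,
      (∀ c : Mon (m + 1) d → ℂ, ¬ Disc.Nondegenerate (form c) → eval c P = 0) ↔
        aeval (genc m d) P = 0 := by
    intro P
    have hev : ∀ s : (Fin (m + 1) × Fin (m + 1)) ⊕ Mon (m + 1) d → ℂ,
        eval s (aeval (genc m d) P) = eval (fun α => eval s (genc m d α)) P := by
      intro s
      rw [ringHom_aeval (eval s) (by ext a; simp), aeval_eq_eval]
    constructor
    · intro hP
      apply MvPolynomial.funext
      intro s
      rw [hev, map_zero]
      exact hP _ (specialised_degenerate hd s)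
    · intro hP c hc
      obtain ⟨s, hs⟩ := exists_specialisation hd c hc
      rw [← hs, ← hev, hP, map_zero]
  rw [key, map_mul, mul_eq_zero] at h
  rw [key, key]
  exact h

end Q51.DiscDiag
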