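import Mathlib
import Pool.Agent.Q51.DiscPrime

set_option autoImplicit false

/-!
Existence of the discriminant, and the discriminant exponent is not zero.
-/

namespace Q51.DiscDiag

open MvPolynomial Matrix
open Pool.Agent.Helper56 Pool.Agent.Helper56.Disc

variable {m d : ℕ}

/-- the minors vanish at degenerate forms -/
lemma eval_MM_degenerate (hd : 2 ≤ d) {n a : ℕ} (α0 : Mon n (n * (d - 2)))
    (h : a + (d - 1) = n * (d - 2))
    (J : Mon n (n * (d - 2)) → Fin n × Mon n a) (c : Mon n d → ℂ)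
    (hc : ¬ Disc.Nondegenerate (form c)) : eval c (MM α0 J) = 0 := by
  classical
  unfold Disc.Nondegenerate at hc
  push Not at hc
  obtain ⟨z, hz, hz0⟩ := hc
  rw [eval_MM]
  unfold Lam
  -- evaluation at `z`
  let ev : (Mon n (n * (d - 2)) → ℂ) →ₗ[ℂ] ℂ :=
    { toFun := fun x => eval z (form x)
      map_add' := fun x y => by rw [form_add, map_add]
      map_smul' := fun b x => by rw [form_smul, map_mul, eval_C]; rfl }
  have hne : LinearMap.ker ev ≠ ⊤ := by
    obtain ⟨j, hj⟩ : ∃ j, z j ≠ 0 := by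
      by_contra hall
      push Not at hall
      exact hz0 (funext hall)
    intro htop
    let γ : Mon n (n * (d - 2)) := ⟨Finsupp.single j (n * (d - 2)), mem_mon _ (Finsupp.degree_single _ _)⟩
    have h1 : Pi.single γ (1 : ℂ) ∈ LinearMap.ker ev := by rw [htop]; trivial
    have h2 : eval z (form (Pi.single γ (1 : ℂ))) = 0 := h1
    have h3 : form (Pi.single γ (1 : ℂ)) = monomial γ.1 1 := by
      unfold form
      rw [Finset.sum_eq_single γ]
      · rw [Pi.single_eq_same]
      · intro β _ hβ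
        rw [Pi.single_eq_of_ne hβ, map_zero]
      · simp
    rw [h3, eval_monomial, one_mul, Finsupp.prod_single_index (by simp)] at h2
    exact pow_ne_zero _ hj h2
  apply det_eq_zero_of_mem (LinearMap.ker ev) hne
  intro α
  by_cases hα : α = α0
  · subst hα
    rw [updateRow_self]
    change eval z (form (hv c)) = 0
    rw [form_hv]
    unfold hess
    rw [RingHom.map_det]
    refine Matrix.exists_mulVec_eq_zero_iff.mp ⟨z, hz0, ?_⟩
    funext i
    have h1 := ((form_isHomogeneous c).pderiv (i := i)).sum_X_mul_pderiv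
    have h2 := congrArg (eval z) h1
    rw [map_sum, map_nsmul, hz i, smul_zero] at h2
    rw [Matrix.mulVec, dotProduct, Pi.zero_apply, ← h2]
    refine Finset.sum_congr rfl fun j _ => ?_
    rw [map_mul, eval_X, mul_comm]
    rfl
  · rw [updateRow_ne hα]
    change eval z (form (Disc.row c (J α))) = 0
    unfold Disc.row
    rw [form_cv, map_mul, hz, mul_zero]
    rw [← h]
    exact (isHomogeneous_monomial _ (mon_degree (J α).2)).mul (form_isHomogeneous c).pderiv

/-- the weights at a value of the parameter -/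
noncomputable def wv (m : ℕ) (t : ℂ) : Fin (m + 1) → ℂ := Fin.snoc (fun _ => 1) t

lemma wv_last (t : ℂ) : wv m t (Fin.last m) = t := Fin.snoc_last _ _
lemma wv_castSucc (t : ℂ) (j : Fin m) : wv m t j.castSucc = 1 := Fin.snoc_castSucc _ _ _

lemma nondegenerate_wv (hd : 2 ≤ d) (t : ℂ) (ht : t ≠ 0) :
    Disc.Nondegenerate (form (dcv d (wv m t))) := by
  intro z hz
  funext i
  have h1 := hz i
  rw [form_dcv, pderiv_dform, map_mul, eval_C, map_pow, eval_X] at h1
  have h2 : wv m t i * d ≠ 0 := by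
    refine mul_ne_zero ?_ ?_
    · induction i using Fin.lastCases with
      | last => rw [wv_last]; exact ht
      | cast j => rw [wv_castSucc]; exact one_ne_zero
    · rw [Nat.cast_ne_zero]; omega
  rcases mul_eq_zero.mp h1 with h3 | h3
  · exact absurd h3 h2
  · exact pow_eq_zero_iff (by omega) |>.mp h3

lemma eval_aeval_wt (t : ℂ) (T : MvPolynomial (Mon (m + 1) d) ℂ) :
    (aeval (dcv d (wt m)) T).eval t = eval (dcv d (wv m t)) T := by
  have h1 := ringHom_aeval (Polynomial.evalRingHom t) (by ext a; simp) (dcv d (wt m)) T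
  rw [aeval_eq_eval] at h1
  rw [Polynomial.coe_evalRingHom] at h1
  rw [h1]
  congr 2
  have h2 : form (fun i => Polynomial.eval t (dcv d (wt m) i)) = dform d (wv m t) := by
    have h3 := map_form (Polynomial.evalRingHom t) (dcv d (wt m))
    rw [Polynomial.coe_evalRingHom] at h3
    rw [← h3, form_dcv]
    unfold dform
    rw [map_sum]
    refine Finset.sum_congr rfl fun i _ => ?_
    rw [map_mul, map_C, map_pow, MvPolynomial.map_X]
    congr 2
    induction i using Fin.lastCases with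
    | last => rw [wt_last, wv_last]; simp
    | cast j => rw [wt_castSucc, wv_castSucc]; simp
  unfold dcv
  rw [← h2]
  exact (cv_form _).symm

/-- The scalar attached to the monomial `(z_0 ... z_m)^(d-2)` is not given by a polynomial. -/
theorem no_polynomial (hd : 3 ≤ d)
    (α0 : Mon (m + 1) ((m + 1) * (d - 2)))
    (hα0 : α0.1 = Finsupp.equivFunOnFinite.symm (fun _ : Fin (m + 1) => d - 2))
    (T : MvPolynomial (Mon (m + 1) d) ℂ)
    (hT : ∀ c : Mon (m + 1) d → ℂ, Disc.Nondegenerate (form c) → ∀ v : ℂ,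
      form (Pi.single α0 (1 : ℂ)) - C v * hess (form c) ∈ jacIdeal (form c) → eval c T = v) :
    False := by
  classical
  set κ : ℂ := ((d : ℂ) * (d - 1 : ℕ)) ^ (m + 1) with hκ
  have hκ0 : κ ≠ 0 := by
    refine pow_ne_zero _ (mul_ne_zero ?_ ?_) <;> rw [Nat.cast_ne_zero] <;> omega
  have h1 : ∀ t : ℂ, t ≠ 0 → eval (dcv d (wv m t)) T * (κ * t) = 1 := by
    intro t ht
    rw [hT _ (nondegenerate_wv (by omega) t ht) (κ * t)⁻¹, inv_mul_cancel₀ (mul_ne_zero hκ0 ht)]
    have h2 : form (Pi.single α0 (1 : ℂ)) = monomial α0.1 1 := by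
      unfold form
      rw [Finset.sum_eq_single α0]
      · rw [Pi.single_eq_same]
      · intro β _ hβ
        rw [Pi.single_eq_of_ne hβ, map_zero]
      · simp
    have h3 : ∏ i, (wv m t i * d * (d - 1 : ℕ)) = κ * t := by
      simp_rw [mul_assoc]
      rw [Finset.prod_mul_distrib, Fin.prod_univ_castSucc]
      simp only [wv_castSucc, wv_last, Finset.prod_const_one, one_mul, Finset.prod_const,
        Finset.card_univ, Fintype.card_fin]
      rw [mul_comm]
    rw [h2, form_dcv, hess_dform, prod_hess, h3, C_mul_monomial,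
      inv_mul_cancel₀ (mul_ne_zero hκ0 ht), hα0, sub_self]
    exact Ideal.zero_mem _
  have h4 : aeval (dcv d (wt m)) T * (Polynomial.C κ * Polynomial.X) - 1 = 0 := by
    refine Polynomial.eq_zero_of_infinite_isRoot _ ?_
    refine Set.Infinite.mono (s := {t : ℂ | t ≠ 0}) ?_ ?_
    · intro t ht
      change Polynomial.eval t _ = 0
      rw [Polynomial.eval_sub, Polynomial.eval_mul, eval_aeval_wt, Polynomial.eval_mul,
        Polynomial.eval_C, Polynomial.eval_X, Polynomial.eval_one, h1 t ht, sub_self]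
    · exact (Set.finite_singleton (0 : ℂ)).infinite_compl
  have h5 := congrArg (Polynomial.eval 0) h4
  simp at h5

/-- **Existence of the discriminant.** -/
theorem exists_isDiscriminant (hm : 1 ≤ m) (hd : 3 ≤ d) :
    ∃ Δ : MvPolynomial (Mon (m + 1) d) ℂ, IsDiscriminant Δ := by
  classical
  have hle : d - 1 ≤ (m + 1) * (d - 2) := by
    have h1 : 2 * (d - 2) ≤ (m + 1) * (d - 2) := Nat.mul_le_mul_right _ (by omega)
    omega
  obtain ⟨a, ha'⟩ := Nat.exists_eq_add_of_le hle
  have ha : a + (d - 1) = (m + 1) * (d - 2) := by omega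
  let e0 : Fin (m + 1) →₀ ℕ := Finsupp.equivFunOnFinite.symm (fun _ : Fin (m + 1) => d - 2)
  have he0 : e0.degree = (m + 1) * (d - 2) := by
    rw [Finsupp.degree_eq_sum]
    simp [e0]
  let α0 : Mon (m + 1) ((m + 1) * (d - 2)) := ⟨e0, mem_mon _ he0⟩
  have hne : Nonempty (Fin (m + 1) × Mon (m + 1) a) :=
    ⟨(0, ⟨Finsupp.single 0 a, mem_mon _ (by simp)⟩)⟩
  have hJex : ∀ c : Mon (m + 1) d → ℂ, Disc.Nondegenerate (form c) →
      ∃ J : Mon (m + 1) ((m + 1) * (d - 2)) → Fin (m + 1) × Mon (m + 1) a,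
        eval c (MM α0 J) ≠ 0 := by
    intro c hc
    obtain ⟨J, hJ⟩ := exists_det_ne_zero (fun κ : Fin (m + 1) × Mon (m + 1) a =>
      (Disc.row c κ : Mon (m + 1) ((m + 1) * (d - 2)) → ℂ)) (hv c) α0
      (hv_notMem (by omega) ha c hc) (mem_sup (by omega) ha c hc)
    refine ⟨J, ?_⟩
    rw [eval_MM]
    exact hJ
  obtain ⟨J1, hJ1⟩ := hJex _ (nondegenerate_wv (m := m) (d := d) (by omega) 1 one_ne_zero)
  set M1 := MM α0 J1 with hM1
  have hM10 : M1 ≠ 0 := by
    intro h0
    apply hJ1
    rw [h0, map_zero]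
  set x0 : Mon (m + 1) ((m + 1) * (d - 2)) → ℂ := Pi.single α0 1 with hx0
  set L1 := LL α0 J1 x0 with hL1
  -- cross identity
  have hcross : ∀ J : Mon (m + 1) ((m + 1) * (d - 2)) → Fin (m + 1) × Mon (m + 1) a,
      MM α0 J * L1 = LL α0 J x0 * M1 := by
    intro J
    have h1 : M1 * (MM α0 J * L1 - LL α0 J x0 * M1) = 0 := by
      apply MvPolynomial.funext
      intro c
      rw [map_zero, map_mul]
      by_cases hc : Disc.Nondegenerate (form c)
      · obtain ⟨v, hv'⟩ := (socle_form (by omega) c hc).2 x0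
        rw [map_sub, map_mul, map_mul, hL1, hM1, eval_LL, eval_LL, eval_MM, eval_MM,
          Lam_eq (by omega) ha α0 J c hc x0 v hv', Lam_eq (by omega) ha α0 J1 c hc x0 v hv']
        ring
      · rw [hM1, eval_MM_degenerate (by omega) α0 ha J1 c hc, zero_mul]
    rcases mul_eq_zero.mp h1 with h2 | h2
    · exact absurd h2 hM10
    · exact sub_eq_zero.mp h2
  obtain ⟨Q, P, g, hrel, hQ, hP⟩ := UniqueFactorizationMonoid.exists_reduced_factors M1 hM10 L1
  have hg0 : g ≠ 0 := by
    rintro rfl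
    apply hM10
    rw [← hQ, zero_mul]
  have hcross2 : ∀ J : Mon (m + 1) ((m + 1) * (d - 2)) → Fin (m + 1) × Mon (m + 1) a,
      MM α0 J * P = LL α0 J x0 * Q := by
    intro J
    have h1 := hcross J
    rw [← hQ, ← hP] at h1
    apply mul_left_cancel₀ hg0
    linear_combination h1
  have hdvd : ∀ J : Mon (m + 1) ((m + 1) * (d - 2)) → Fin (m + 1) × Mon (m + 1) a,
      Q ∣ MM α0 J := by
    intro J
    have h1 : Q ∣ MM α0 J * P := by
      rw [hcross2 J]
      exact dvd_mul_left _ _
    exact hrel.dvd_of_dvd_mul_right h1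
  have hQu : ¬ IsUnit Q := by
    intro hu
    obtain ⟨Q', hQ'⟩ := hu.exists_right_inv
    refine no_polynomial hd α0 rfl (P * Q') ?_
    intro c hc v hv'
    obtain ⟨J, hJ⟩ := hJex c hc
    have h1 : MM α0 J * (P * Q') = LL α0 J x0 := by
      calc MM α0 J * (P * Q') = (MM α0 J * P) * Q' := by ring
        _ = LL α0 J x0 * (Q * Q') := by rw [hcross2]; ring
        _ = LL α0 J x0 := by rw [hQ', mul_one]
    have h2 := congrArg (eval c) h1
    rw [map_mul, eval_LL, Lam_eq (by omega) ha α0 J c hc x0 v hv', ← eval_MM, mul_comm v] at h2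
    exact mul_left_cancel₀ hJ h2
  have hQ0 : Q ≠ 0 := by
    rintro rfl
    apply hM10
    rw [← hQ, mul_zero]
  obtain ⟨Δ, hΔ, hΔQ⟩ := WfDvdMonoid.exists_irreducible_factor hQu hQ0
  have hΔM : ∀ J : Mon (m + 1) ((m + 1) * (d - 2)) → Fin (m + 1) × Mon (m + 1) a,
      Δ ∣ MM α0 J := fun J => hΔQ.trans (hdvd J)
  have hsub : ∀ c : Mon (m + 1) d → ℂ, eval c Δ = 0 → ¬ Disc.Nondegenerate (form c) := by
    intro c hc hnd
    obtain ⟨J, hJ⟩ := hJex c hnd
    apply hJ
    obtain ⟨R, hR⟩ := hΔM J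
    rw [hR, map_mul, hc, zero_mul]
  refine ⟨Δ, hΔ, fun c => ⟨hsub c, ?_⟩⟩
  -- `Δ` vanishes on the degenerate forms
  have hfin : FiniteMultiplicity Δ M1 := FiniteMultiplicity.of_not_isUnit hΔ.not_isUnit hM10
  obtain ⟨R, hR, hRΔ⟩ := hfin.exists_eq_pow_mul_and_not_dvd
  have hpow : ∀ k : ℕ, (∀ c : Mon (m + 1) d → ℂ, ¬ Disc.Nondegenerate (form c) →
      eval c (Δ ^ k * R) = 0) →
      (∀ c : Mon (m + 1) d → ℂ, ¬ Disc.Nondegenerate (form c) → eval c Δ = 0) ∨
      (∀ c : Mon (m + 1) d → ℂ, ¬ Disc.Nondegenerate (form c) → eval c R = 0) := by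
    intro k
    induction k with
    | zero => intro h; right; simpa using h
    | succ k ih =>
      intro h
      have h1 : Δ ^ (k + 1) * R = Δ * (Δ ^ k * R) := by ring
      rw [h1] at h
      rcases vanishing_prime (by omega) _ _ h with h2 | h2
      · exact Or.inl h2
      · exact ih h2
  have hM1van : ∀ c : Mon (m + 1) d → ℂ, ¬ Disc.Nondegenerate (form c) → eval c M1 = 0 :=
    fun c hc => eval_MM_degenerate (by omega) α0 ha J1 c hc
  rw [hR] at hM1van
  rcases hpow _ hM1van with h | h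
  · exact h c
  · exfalso
    apply hRΔ
    have h1 : R ∈ (Ideal.span {Δ}).radical := by
      rw [← vanishingIdeal_zeroLocus_eq_radical (K := ℂ), mem_vanishingIdeal_iff]
      intro x hx
      rw [zeroLocus_span] at hx
      have h2 := hx Δ (Set.mem_singleton _)
      rw [aeval_eq_eval] at h2 ⊢
      exact h x (hsub x h2)
    obtain ⟨k, hk⟩ := h1
    rw [Ideal.mem_span_singleton] at hk
    exact hΔ.prime.dvd_of_dvd_pow hk

end Q51.DiscDiag
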