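import Mathlib
import Pool.Agent.Q51.DiscExists

set_option autoImplicit false

/-!
The associated form itself does not extend to all forms.
-/

namespace Q51.DiscDiag

open MvPolynomial Matrix
open Pool.Agent.Helper56 Pool.Agent.Helper56.Disc

variable {n m d : ℕ}

lemma isAssociatedForm_of_coeffs (c : Mon n d → ℂ) (v : Mon n (n * (d - 2)) → ℂ)
    (hv' : ∀ γ, form (Pi.single γ (1 : ℂ)) - C (v γ) * hess (form c) ∈ jacIdeal (form c)) :
    IsAssociatedForm d (form c) (form (fun γ : Mon n (n * (d - 2)) =>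
      (Nat.multinomial Finset.univ γ.1 : ℂ) * v γ)) := by
  classical
  refine ⟨form_isHomogeneous _, fun x => ?_⟩
  rw [linform_pow]
  have e1 : form (fun γ : Mon n (n * (d - 2)) =>
      (Nat.multinomial Finset.univ γ.1 : ℂ) * ∏ i, x i ^ γ.1 i) =
      ∑ γ : Mon n (n * (d - 2)), C ((Nat.multinomial Finset.univ γ.1 : ℂ) *
        ∏ i, x i ^ γ.1 i) * form (Pi.single γ (1 : ℂ)) := by
    unfold form
    apply Finset.sum_congr rfl
    intro γ _
    rw [Finset.mul_sum, Finset.sum_eq_single γ]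
    · rw [Pi.single_eq_same, C_mul_monomial, mul_one]
    · intro β _ hβ
      rw [Pi.single_eq_of_ne hβ]
      simp
    · simp
  have e2 : eval x (form (fun γ : Mon n (n * (d - 2)) =>
      (Nat.multinomial Finset.univ γ.1 : ℂ) * v γ)) =
      ∑ γ : Mon n (n * (d - 2)), ((Nat.multinomial Finset.univ γ.1 : ℂ) *
        ∏ i, x i ^ γ.1 i) * v γ := by
    unfold form
    rw [map_sum]
    apply Finset.sum_congr rfl
    intro γ _
    rw [eval_monomial, Finsupp.prod_fintype _ _ (by simp)]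
    ring
  rw [e1, e2, map_sum, Finset.sum_mul, ← Finset.sum_sub_distrib]
  refine Ideal.sum_mem _ fun γ _ => ?_
  have := Ideal.mul_mem_left _ (C ((Nat.multinomial Finset.univ γ.1 : ℂ) *
        ∏ i, x i ^ γ.1 i)) (hv' γ)
  convert this using 1
  rw [map_mul (C) _ (v γ)]
  ring

/-- the exponent zero is impossible -/
theorem not_powerExtends_zero (hd : 3 ≤ d) (Δ : MvPolynomial (Mon (m + 1) d) ℂ) :
    ¬ PowerExtends Δ 0 := by
  classical
  rintro ⟨P, _, hP⟩
  let e0 : Fin (m + 1) →₀ ℕ := Finsupp.equivFunOnFinite.symm (fun _ : Fin (m + 1) => d - 2)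
  have he0 : e0.degree = (m + 1) * (d - 2) := by
    rw [Finsupp.degree_eq_sum]
    simp [e0]
  let α0 : Mon (m + 1) ((m + 1) * (d - 2)) := ⟨e0, mem_mon _ he0⟩
  have hmult : (Nat.multinomial Finset.univ α0.1 : ℂ) ≠ 0 := by
    rw [Nat.cast_ne_zero]
    exact (Nat.multinomial_pos _ _).ne'
  refine no_polynomial hd α0 rfl
    (C (Nat.multinomial Finset.univ α0.1 : ℂ)⁻¹ * coeff α0.1 P) ?_
  intro c hc v hv'
  obtain ⟨Φ, _, huniq, hΦ⟩ := hP c hc
  choose w hw using fun γ : Mon (m + 1) ((m + 1) * (d - 2)) =>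
    (socle_form (by omega) c hc).2 (Pi.single γ (1 : ℂ))
  have h1 := huniq _ (isAssociatedForm_of_coeffs c w hw)
  have h2 : w α0 = v := by
    by_contra hne
    have hne' : v - w α0 ≠ 0 := fun h => hne (sub_eq_zero.mp h).symm
    have h3 := Ideal.sub_mem _ (hw α0) hv'
    have h4 : C (v - w α0) * hess (form c) ∈ jacIdeal (form c) := by
      convert h3 using 1
      rw [map_sub]
      ring
    apply (socle_form (by omega) c hc).1
    have h5 := Ideal.mul_mem_left _ (C (v - w α0)⁻¹) h4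
    rwa [← mul_assoc, ← map_mul, inv_mul_cancel₀ hne', map_one, one_mul] at h5
  rw [pow_zero, map_one, one_mul] at hΦ
  have h6 := congrArg (coeff α0.1) hΦ
  rw [coeff_map, ← h1, coeff_form, h2] at h6
  rw [map_mul, eval_C, h6, ← mul_assoc, inv_mul_cancel₀ hmult, one_mul]

end Q51.DiscDiag
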