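import Mathlib

set_option autoImplicit false

/-!
Generic linear independence along polynomial curves in a vector space algebra.
-/

namespace Q51.GenEmb

open Polynomial

variable {K B : Type*} [Field K] [CommRing B] [Algebra K B]

/-- apply a linear functional to all coefficients -/
noncomputable def applyCoeff (l : B →ₗ[K] K) (c : B[X]) : K[X] :=
  c.sum (fun j a => Polynomial.monomial j (l a))

lemma applyCoeff_eval (l : B →ₗ[K] K) (c : B[X]) (t : K) :
    (applyCoeff l c).eval t = l (c.eval (algebraMap K B t)) := by
  unfold applyCoeff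
  rw [Polynomial.eval_eq_sum (p := c), Polynomial.sum, Polynomial.sum, Polynomial.eval_finsetSum,
    map_sum]
  refine Finset.sum_congr rfl fun j _ => ?_
  rw [Polynomial.eval_monomial, ← map_pow, mul_comm (c.coeff j), ← Algebra.smul_def, map_smul,
    smul_eq_mul, mul_comm]

/-- Linear independence at `t = 0` implies linear independence for all but finitely many `t`. -/
lemma eventually_linearIndependent {ι : Type*} [Finite ι] (c : ι → B[X])
    (h : LinearIndependent K (fun k => (c k).eval 0)) :
    ∀ᶠ t : K in Filter.cofinite,
      LinearIndependent K (fun k => (c k).eval (algebraMap K B t)) := by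
  classical
  cases nonempty_fintype ι
  -- a linear map sending the vectors to the standard basis
  obtain ⟨L, hL⟩ : ∃ L : B →ₗ[K] (ι → K), ∀ k, L ((c k).eval 0) = Pi.single k 1 := by
    let b := Module.Basis.extend h.linearIndepOn_id
    have hmem : ∀ k, (c k).eval 0 ∈ h.linearIndepOn_id.extend (Set.subset_univ _) := fun k =>
      h.linearIndepOn_id.subset_extend (Set.subset_univ _) ⟨k, rfl⟩
    refine ⟨b.constr K (fun v => if hv : ∃ k, (c k).eval 0 = v.1 then Pi.single hv.choose 1 else 0),
      fun k => ?_⟩
    have h1 : b ⟨_, hmem k⟩ = (c k).eval 0 := by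
      simp [b]
    rw [← h1, Module.Basis.constr_basis]
    have hk : ∃ k', (c k').eval 0 = (c k).eval 0 := ⟨k, rfl⟩
    simp only [hk, dif_pos]
    congr 1
    exact h.injective hk.choose_spec
  let M : Matrix ι ι K[X] := Matrix.of fun k l => applyCoeff ((LinearMap.proj l).comp L) (c k)
  have hdet : ∀ t : K, (M.det).eval t = (Matrix.of fun k l => L ((c k).eval (algebraMap K B t)) l).det := by
    intro t
    have := (Polynomial.evalRingHom t).map_det M
    rw [Polynomial.coe_evalRingHom] at this
    rw [this]
    congr 1
    ext k l
    simp only [RingHom.mapMatrix_apply, Matrix.map_apply, M, Matrix.of_apply,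
      Polynomial.coe_evalRingHom, applyCoeff_eval, LinearMap.comp_apply, LinearMap.proj_apply]
  have h0 : M.det ≠ 0 := by
    intro h0
    have h1 := hdet 0
    rw [h0, Polynomial.eval_zero, map_zero] at h1
    have h2 : (Matrix.of fun k l => L ((c k).eval 0) l) = (1 : Matrix ι ι K) := by
      ext k l
      rw [Matrix.of_apply, hL, Matrix.one_apply, Pi.single_apply]
      by_cases hkl : k = l
      · simp [hkl]
      · simp [hkl, Ne.symm hkl]
    rw [h2, Matrix.det_one] at h1
    exact zero_ne_one h1
  have hfin : {t : K | ¬ (M.det).eval t ≠ 0}.Finite := by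
    refine (Polynomial.finite_setOfPred_isRoot h0).subset ?_
    intro t ht
    simpa using ht
  rw [Filter.eventually_cofinite]
  refine hfin.subset ?_
  intro t ht
  simp only [Set.mem_ofPred_eq] at ht ⊢
  intro hne
  apply ht
  rw [hdet] at hne
  have h3 : IsUnit (Matrix.of fun k l => L ((c k).eval (algebraMap K B t)) l) := by
    rw [Matrix.isUnit_iff_isUnit_det]
    exact isUnit_iff_ne_zero.mpr hne
  have h4 := Matrix.linearIndependent_rows_of_isUnit h3
  exact LinearIndependent.of_comp L h4

end Q51.GenEmb
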