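import Mathlib
import Pool.Agent.Q51.GenEmbCurve

set_option autoImplicit false

/-!
Generic embeddings of a finite dimensional algebra: an element of maximal rank in an affine
family of generating tuples represents every element of the algebra by a polynomial of small degree.
-/

namespace Q51.GenEmb

open MvPolynomial

variable {K B : Type*} [Field K] [CommRing B] [Algebra K B] {n : ℕ}

/-- The values at `b` of the polynomials of total degree at most `d`. -/
noncomputable def W (b : Fin n → B) (d : ℕ) : Submodule K B :=
  (restrictTotalDegree (Fin n) K d).map (aeval b).toLinearMap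

lemma mem_W {b : Fin n → B} {d : ℕ} {v : B} :
    v ∈ (W b d : Submodule K B) ↔ ∃ P : MvPolynomial (Fin n) K, P.totalDegree ≤ d ∧ aeval b P = v := by
  unfold W
  rw [Submodule.mem_map]
  simp only [mem_restrictTotalDegree]
  rfl

lemma aeval_mem_W (b : Fin n → B) {d : ℕ} {P : MvPolynomial (Fin n) K} (h : P.totalDegree ≤ d) :
    aeval b P ∈ (W b d : Submodule K B) := mem_W.mpr ⟨P, h, rfl⟩

lemma W_mono (b : Fin n → B) {d e : ℕ} (h : d ≤ e) : (W b d : Submodule K B) ≤ W b e := by
  intro v hv
  obtain ⟨P, hP, rfl⟩ := mem_W.mp hv
  exact aeval_mem_W b (hP.trans h)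

/-- The curve `t ↦ P (b + t β)` as a polynomial with coefficients in `B`. -/
noncomputable def curve (b β : Fin n → B) (P : MvPolynomial (Fin n) K) : Polynomial B :=
  aeval (fun i => Polynomial.C (b i) + Polynomial.X * Polynomial.C (β i)) P

lemma curve_eval (b β : Fin n → B) (P : MvPolynomial (Fin n) K) (s : B) :
    (curve b β P).eval s = aeval (fun i => b i + s * β i) P := by
  unfold curve
  have h : ((Polynomial.aeval s : Polynomial B →ₐ[B] B).restrictScalars K).comp
      (aeval (fun i => Polynomial.C (b i) + Polynomial.X * Polynomial.C (β i)) :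
        MvPolynomial (Fin n) K →ₐ[K] Polynomial B) = aeval (fun i => b i + s * β i) := by
    apply MvPolynomial.algHom_ext
    intro i
    simp
    exact mul_comm _ _
  have h2 := DFunLike.congr_fun h P
  simpa using h2

lemma curve_coeff_zero (b β : Fin n → B) (P : MvPolynomial (Fin n) K) :
    (curve b β P).coeff 0 = aeval b P := by
  rw [Polynomial.coeff_zero_eq_eval_zero, curve_eval]
  simp

lemma curve_coeff_one (b β : Fin n → B) (P : MvPolynomial (Fin n) K) :
    (curve b β P).coeff 1 = ∑ i, aeval b (pderiv i P) * β i := by
  classical
  induction P using MvPolynomial.induction_on with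
  | C a =>
    simp only [pderiv_C, map_zero, zero_mul, Finset.sum_const_zero]
    unfold curve
    rw [MvPolynomial.aeval_C, Polynomial.algebraMap_apply, Polynomial.coeff_C]
    simp
  | add p q hp hq =>
    have : curve b β (p + q) = curve b β p + curve b β q := by
      unfold curve; rw [map_add]
    rw [this, Polynomial.coeff_add, hp, hq, ← Finset.sum_add_distrib]
    refine Finset.sum_congr rfl fun i _ => ?_
    rw [map_add, map_add, add_mul]
  | mul_X p k hp =>
    have h1 : curve b β (p * X k) =
        curve b β p * (Polynomial.C (b k) + Polynomial.X * Polynomial.C (β k)) := by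
      unfold curve; rw [map_mul, aeval_X]
    rw [h1, mul_add, Polynomial.coeff_add, Polynomial.coeff_mul_C, hp]
    have h2 : (curve b β p * (Polynomial.X * Polynomial.C (β k))).coeff 1 = aeval b p * β k := by
      rw [← mul_assoc, mul_comm (curve b β p), Polynomial.coeff_mul_C, Polynomial.coeff_X_mul,
        curve_coeff_zero]
    rw [h2, Finset.sum_mul]
    have h3 : ∀ i, aeval b (pderiv i (p * X k)) * β i =
        aeval b (pderiv i p) * β i * b k + (if i = k then aeval b p * β k else 0) := by
      intro i
      rw [pderiv_mul, pderiv_X]
      by_cases hik : i = k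
      · subst hik
        simp; ring
      · simp [hik, Ne.symm hik]; ring
    simp_rw [h3]
    rw [Finset.sum_add_distrib]
    simp

/-- The total rank used to select a generic tuple. -/
noncomputable def rk (K : Type*) {B : Type*} [Field K] [CommRing B] [Algebra K B] {n : ℕ}
    (D : ℕ) (b : Fin n → B) : ℕ :=
  ∑ d ∈ Finset.range (D + 1), Module.finrank K (W b d : Submodule K B)

variable [FiniteDimensional K B]

lemma rk_le (D : ℕ) (b : Fin n → B) : rk K D b ≤ (D + 1) * Module.finrank K B := by
  unfold rk
  calc _ ≤ ∑ _d ∈ Finset.range (D + 1), Module.finrank K B :=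
        Finset.sum_le_sum fun d _ => Submodule.finrank_le _
    _ = _ := by simp

/-- rank semicontinuity along a line -/
lemma eventually_finrank_le [Infinite K] (b β : Fin n → B) (d : ℕ) :
    ∀ᶠ t : K in Filter.cofinite, Module.finrank K (W b d : Submodule K B) ≤
      Module.finrank K (W (fun i => b i + algebraMap K B t * β i) d : Submodule K B) := by
  classical
  let bas := Module.finBasis K (W b d : Submodule K B)
  have hex : ∀ k, ∃ P : MvPolynomial (Fin n) K, P.totalDegree ≤ d ∧ aeval b P = (bas k : B) :=
    fun k => mem_W.mp (bas k).2
  choose P hP hPb using hex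
  have hli : LinearIndependent K (fun k => ((curve b β (P k)).eval 0 : B)) := by
    have : (fun k => ((curve b β (P k)).eval 0 : B)) = fun k => (bas k : B) := by
      funext k
      rw [← Polynomial.coeff_zero_eq_eval_zero, curve_coeff_zero, hPb]
    rw [this]
    exact bas.linearIndependent.map' (Submodule.subtype _) (Submodule.ker_subtype _)
  filter_upwards [eventually_linearIndependent (K := K) _ hli] with t ht
  have h1 : ∀ k, (curve b β (P k)).eval (algebraMap K B t) ∈
      (W (fun i => b i + algebraMap K B t * β i) d : Submodule K B) := by
    intro k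
    rw [curve_eval]
    exact aeval_mem_W _ (hP k)
  have h2 : LinearIndependent K (fun k => (⟨_, h1 k⟩ :
      (W (fun i => b i + algebraMap K B t * β i) d : Submodule K B))) := by
    apply LinearIndependent.of_comp (Submodule.subtype _)
    exact ht
  have h3 := h2.fintype_card_le_finrank
  simpa using h3

/-- strict rank jump along a line -/
lemma eventually_finrank_lt [Infinite K] (b β : Fin n → B) (d : ℕ) (P : MvPolynomial (Fin n) K)
    (hPd : P.totalDegree ≤ d) (hPb : aeval b P = 0)
    (hv : ∑ i, aeval b (pderiv i P) * β i ∉ (W b d : Submodule K B)) :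
    ∀ᶠ t : K in Filter.cofinite, Module.finrank K (W b d : Submodule K B) <
      Module.finrank K (W (fun i => b i + algebraMap K B t * β i) d : Submodule K B) := by
  classical
  let bas := Module.finBasis K (W b d : Submodule K B)
  have hex : ∀ k, ∃ P : MvPolynomial (Fin n) K, P.totalDegree ≤ d ∧ aeval b P = (bas k : B) :=
    fun k => mem_W.mp (bas k).2
  choose Q hQ hQb using hex
  let c : Option (Fin (Module.finrank K (W b d : Submodule K B))) → Polynomial B := fun o =>
    match o with
    | none => (curve b β P).divX
    | some k => curve b β (Q k)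
  have hX : curve b β P = Polynomial.X * (curve b β P).divX := by
    conv_lhs => rw [← Polynomial.divX_mul_X_add (curve b β P)]
    rw [curve_coeff_zero, hPb, map_zero, add_zero, mul_comm]
  have hli : LinearIndependent K (fun k => ((c k).eval 0 : B)) := by
    rw [linearIndependent_option]
    constructor
    · have : ((fun k => ((c k).eval 0 : B)) ∘ some) = fun k => (bas k : B) := by
        funext k
        simp only [Function.comp, c]
        rw [← Polynomial.coeff_zero_eq_eval_zero, curve_coeff_zero, hQb]
      change LinearIndependent K ((fun k => ((c k).eval 0 : B)) ∘ some)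
      rw [this]
      exact bas.linearIndependent.map' (Submodule.subtype _) (Submodule.ker_subtype _)
    · intro hmem
      apply hv
      have h1 : ((c none).eval 0 : B) = ∑ i, aeval b (pderiv i P) * β i := by
        simp only [c]
        rw [← Polynomial.coeff_zero_eq_eval_zero, Polynomial.coeff_divX, curve_coeff_one]
      rw [← h1]
      refine Submodule.span_le.mpr ?_ hmem
      rintro _ ⟨k, rfl⟩
      simp only [Function.comp, c]
      rw [← Polynomial.coeff_zero_eq_eval_zero, curve_coeff_zero]
      exact aeval_mem_W _ (hQ k)
  have hne : ∀ᶠ t : K in Filter.cofinite, t ≠ 0 := by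
    rw [Filter.eventually_cofinite]
    simp
  filter_upwards [eventually_linearIndependent (K := K) _ hli, hne] with t ht ht0
  have h1 : ∀ k, (c k).eval (algebraMap K B t) ∈
      (W (fun i => b i + algebraMap K B t * β i) d : Submodule K B) := by
    intro k
    match k with
    | some k =>
      simp only [c]
      rw [curve_eval]
      exact aeval_mem_W _ (hQ k)
    | none =>
      simp only [c]
      have h2 : algebraMap K B t * ((curve b β P).divX).eval (algebraMap K B t) =
          aeval (fun i => b i + algebraMap K B t * β i) P := by
        rw [← curve_eval]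
        conv_rhs => rw [hX]
        rw [Polynomial.eval_mul, Polynomial.eval_X]
      have h3 : ((curve b β P).divX).eval (algebraMap K B t) =
          t⁻¹ • aeval (fun i => b i + algebraMap K B t * β i) P := by
        rw [← h2, ← Algebra.smul_def, smul_smul, inv_mul_cancel₀ ht0, one_smul]
      rw [h3]
      exact Submodule.smul_mem _ _ (aeval_mem_W _ hPd)
  have h2 : LinearIndependent K (fun k => (⟨_, h1 k⟩ :
      (W (fun i => b i + algebraMap K B t * β i) d : Submodule K B))) := by
    apply LinearIndependent.of_comp (Submodule.subtype _)
    exact ht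
  have h3 := h2.fintype_card_le_finrank
  simp only [Fintype.card_option, Fintype.card_fin] at h3
  omega

/-- first order condition at a tuple of maximal rank -/
lemma sum_pderiv_mem [Infinite K] (T : Submodule K B) (x : Fin n → B) (D : ℕ) (b : Fin n → B)
    (hb : ∀ i, b i - x i ∈ T)
    (hmax : ∀ b' : Fin n → B, (∀ i, b' i - x i ∈ T) → rk K D b' ≤ rk K D b)
    (d : ℕ) (hd : d ≤ D) (P : MvPolynomial (Fin n) K) (hPd : P.totalDegree ≤ d)
    (hPb : aeval b P = 0) (β : Fin n → B) (hβ : ∀ i, β i ∈ T) :
    ∑ i, aeval b (pderiv i P) * β i ∈ (W b d : Submodule K B) := by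
  classical
  by_contra hv
  have h1 := eventually_finrank_lt b β d P hPd hPb hv
  have h2 : ∀ᶠ t : K in Filter.cofinite, ∀ e ∈ Finset.range (D + 1),
      Module.finrank K (W b e : Submodule K B) ≤
      Module.finrank K (W (fun i => b i + algebraMap K B t * β i) e : Submodule K B) := by
    rw [Filter.eventually_all_finset]
    intro e _
    exact eventually_finrank_le b β e
  obtain ⟨t, ht1, ht2⟩ := (h1.and h2).exists
  have h3 := hmax (fun i => b i + algebraMap K B t * β i) (by
    intro i
    have : b i + algebraMap K B t * β i - x i = (b i - x i) + t • β i := by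
      rw [Algebra.smul_def]; ring
    rw [this]
    exact T.add_mem (hb i) (T.smul_mem _ (hβ i)))
  have h4 : rk K D b < rk K D (fun i => b i + algebraMap K B t * β i) := by
    unfold rk
    refine Finset.sum_lt_sum ht2 ⟨d, ?_, ht1⟩
    rw [Finset.mem_range]; omega
  omega

end Q51.GenEmb
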