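import Mathlib
import Pool.Agent.Q51.GenEmb

set_option autoImplicit false

/-!
Generic embeddings of a finite dimensional algebra: main statement.
-/

namespace Q51.GenEmb

open MvPolynomial

variable {K B : Type*} [Field K] [CommRing B] [Algebra K B] {n : ℕ}

lemma mul_mem_W {b : Fin n → B} {d e : ℕ} {v w : B}
    (hv : v ∈ (W b d : Submodule K B)) (hw : w ∈ (W b e : Submodule K B)) :
    v * w ∈ (W b (d + e) : Submodule K B) := by
  obtain ⟨P, hP, rfl⟩ := mem_W.mp hv
  obtain ⟨Q, hQ, rfl⟩ := mem_W.mp hw
  rw [← map_mul]
  exact aeval_mem_W b ((totalDegree_mul P Q).trans (add_le_add hP hQ))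

/-- the top homogeneous part -/
lemma exists_top_split (P : MvPolynomial (Fin n) K) (d : ℕ) (hP : P.totalDegree ≤ d + 1) :
    ∃ R p : MvPolynomial (Fin n) K, R.totalDegree ≤ d ∧ p.IsHomogeneous (d + 1) ∧
      P = R + p ∧ p = homogeneousComponent (d + 1) P := by
  classical
  refine ⟨P - homogeneousComponent (d + 1) P, homogeneousComponent (d + 1) P, ?_,
    homogeneousComponent_isHomogeneous _ _, by ring, rfl⟩
  rw [MvPolynomial.totalDegree, Finset.sup_le_iff]
  intro m hm
  rw [mem_support_iff, coeff_sub, coeff_homogeneousComponent] at hm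
  have h1 : m ∈ P.support := by
    rw [mem_support_iff]
    intro h0
    apply hm
    rw [h0]; simp
  have h2 : m.degree ≤ d + 1 := by
    have := le_totalDegree h1
    exact this.trans hP
  have h3 : m.degree ≠ d + 1 := by
    intro h4
    apply hm
    rw [if_pos h4, sub_self]
  change m.degree ≤ d
  omega

/-- reduction of high degree polynomials -/
lemma W_le_of_reduce (b : Fin n → B) (s : ℕ) (hs : 1 ≤ s)
    (h : ∀ Q : MvPolynomial (Fin n) K, Q.IsHomogeneous (2 * s) →
      aeval b Q ∈ (W b (2 * s - 1) : Submodule K B)) (d : ℕ) :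
    (W b d : Submodule K B) ≤ W b (2 * s - 1) := by
  induction d with
  | zero => exact W_mono b (by omega)
  | succ d ih =>
    by_cases hd : d + 1 ≤ 2 * s - 1
    · exact W_mono b hd
    · refine le_trans ?_ ih
      intro v hv
      obtain ⟨P, hP, rfl⟩ := mem_W.mp hv
      obtain ⟨R, p, hR, hp, hRp, -⟩ := exists_top_split P d hP
      rw [hRp, map_add]
      refine Submodule.add_mem _ (aeval_mem_W b hR) ?_
      have hmem : p ∈ homogeneousSubmodule (Fin n) K (2 * s) *
          homogeneousSubmodule (Fin n) K (d + 1 - 2 * s) := by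
        rw [← homogeneousSubmodule_one_pow (σ := Fin n) (R := K) (n := 2 * s),
          ← homogeneousSubmodule_one_pow (σ := Fin n) (R := K) (n := d + 1 - 2 * s),
          ← pow_add, homogeneousSubmodule_one_pow]
        have : 2 * s + (d + 1 - 2 * s) = d + 1 := by omega
        rw [this]
        exact hp
      refine Submodule.mul_induction_on hmem ?_ ?_
      · intro A hA C hC
        rw [map_mul]
        have h1 := mul_mem_W (h A hA) (aeval_mem_W b (IsHomogeneous.totalDegree_le hC))
        exact W_mono b (by omega) h1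
      · intro A C hA hC
        rw [map_add]
        exact Submodule.add_mem _ hA hC

section step

variable [Infinite K] [FiniteDimensional K B]

/-- Key step: multiply a first partial of a good form by a quadratic form. -/
lemma good_step (T : Submodule K B) (x : Fin n → B) (D : ℕ) (b : Fin n → B)
    (hb : ∀ i, b i - x i ∈ T)
    (hmax : ∀ b' : Fin n → B, (∀ i, b' i - x i ∈ T) → rk K D b' ≤ rk K D b)
    (hT : ∀ i k, b i * b k ∈ T)
    (j : ℕ) (hj : j + 1 ≤ D) (p : MvPolynomial (Fin n) K) (hp : p.IsHomogeneous (j + 1))
    (hpW : aeval b p ∈ (W b j : Submodule K B)) (k l : Fin n) (i : Fin n) :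
    aeval b (X k * X l * pderiv i p) ∈ (W b (j + 1) : Submodule K B) := by
  classical
  obtain ⟨R, hR, hRp⟩ := mem_W.mp hpW
  have h1 := sum_pderiv_mem T x D b hb hmax (j + 1) hj (p - R)
    ((totalDegree_sub _ _).trans (max_le (IsHomogeneous.totalDegree_le hp) (by omega)))
    (by rw [map_sub, hRp, sub_self]) (fun i' => if i' = i then b k * b l else 0)
    (by
      intro i'
      split_ifs
      · exact hT k l
      · exact T.zero_mem)
  simp only [mul_ite, mul_zero, Finset.sum_ite_eq', Finset.mem_univ, if_true] at h1
  have h2 : aeval b (X k * X l * pderiv i p) =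
      aeval b (pderiv i (p - R)) * (b k * b l) + aeval b (X k * X l * pderiv i R) := by
    simp only [map_mul, map_sub, aeval_X]
    ring
  rw [h2]
  refine Submodule.add_mem _ h1 (aeval_mem_W b ?_)
  by_cases hR0 : R.totalDegree = 0
  · rw [totalDegree_eq_zero_iff_eq_C] at hR0
    rw [hR0, pderiv_C, mul_zero, totalDegree_zero]
    omega
  · have h3 : (pderiv i R).totalDegree ≤ R.totalDegree - 1 := by
      rw [MvPolynomial.totalDegree, Finset.sup_le_iff]
      intro m hm
      rw [mem_support_iff, coeff_pderiv] at hm
      have h4 : m + Finsupp.single i 1 ∈ R.support := by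
        rw [mem_support_iff]
        intro h0
        apply hm
        rw [h0]; simp
      have h5 := le_totalDegree h4
      have h6 : ((m + Finsupp.single i 1).sum fun _ e => e) = (m.sum fun _ e => e) + 1 := by
        rw [Finsupp.sum_add_index']
        · simp
        · simp
        · intros; rfl
      omega
    calc (X k * X l * pderiv i R).totalDegree ≤ (X k * X l : MvPolynomial (Fin n) K).totalDegree
            + (pderiv i R).totalDegree := totalDegree_mul _ _
      _ ≤ 2 + (R.totalDegree - 1) := by
        refine add_le_add ?_ h3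
        refine (totalDegree_mul _ _).trans ?_
        rw [totalDegree_X, totalDegree_X]
      _ ≤ j + 1 := by omega

/-- The induction: forms of degree `2k` times a `k`-th partial of the relation. -/
lemma chain_step (T : Submodule K B) (x : Fin n → B) (D : ℕ) (b : Fin n → B)
    (hb : ∀ i, b i - x i ∈ T)
    (hmax : ∀ b' : Fin n → B, (∀ i, b' i - x i ∈ T) → rk K D b' ≤ rk K D b)
    (hT : ∀ i k, b i * b k ∈ T)
    (s k : ℕ) (hk : k < s) (hs : s + k ≤ D)
    (q : MvPolynomial (Fin n) K) (hq : q.IsHomogeneous (s - k))
    (hqW : ∀ Q : MvPolynomial (Fin n) K, Q.IsHomogeneous (2 * k) →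
      aeval b (Q * q) ∈ (W b (s + k - 1) : Submodule K B)) (i : Fin n) :
    ∀ Q : MvPolynomial (Fin n) K, Q.IsHomogeneous (2 * (k + 1)) →
      aeval b (Q * pderiv i q) ∈ (W b (s + (k + 1) - 1) : Submodule K B) := by
  classical
  intro Q hQ
  have hmem : Q ∈ homogeneousSubmodule (Fin n) K (2 * k) *
      (homogeneousSubmodule (Fin n) K 1 * homogeneousSubmodule (Fin n) K 1) := by
    rw [← homogeneousSubmodule_one_pow (σ := Fin n) (R := K) (n := 2 * k), ← pow_two, ← pow_add,
      homogeneousSubmodule_one_pow]
    exact hQ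
  -- the main computation for products
  have key : ∀ A : MvPolynomial (Fin n) K, A.IsHomogeneous (2 * k) → ∀ c l : Fin n,
      aeval b (A * (X c * X l) * pderiv i q) ∈ (W b (s + (k + 1) - 1) : Submodule K B) := by
    intro A hA c l
    have hAq : (A * q).IsHomogeneous (s + k - 1 + 1) := by
      have h1 := hA.mul hq
      have h2 : 2 * k + (s - k) = s + k - 1 + 1 := by omega
      rwa [h2] at h1
    have h1 := good_step T x D b hb hmax hT (s + k - 1) (by omega) (A * q) hAq (hqW A hA) c l i
    have h2 : aeval b (A * (X c * X l) * pderiv i q) =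
        aeval b (X c * X l * pderiv i (A * q)) - aeval b (X c * X l * pderiv i A * q) := by
      rw [← map_sub]
      congr 1
      rw [pderiv_mul]
      ring
    rw [h2]
    have h3 : s + k - 1 + 1 = s + (k + 1) - 1 := by omega
    rw [h3] at h1
    refine Submodule.sub_mem _ h1 ?_
    by_cases hk0 : k = 0
    · subst hk0
      have hA0 : A.IsHomogeneous 0 := hA
      rw [← totalDegree_zero_iff_isHomogeneous, totalDegree_eq_zero_iff_eq_C] at hA0
      rw [hA0, pderiv_C, mul_zero, zero_mul, map_zero]
      exact Submodule.zero_mem _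
    · have h4 : (X c * pderiv i A : MvPolynomial (Fin n) K).IsHomogeneous (2 * k) := by
        have h5 := (isHomogeneous_X K c).mul (hA.pderiv (i := i))
        have h6 : 1 + (2 * k - 1) = 2 * k := by omega
        rwa [h6] at h5
      have h7 := hqW _ h4
      have h8 : X c * X l * pderiv i A * q = (X c * pderiv i A * q) * X l := by ring
      rw [h8, map_mul]
      have h9 := mul_mem_W h7 (aeval_mem_W (K := K) b (P := X l) (d := 1) (by rw [totalDegree_X]))
      exact W_mono b (by omega) h9
  refine Submodule.mul_induction_on hmem ?_ ?_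
  · intro A hA C hC
    rw [homogeneousSubmodule_one_eq_span_X, Submodule.span_mul_span] at hC
    refine Submodule.span_induction (p := fun C _ => aeval b (A * C * pderiv i q) ∈
      (W b (s + (k + 1) - 1) : Submodule K B)) ?_ ?_ ?_ ?_ hC
    · rintro _ ⟨_, ⟨c, rfl⟩, _, ⟨l, rfl⟩, rfl⟩
      exact key A hA c l
    · simp
    · intro u v _ _ hu hv
      rw [mul_add, add_mul, map_add]
      exact Submodule.add_mem _ hu hv
    · intro a u _ hu
      have : A * (a • u) * pderiv i q = a • (A * u * pderiv i q) := by
        rw [mul_smul_comm, smul_mul_assoc]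
      rw [this, map_smul]
      exact Submodule.smul_mem _ _ hu
  · intro A C hA hC
    rw [add_mul, map_add]
    exact Submodule.add_mem _ hA hC

/-- A nontrivial relation of degree `s` at a tuple of maximal rank gives reduction of all forms of
degree `2s`. -/
lemma chain (hchar : CharZero K) (T : Submodule K B) (x : Fin n → B) (D : ℕ) (b : Fin n → B)
    (hb : ∀ i, b i - x i ∈ T)
    (hmax : ∀ b' : Fin n → B, (∀ i, b' i - x i ∈ T) → rk K D b' ≤ rk K D b)
    (hT : ∀ i k, b i * b k ∈ T)
    (s : ℕ) (hs : 1 ≤ s) (hsD : 2 * s ≤ D)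
    (p : MvPolynomial (Fin n) K) (hp : p.IsHomogeneous s) (hp0 : p ≠ 0)
    (hpW : aeval b p ∈ (W b (s - 1) : Submodule K B)) :
    ∀ Q : MvPolynomial (Fin n) K, Q.IsHomogeneous (2 * s) →
      aeval b Q ∈ (W b (2 * s - 1) : Submodule K B) := by
  classical
  have main : ∀ k, k ≤ s → ∃ q : MvPolynomial (Fin n) K, q ≠ 0 ∧ q.IsHomogeneous (s - k) ∧
      ∀ Q : MvPolynomial (Fin n) K, Q.IsHomogeneous (2 * k) →
        aeval b (Q * q) ∈ (W b (s + k - 1) : Submodule K B) := by
    intro k
    induction k with
    | zero =>
      intro _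
      refine ⟨p, hp0, hp, ?_⟩
      intro Q hQ
      have hQ0 : Q.IsHomogeneous 0 := hQ
      rw [← totalDegree_zero_iff_isHomogeneous, totalDegree_eq_zero_iff_eq_C] at hQ0
      rw [hQ0, map_mul, aeval_C, ← Algebra.smul_def]
      exact Submodule.smul_mem _ _ hpW
    | succ k ih =>
      intro hk
      obtain ⟨q, hq0, hq, hqW⟩ := ih (by omega)
      have hex : ∃ i, pderiv i q ≠ 0 := by
        by_contra hall
        push Not at hall
        have h1 := hq.sum_X_mul_pderiv
        simp only [hall, mul_zero, Finset.sum_const_zero] at h1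
        have h2 : ((s - k : ℕ) : MvPolynomial (Fin n) K) * q = 0 := by
          rw [← nsmul_eq_mul]; exact h1.symm
        rcases mul_eq_zero.mp h2 with h3 | h3
        · have h4 : s - k = 0 := by exact_mod_cast h3
          omega
        · exact hq0 h3
      obtain ⟨i, hi⟩ := hex
      refine ⟨pderiv i q, hi, ?_, chain_step T x D b hb hmax hT s k (by omega) (by omega) q hq
        hqW i⟩
      have h1 := hq.pderiv (i := i)
      have h2 : s - (k + 1) = s - k - 1 := by omega
      rw [h2]
      exact h1
  obtain ⟨q, hq0, hq, hqW⟩ := main s le_rfl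
  rw [Nat.sub_self, ← totalDegree_zero_iff_isHomogeneous, totalDegree_eq_zero_iff_eq_C] at hq
  intro Q hQ
  have hc : coeff 0 q ≠ 0 := by
    intro h0
    apply hq0
    rw [hq, h0, C_0]
  have h1 := hqW Q hQ
  rw [hq, mul_comm, map_mul, aeval_C, ← Algebra.smul_def] at h1
  have h2 := Submodule.smul_mem _ (coeff 0 q)⁻¹ h1
  rw [smul_smul, inv_mul_cancel₀ hc, one_smul] at h2
  have h3 : s + s - 1 = 2 * s - 1 := by omega
  rwa [h3] at h2

end step

/-- **Generic embedding theorem.** Let `B` be a finite dimensional commutative algebra over a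
field of characteristic zero and `x + T^n` an affine family of `n`-tuples closed under
`b ↦ b + t b_i b_k`, containing a tuple which generates `B`. If there are more monomials of
degree at most `j` than `dim B`, then some tuple `b` of the family represents every element of
`B` by a polynomial of degree at most `2j-1`. -/
theorem exists_tuple [CharZero K] [FiniteDimensional K B] (T : Submodule K B) (x : Fin n → B)
    (hT : ∀ b : Fin n → B, (∀ i, b i - x i ∈ T) → ∀ i k, b i * b k ∈ T)
    (hgen : Algebra.adjoin K (Set.range x) = ⊤) (j : ℕ)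
    (hj : Module.finrank K B < Module.finrank K (restrictTotalDegree (Fin n) K j)) :
    ∃ b : Fin n → B, (∀ i, b i - x i ∈ T) ∧
      ∀ v : B, ∃ P : MvPolynomial (Fin n) K, P.totalDegree ≤ 2 * j - 1 ∧ aeval b P = v := by
  classical
  have : Infinite K := CharZero.infinite K
  -- some degree suffices for `x`
  obtain ⟨D₀, hD₀⟩ : ∃ D₀, ∀ v : B, v ∈ (W x D₀ : Submodule K B) := by
    let bas := Module.finBasis K B
    have hex : ∀ k, ∃ P : MvPolynomial (Fin n) K, aeval x P = bas k := by
      intro k
      have h1 : bas k ∈ Algebra.adjoin K (Set.range x) := by rw [hgen]; trivial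
      rw [Algebra.adjoin_range_eq_range_aeval] at h1
      exact h1
    choose P hP using hex
    refine ⟨Finset.univ.sup fun k => (P k).totalDegree, fun v => ?_⟩
    have h2 : (⊤ : Submodule K B) ≤ W x (Finset.univ.sup fun k => (P k).totalDegree) := by
      rw [← bas.span_eq, Submodule.span_le]
      rintro _ ⟨k, rfl⟩
      rw [← hP k]
      exact aeval_mem_W x (Finset.le_sup (f := fun k => (P k).totalDegree) (Finset.mem_univ k))
    exact h2 trivial
  set D := max D₀ (2 * j) with hD
  -- a tuple of maximal rank
  obtain ⟨b, hb, hmax⟩ : ∃ b : Fin n → B, (∀ i, b i - x i ∈ T) ∧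
      ∀ b' : Fin n → B, (∀ i, b' i - x i ∈ T) → rk K D b' ≤ rk K D b := by
    let S : Set ℕ := {m | ∃ b : Fin n → B, (∀ i, b i - x i ∈ T) ∧ rk K D b = m}
    have hne : S.Nonempty := ⟨rk K D x, x, fun i => by rw [sub_self]; exact T.zero_mem, rfl⟩
    have hbd : BddAbove S := ⟨(D + 1) * Module.finrank K B, by
      rintro _ ⟨b, _, rfl⟩; exact rk_le D b⟩
    obtain ⟨b, hb, hbm⟩ := Nat.sSup_mem hne hbd
    refine ⟨b, hb, fun b' hb' => ?_⟩
    rw [hbm]
    exact le_csSup hbd ⟨b', hb', rfl⟩
  -- `W b D` is everything
  have hfull : (W b D : Submodule K B) = ⊤ := by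
    have h1 : ∀ᶠ t : K in Filter.cofinite, ∀ e ∈ Finset.range (D + 1),
        Module.finrank K (W b e : Submodule K B) ≤
        Module.finrank K (W (fun i => b i + algebraMap K B t * (x i - b i)) e :
          Submodule K B) := by
      rw [Filter.eventually_all_finset]
      intro e _
      exact eventually_finrank_le b (fun i => x i - b i) e
    have h2 : ∀ᶠ t : K in Filter.cofinite, Module.finrank K (W x D : Submodule K B) ≤
        Module.finrank K (W (fun i => x i + algebraMap K B t * (b i - x i)) D :
          Submodule K B) :=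
      eventually_finrank_le x (fun i => b i - x i) D
    have h3 : ∀ᶠ t : K in Filter.cofinite, Module.finrank K (W x D : Submodule K B) ≤
        Module.finrank K (W (fun i => x i + algebraMap K B (1 - t) * (b i - x i)) D :
          Submodule K B) := by
      have hinj : Function.Injective (fun t : K => 1 - t) := fun a c h => by
        simpa using h
      exact hinj.tendsto_cofinite.eventually h2
    obtain ⟨t, ht1, ht2⟩ := (h1.and h3).exists
    have h4 : (fun i => x i + algebraMap K B (1 - t) * (b i - x i)) =
        fun i => b i + algebraMap K B t * (x i - b i) := by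
      funext i
      rw [map_sub, map_one]; ring
    rw [h4] at ht2
    have hx : (W x D : Submodule K B) = ⊤ := by
      rw [eq_top_iff]
      intro v _
      exact W_mono x (le_max_left _ _) (hD₀ v)
    rw [hx, finrank_top] at ht2
    have h5 := hmax (fun i => b i + algebraMap K B t * (x i - b i)) (by
      intro i
      have : b i + algebraMap K B t * (x i - b i) - x i = (b i - x i) - t • (b i - x i) := by
        rw [Algebra.smul_def]; ring
      rw [this]
      exact T.sub_mem (hb i) (T.smul_mem _ (hb i)))
    by_contra hne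
    have h6 : Module.finrank K (W b D : Submodule K B) < Module.finrank K B :=
      Submodule.finrank_lt hne
    have h7 : rk K D b < rk K D (fun i => b i + algebraMap K B t * (x i - b i)) := by
      unfold rk
      refine Finset.sum_lt_sum ht1 ⟨D, ?_, lt_of_lt_of_le h6 ht2⟩
      rw [Finset.mem_range]; omega
    omega
  refine ⟨b, hb, fun v => ?_⟩
  rw [← mem_W]
  -- trivial algebra
  by_cases htriv : Subsingleton B
  · rw [Subsingleton.elim v 0]
    exact Submodule.zero_mem _
  rw [not_subsingleton_iff_nontrivial] at htriv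
  -- a relation
  obtain ⟨P, hPj, hP0, hPb⟩ : ∃ P : MvPolynomial (Fin n) K, P.totalDegree ≤ j ∧ P ≠ 0 ∧
      aeval b P = 0 := by
    let φ : restrictTotalDegree (Fin n) K j →ₗ[K] B :=
      (aeval b).toLinearMap.comp (Submodule.subtype _)
    have h1 : ¬ Function.Injective φ := fun hinj =>
      absurd (LinearMap.finrank_le_finrank_of_injective hinj) (by omega)
    rw [← LinearMap.ker_eq_bot, Submodule.eq_bot_iff] at h1
    push Not at h1
    obtain ⟨⟨P, hP⟩, hPker, hPne⟩ := h1
    refine ⟨P, (mem_restrictTotalDegree _ _ _).mp hP, ?_, ?_⟩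
    · intro h0
      apply hPne
      ext1
      exact h0
    · exact hPker
  set s := P.totalDegree with hsdef
  have hs1 : 1 ≤ s := by
    by_contra hs0
    have h0 : P.totalDegree = 0 := by omega
    rw [totalDegree_eq_zero_iff_eq_C] at h0
    have hc : coeff 0 P ≠ 0 := by
      intro h1
      apply hP0
      rw [h0, h1, C_0]
    rw [h0, aeval_C] at hPb
    exact hc ((map_eq_zero_iff _ (algebraMap K B).injective).mp hPb)
  obtain ⟨R, p, hR, hp, hRp, hpc⟩ := exists_top_split P (s - 1) (by omega)
  have hs' : s - 1 + 1 = s := by omega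
  rw [hs'] at hp hpc
  have hp0 : p ≠ 0 := by
    intro h0
    have h1 : P.totalDegree ≤ s - 1 := by
      rw [hRp, h0, add_zero]; exact hR
    omega
  have hpW : aeval b p ∈ (W b (s - 1) : Submodule K B) := by
    have h1 : aeval b p = - aeval b R := by
      have h2 := hPb
      rw [hRp, map_add] at h2
      exact eq_neg_of_add_eq_zero_right h2
    rw [h1]
    exact Submodule.neg_mem _ (aeval_mem_W b hR)
  have hred := chain inferInstance T x D b hb hmax (hT b hb) s hs1 (by omega) p hp hp0 hpW
  have hle := W_le_of_reduce b s hs1 hred D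
  rw [hfull] at hle
  exact W_mono b (by omega) (hle trivial)

end Q51.GenEmb
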