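import Mathlib

set_option autoImplicit false

/-!
Definitions: germs of holomorphic functions, Milnor algebra and Milnor number, right equivalence,
and the analytic order `d(f)`.
-/

namespace Q51.PolyDeg

open Filter Topology

/-- The complex vector space of all functions `ℂⁿ → ℂ` which are holomorphic (analytic) at the
origin; its elements represent the germs in `𝒪_{ℂⁿ,0}`. -/
def holAt (n : ℕ) : Submodule ℂ ((Fin n → ℂ) → ℂ) where
  carrier := {f | AnalyticAt ℂ f 0}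
  add_mem' := fun {_ _} hf hg => AnalyticAt.add hf hg
  zero_mem' := analyticAt_const
  smul_mem' := fun c _ hf => AnalyticAt.const_smul (c := c) hf

/-- The partial derivative `∂f/∂x_i`. -/
noncomputable def pd {n : ℕ} (i : Fin n) (f : (Fin n → ℂ) → ℂ) : (Fin n → ℂ) → ℂ :=
  fun x => fderiv ℂ f x (Pi.single i 1)

/-- The germ of `g` at `0` lies in the ideal `⟨∂f/∂x_1, …, ∂f/∂x_n⟩` of `𝒪_{ℂⁿ,0}`: near the origin
`g = ∑ h_i ∂f/∂x_i` with `h_i` holomorphic at the origin. -/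
def InJacobianIdeal {n : ℕ} (f g : (Fin n → ℂ) → ℂ) : Prop :=
  ∃ h : Fin n → (Fin n → ℂ) → ℂ, (∀ i, AnalyticAt ℂ (h i) 0) ∧
    ∀ᶠ x in 𝓝 (0 : Fin n → ℂ), g x = ∑ i, h i x * pd i f x

lemma InJacobianIdeal.add {n : ℕ} {f g₁ g₂ : (Fin n → ℂ) → ℂ} (h₁ : InJacobianIdeal f g₁)
    (h₂ : InJacobianIdeal f g₂) : InJacobianIdeal f (g₁ + g₂) := by
  obtain ⟨u, hu, hu'⟩ := h₁
  obtain ⟨v, hv, hv'⟩ := h₂
  refine ⟨fun i => u i + v i, fun i => (hu i).add (hv i), ?_⟩
  filter_upwards [hu', hv'] with x h1 h2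
  rw [Pi.add_apply, h1, h2, ← Finset.sum_add_distrib]
  refine Finset.sum_congr rfl fun i _ => ?_
  rw [Pi.add_apply, add_mul]

lemma InJacobianIdeal.zero {n : ℕ} (f : (Fin n → ℂ) → ℂ) : InJacobianIdeal f 0 :=
  ⟨fun _ _ => 0, fun _ => analyticAt_const, Eventually.of_forall fun x => by simp⟩

lemma InJacobianIdeal.smul {n : ℕ} {f g : (Fin n → ℂ) → ℂ} (c : ℂ) (h : InJacobianIdeal f g) :
    InJacobianIdeal f (c • g) := by
  obtain ⟨u, hu, hu'⟩ := h
  refine ⟨fun i => c • u i, fun i => AnalyticAt.const_smul (c := c) (hu i), ?_⟩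
  filter_upwards [hu'] with x h1
  rw [Pi.smul_apply, h1, smul_eq_mul, Finset.mul_sum]
  refine Finset.sum_congr rfl fun i _ => ?_
  rw [Pi.smul_apply, smul_eq_mul, mul_assoc]

/-- The complex vector space of those functions whose germ at the origin lies in the ideal
`⟨∂f/∂x_1, …, ∂f/∂x_n⟩` of `𝒪_{ℂⁿ,0}`. -/
def jacobianSpace {n : ℕ} (f : (Fin n → ℂ) → ℂ) : Submodule ℂ ((Fin n → ℂ) → ℂ) where
  carrier := {g | InJacobianIdeal f g}
  add_mem' := InJacobianIdeal.add
  zero_mem' := InJacobianIdeal.zero f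
  smul_mem' := fun c _ => InJacobianIdeal.smul c

/-- The Milnor algebra `𝒪_{ℂⁿ,0} / ⟨∂f/∂x_1, …, ∂f/∂x_n⟩` as a complex vector space: functions
holomorphic at `0` modulo those whose germ lies in the ideal of partial derivatives. -/
abbrev MilnorAlgebra {n : ℕ} (f : (Fin n → ℂ) → ℂ) : Type :=
  holAt n ⧸ (jacobianSpace f).submoduleOf (holAt n)

/-- The Milnor number `μ(f)`, the complex dimension of the Milnor algebra. -/
noncomputable def milnorNumber {n : ℕ} (f : (Fin n → ℂ) → ℂ) : ℕ :=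
  Module.finrank ℂ (MilnorAlgebra f)

/-- `f` is a holomorphic germ `(ℂⁿ,0) → (ℂ,0)` with an isolated critical point at the origin:
`f` is analytic at `0`, `f(0) = 0`, all partial derivatives vanish at `0`, and the Milnor algebra
is finite dimensional. -/
structure IsolatedCritical {n : ℕ} (f : (Fin n → ℂ) → ℂ) : Prop where
  analytic : AnalyticAt ℂ f 0
  map_zero : f 0 = 0
  critical : ∀ i, pd i f 0 = 0
  finite : Module.Finite ℂ (MilnorAlgebra f)

/-- Right equivalence of germs at the origin: `g = f ∘ φ` near `0` for a local biholomorphism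
`φ : (ℂⁿ,0) → (ℂⁿ,0)`. -/
def RightEquivalent {n : ℕ} (f g : (Fin n → ℂ) → ℂ) : Prop :=
  ∃ φ : OpenPartialHomeomorph (Fin n → ℂ) (Fin n → ℂ),
    (0 : Fin n → ℂ) ∈ φ.source ∧ φ 0 = 0 ∧ AnalyticAt ℂ φ 0 ∧ AnalyticAt ℂ φ.symm 0 ∧
    ∀ᶠ x in 𝓝 (0 : Fin n → ℂ), g x = f (φ x)

/-- The analytic order `d(f)`: the least degree of a polynomial whose germ at `0` is right
equivalent to `f`. -/
noncomputable def analyticOrder {n : ℕ} (f : (Fin n → ℂ) → ℂ) : ℕ :=
  sInf {d | ∃ p : MvPolynomial (Fin n) ℂ,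
    p.totalDegree = d ∧ RightEquivalent f fun x => MvPolynomial.eval x p}

end Q51.PolyDeg
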