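import Mathlib
import Pool.Agent.Q51.PolyDegDefs
import Pool.Agent.Q51.Hadamard

set_option autoImplicit false

/-!
Basic properties of the ring of germs of holomorphic functions.
-/

namespace Q51.PolyDeg

open Filter Topology

/-- The `ℂ`-algebra of all functions `ℂⁿ → ℂ` which are holomorphic (analytic) at the origin. -/
def HolAt (n : ℕ) : Subalgebra ℂ ((Fin n → ℂ) → ℂ) where
  carrier := {f | AnalyticAt ℂ f 0}
  mul_mem' := fun {_ _} hf hg => AnalyticAt.mul hf hg
  add_mem' := fun {_ _} hf hg => AnalyticAt.add hf hg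
  algebraMap_mem' := fun _ => analyticAt_const

/-- The ideal of those functions which vanish identically near the origin. -/
def nullGerms (n : ℕ) : Ideal (HolAt n) where
  carrier := {f | ∀ᶠ x in 𝓝 (0 : Fin n → ℂ), f.1 x = 0}
  zero_mem' := Eventually.of_forall fun _ => rfl
  add_mem' := fun {f g} hf hg => by
    filter_upwards [hf, hg] with x h1 h2
    change f.1 x + g.1 x = 0
    rw [h1, h2, add_zero]
  smul_mem' := fun c f hf => by
    filter_upwards [hf] with x h1
    change c.1 x * f.1 x = 0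
    rw [h1, mul_zero]

lemma analyticAt_pd {n : ℕ} (i : Fin n) {f : (Fin n → ℂ) → ℂ} (hf : AnalyticAt ℂ f 0) :
    AnalyticAt ℂ (pd i f) 0 := by
  have h : AnalyticAt ℂ (fderiv ℂ f) 0 := AnalyticAt.fderiv hf
  exact ((ContinuousLinearMap.apply ℂ ℂ (Pi.single i 1 : Fin n → ℂ)).analyticAt _).comp h

/-- The partial derivative `∂f/∂x_i`. -/
noncomputable def pdH {n : ℕ} (i : Fin n) (f : HolAt n) : HolAt n :=
  ⟨pd i f.1, analyticAt_pd i f.2⟩

/-- The ring `𝒪_{ℂⁿ,0}` of germs at the origin of holomorphic functions. -/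
def HolGerm (n : ℕ) : Type := HolAt n ⧸ nullGerms n

noncomputable instance (n : ℕ) : CommRing (HolGerm n) :=
  inferInstanceAs (CommRing (HolAt n ⧸ nullGerms n))

noncomputable instance (n : ℕ) : Algebra ℂ (HolGerm n) :=
  inferInstanceAs (Algebra ℂ (HolAt n ⧸ nullGerms n))

/-- The germ of a function holomorphic at the origin. -/
noncomputable def germ {n : ℕ} : HolAt n →ₐ[ℂ] HolGerm n := Ideal.Quotient.mkₐ ℂ (nullGerms n)

variable {n : ℕ}

/-- The Jacobian ideal in the ring of germs. -/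
noncomputable def jacG (f : HolAt n) : Ideal (HolGerm n) :=
  Ideal.span (Set.range fun i : Fin n => germ (pdH i f))

lemma germ_surjective : Function.Surjective (germ : HolAt n →ₐ[ℂ] HolGerm n) :=
  Ideal.Quotient.mkₐ_surjective ℂ (nullGerms n)

lemma germ_eq_zero_iff {f : HolAt n} :
    germ f = 0 ↔ ∀ᶠ x in 𝓝 (0 : Fin n → ℂ), f.1 x = 0 := by
  have : germ f = 0 ↔ f ∈ nullGerms n := Ideal.Quotient.eq_zero_iff_mem
  rw [this]
  rfl

lemma germ_eq_iff {f g : HolAt n} :
    germ f = germ g ↔ ∀ᶠ x in 𝓝 (0 : Fin n → ℂ), f.1 x = g.1 x := by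
  rw [← sub_eq_zero, ← map_sub, germ_eq_zero_iff]
  refine eventually_congr (Eventually.of_forall fun x => ?_)
  change f.1 x - g.1 x = 0 ↔ _
  exact sub_eq_zero

lemma coe_mul (f g : HolAt n) (x : Fin n → ℂ) : (f * g).1 x = f.1 x * g.1 x := rfl
lemma coe_add (f g : HolAt n) (x : Fin n → ℂ) : (f + g).1 x = f.1 x + g.1 x := rfl
lemma coe_sub (f g : HolAt n) (x : Fin n → ℂ) : (f - g).1 x = f.1 x - g.1 x := rfl
lemma coe_neg (f : HolAt n) (x : Fin n → ℂ) : (-f).1 x = -f.1 x := rfl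
lemma coe_one (x : Fin n → ℂ) : (1 : HolAt n).1 x = 1 := rfl
lemma coe_zero (x : Fin n → ℂ) : (0 : HolAt n).1 x = 0 := rfl
lemma coe_sum {ι : Type*} (s : Finset ι) (f : ι → HolAt n) (x : Fin n → ℂ) :
    (∑ i ∈ s, f i).1 x = ∑ i ∈ s, (f i).1 x := by
  classical
  induction s using Finset.induction_on with
  | empty => rfl
  | insert a s ha ih => rw [Finset.sum_insert ha, Finset.sum_insert ha, coe_add, ih]

lemma coe_algebraMap (c : ℂ) (x : Fin n → ℂ) : (algebraMap ℂ (HolAt n) c).1 x = c := rfl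

/-- The Milnor algebra computed in the ring of germs. -/
lemma nonempty_milnorEquiv (f : HolAt n) :
    Nonempty (MilnorAlgebra f.1 ≃ₗ[ℂ] (HolGerm n ⧸ jacG f)) := by
  let q : HolGerm n →ₐ[ℂ] HolGerm n ⧸ jacG f := Ideal.Quotient.mkₐ ℂ (jacG f)
  let ρ : HolAt n →ₐ[ℂ] HolGerm n ⧸ jacG f := q.comp germ
  have hs : Function.Surjective ρ :=
    (Ideal.Quotient.mkₐ_surjective ℂ (jacG f)).comp germ_surjective
  let L : holAt n →ₗ[ℂ] HolGerm n ⧸ jacG f :=
    { toFun := fun g => ρ ⟨g.1, g.2⟩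
      map_add' := fun a b => ρ.map_add ⟨a.1, a.2⟩ ⟨b.1, b.2⟩
      map_smul' := fun c a => ρ.toLinearMap.map_smul c ⟨a.1, a.2⟩ }
  have hLs : Function.Surjective L := by
    intro z
    obtain ⟨g, rfl⟩ := hs z
    exact ⟨⟨g.1, g.2⟩, rfl⟩
  have hker : LinearMap.ker L = (jacobianSpace f.1).submoduleOf (holAt n) := by
    ext z
    have h1 : z ∈ LinearMap.ker L ↔ germ ⟨z.1, z.2⟩ ∈ jacG f := Ideal.Quotient.eq_zero_iff_mem
    rw [h1]
    unfold jacG
    rw [Ideal.mem_span_range_iff_exists_fun]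
    constructor
    · rintro ⟨c, hc⟩
      choose h hh using fun i => germ_surjective (c i)
      refine ⟨fun i => (h i).1, fun i => (h i).2, ?_⟩
      have h2 : germ (∑ i, h i * pdH i f) = germ (⟨z.1, z.2⟩ : HolAt n) := by
        rw [map_sum, ← hc]
        refine Finset.sum_congr rfl fun i _ => ?_
        rw [map_mul, hh]
      rw [germ_eq_iff] at h2
      filter_upwards [h2] with x hx
      change z.1 x = _
      rw [← hx, coe_sum]
      rfl
    · rintro ⟨h, hh, hx⟩
      refine ⟨fun i => germ (⟨h i, hh i⟩ : HolAt n), ?_⟩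
      simp_rw [← map_mul]
      rw [← map_sum, germ_eq_iff]
      filter_upwards [hx] with x hx
      have hx' : z.1 x = ∑ i, h i x * pd i f.1 x := hx
      rw [coe_sum, hx']
      rfl
  exact ⟨(Submodule.quotEquivOfEq _ _ hker.symm).trans (L.quotKerEquivOfSurjective hLs)⟩

/-- evaluation at `0` -/
def ev0 (n : ℕ) : HolAt n →ₐ[ℂ] ℂ where
  toFun f := f.1 0
  map_one' := rfl
  map_mul' _ _ := rfl
  map_zero' := rfl
  map_add' _ _ := rfl
  commutes' _ := rfl

/-- The ideal of functions vanishing at `0`. -/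
def mR (n : ℕ) : Ideal (HolAt n) := RingHom.ker (ev0 n)

lemma mem_mR {f : HolAt n} : f ∈ mR n ↔ f.1 0 = 0 := Iff.rfl

/-- The maximal ideal of the ring of germs. -/
noncomputable def mO (n : ℕ) : Ideal (HolGerm n) := (mR n).map (germ : HolAt n →ₐ[ℂ] HolGerm n)

lemma mem_mO {z : HolGerm n} : z ∈ mO n ↔ ∃ f : HolAt n, f.1 0 = 0 ∧ germ f = z := by
  unfold mO
  rw [Ideal.mem_map_iff_of_surjective _ germ_surjective]
  rfl

lemma isUnit_germ {f : HolAt n} (hf : f.1 0 ≠ 0) : IsUnit (germ f) := by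
  have hinv : AnalyticAt ℂ (fun x => (f.1 x)⁻¹) 0 := AnalyticAt.inv f.2 hf
  let g : HolAt n := ⟨_, hinv⟩
  have h1 : germ f * germ g = 1 := by
    rw [← map_mul, ← map_one germ, germ_eq_iff]
    have hc : ContinuousAt f.1 0 := AnalyticAt.continuousAt f.2
    filter_upwards [hc.eventually_ne hf] with x hx
    rw [coe_mul, coe_one]
    exact mul_inv_cancel₀ hx
  exact IsUnit.of_mul_eq_one _ h1

lemma mO_le_jacobson : mO n ≤ Ideal.jacobson ⊥ := by
  intro z hz
  obtain ⟨f, hf, rfl⟩ := mem_mO.mp hz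
  rw [Ideal.mem_jacobson_bot]
  intro y
  obtain ⟨g, rfl⟩ := germ_surjective y
  rw [← map_mul, ← map_one germ, ← map_add]
  apply isUnit_germ
  rw [coe_add, coe_mul, hf, coe_one]
  simp

/-- coordinate functions -/
noncomputable def coord (i : Fin n) : HolAt n :=
  ⟨fun x => x i, (ContinuousLinearMap.proj (R := ℂ) (φ := fun _ : Fin n => ℂ) i).analyticAt 0⟩

lemma coord_apply (i : Fin n) (x : Fin n → ℂ) : (coord i).1 x = x i := rfl

/-- Hadamard's lemma for germs -/
lemma exists_hadamard (g : HolAt n) : ∃ h : Fin n → HolAt n,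
    germ g = germ (algebraMap ℂ _ (g.1 0)) + ∑ i, germ (coord i) * germ (h i) := by
  classical
  obtain ⟨G, hG, hGx⟩ := hadamard (𝕜 := ℂ) (f := g.1) g.2
  have hG' : ∀ i : Fin n, AnalyticAt ℂ (fun x => G x (Pi.single i 1)) 0 := fun i =>
    ((ContinuousLinearMap.apply ℂ ℂ (Pi.single i 1 : Fin n → ℂ)).analyticAt _).comp hG
  refine ⟨fun i => ⟨_, hG' i⟩, ?_⟩
  simp_rw [← map_mul]
  rw [← map_sum, ← map_add, germ_eq_iff]
  filter_upwards [hGx] with x hx
  rw [coe_add, coe_sum, coe_algebraMap, hx]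
  congr 1
  simp_rw [coe_mul, coord_apply]
  have h1 : x = ∑ i, x i • (Pi.single i 1 : Fin n → ℂ) := by
    funext j
    simp [Finset.sum_apply, Pi.single_apply]
  conv_lhs => rw [h1]
  rw [map_sum]
  refine Finset.sum_congr rfl fun i _ => ?_
  rw [map_smul, smul_eq_mul]
  congr 2
  exact congrArg G h1.symm

lemma eventually_differentiableAt (f : HolAt n) :
    ∀ᶠ x in 𝓝 (0 : Fin n → ℂ), DifferentiableAt ℂ f.1 x := by
  have h : AnalyticAt ℂ f.1 0 := f.2
  filter_upwards [h.eventually_analyticAt] with x hx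
  exact hx.differentiableAt

lemma germ_pd_mul (i : Fin n) (f g : HolAt n) :
    germ (pdH i (f * g)) = germ f * germ (pdH i g) + germ g * germ (pdH i f) := by
  rw [← map_mul, ← map_mul, ← map_add, germ_eq_iff]
  filter_upwards [eventually_differentiableAt f, eventually_differentiableAt g] with x hf hg
  change fderiv ℂ (fun y => f.1 y * g.1 y) x _ = f.1 x * fderiv ℂ g.1 x _ + g.1 x * fderiv ℂ f.1 x _
  rw [fderiv_fun_mul hf hg]
  rfl

lemma germ_pd_add (i : Fin n) (f g : HolAt n) :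
    germ (pdH i (f + g)) = germ (pdH i f) + germ (pdH i g) := by
  rw [← map_add, germ_eq_iff]
  filter_upwards [eventually_differentiableAt f, eventually_differentiableAt g] with x hf hg
  change fderiv ℂ (fun y => f.1 y + g.1 y) x _ = fderiv ℂ f.1 x _ + fderiv ℂ g.1 x _
  rw [fderiv_fun_add hf hg]
  rfl

lemma germ_pd_congr (i : Fin n) {f g : HolAt n} (h : germ f = germ g) :
    germ (pdH i f) = germ (pdH i g) := by
  rw [germ_eq_iff] at h ⊢
  have h1 : f.1 =ᶠ[𝓝 0] g.1 := h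
  have h2 := h1.fderiv (𝕜 := ℂ)
  filter_upwards [h2] with x hx
  change fderiv ℂ f.1 x _ = fderiv ℂ g.1 x _
  rw [hx]

end Q51.PolyDeg
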