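import Mathlib

set_option autoImplicit false

/-!
Counting monomials of bounded degree and the final numerical estimate.
-/

namespace Q51.PolyDeg

open MvPolynomial

lemma finrank_restrictTotalDegree_ge (n m : ℕ) :
    (m + 1) ^ n ≤ Module.finrank ℂ (restrictTotalDegree (Fin n) ℂ (n * m)) := by
  classical
  let e : (Fin n → Fin (m + 1)) → (Fin n →₀ ℕ) := fun a =>
    Finsupp.equivFunOnFinite.symm fun i => (a i : ℕ)
  have hinj : Function.Injective e := by
    intro a b hab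
    funext i
    have h1 : e a i = e b i := by rw [hab]
    exact Fin.ext h1
  have hmem : ∀ a, monomial (e a) (1 : ℂ) ∈ restrictTotalDegree (Fin n) ℂ (n * m) := by
    intro a
    rw [mem_restrictTotalDegree]
    refine (totalDegree_monomial_le _ _).trans ?_
    rw [Finsupp.sum_fintype _ _ (by simp)]
    calc ∑ i, e a i ≤ ∑ _i : Fin n, m := Finset.sum_le_sum fun i _ => Nat.lt_succ_iff.mp (a i).2
      _ = n * m := by simp
  have hli : LinearIndependent ℂ fun a => (⟨_, hmem a⟩ : restrictTotalDegree (Fin n) ℂ (n * m)) := by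
    apply LinearIndependent.of_comp (Submodule.subtype _)
    have h1 := (basisMonomials (Fin n) ℂ).linearIndependent.comp e hinj
    have h2 : (⇑(Submodule.subtype (restrictTotalDegree (Fin n) ℂ (n * m))) ∘
        fun a => (⟨_, hmem a⟩ : restrictTotalDegree (Fin n) ℂ (n * m))) =
        ⇑(basisMonomials (Fin n) ℂ) ∘ e := by
      funext a
      simp
    rw [h2]
    exact h1
  have h3 := hli.fintype_card_le_finrank
  simpa using h3

lemma quad_le_three_pow (n : ℕ) (hn : 1 ≤ n) : 1 + n + n ^ 2 ≤ 3 ^ n := by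
  induction n, hn using Nat.le_induction with
  | base => norm_num
  | succ k hk ih =>
    rw [pow_succ 3 k]
    nlinarith

/-- the final estimate -/
lemma exists_degree (n : ℕ) (hn : 1 ≤ n) (μ : ℕ) :
    ∃ m : ℕ, (1 + n + n ^ 2) * μ < (m + 1) ^ n ∧
      (2 * (n * m) : ℝ) ≤ 6 * n * (μ : ℝ) ^ (1 / (n : ℝ)) := by
  have hn0 : (n : ℝ) ≠ 0 := by
    have : n ≠ 0 := by omega
    exact_mod_cast this
  set N : ℝ := (((1 + n + n ^ 2) * μ : ℕ) : ℝ) with hN
  have hN0 : 0 ≤ N := Nat.cast_nonneg _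
  refine ⟨⌊N ^ (1 / (n : ℝ))⌋₊, ?_, ?_⟩
  · have h1 : N ^ (1 / (n : ℝ)) < (⌊N ^ (1 / (n : ℝ))⌋₊ : ℝ) + 1 := Nat.lt_floor_add_one _
    have h2 : (N ^ (1 / (n : ℝ))) ^ n < ((⌊N ^ (1 / (n : ℝ))⌋₊ : ℝ) + 1) ^ n :=
      pow_lt_pow_left₀ h1 (Real.rpow_nonneg hN0 _) (by omega)
    have h3 : (N ^ (1 / (n : ℝ))) ^ n = N := by
      rw [← Real.rpow_natCast, ← Real.rpow_mul hN0, one_div, inv_mul_cancel₀ hn0, Real.rpow_one]
    rw [h3, hN] at h2
    exact_mod_cast h2
  · have h1 : (⌊N ^ (1 / (n : ℝ))⌋₊ : ℝ) ≤ N ^ (1 / (n : ℝ)) :=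
      Nat.floor_le (Real.rpow_nonneg hN0 _)
    have h2 : N ≤ (3 : ℝ) ^ n * μ := by
      rw [hN]
      have h3 := Nat.mul_le_mul_right μ (quad_le_three_pow n hn)
      exact_mod_cast h3
    have h4 : N ^ (1 / (n : ℝ)) ≤ 3 * (μ : ℝ) ^ (1 / (n : ℝ)) := by
      calc N ^ (1 / (n : ℝ)) ≤ ((3 : ℝ) ^ n * μ) ^ (1 / (n : ℝ)) :=
            Real.rpow_le_rpow hN0 h2 (by positivity)
        _ = ((3 : ℝ) ^ n) ^ (1 / (n : ℝ)) * (μ : ℝ) ^ (1 / (n : ℝ)) :=
            Real.mul_rpow (by positivity) (by positivity)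
        _ = 3 * (μ : ℝ) ^ (1 / (n : ℝ)) := by
            congr 1
            rw [← Real.rpow_natCast, ← Real.rpow_mul (by norm_num), one_div,
              mul_inv_cancel₀ hn0, Real.rpow_one]
    have hnn : (0 : ℝ) ≤ n := Nat.cast_nonneg _
    nlinarith [mul_le_mul_of_nonneg_left (h1.trans h4) hnn]

end Q51.PolyDeg
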