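import Mathlib
import Pool.Agent.Q51.GermRing
import Pool.Agent.Q51.GenEmbMain

set_option autoImplicit false

/-!
The finite dimensional algebra `𝒪 / J³` and the approximation of `f` by polynomials in suitable
coordinates modulo `J³`.
-/

namespace Q51.PolyDeg

open Filter Topology

section dim

variable {K O : Type*} [Field K] [CommRing O] [Algebra K O] {n : ℕ}

lemma finrank_quot_cube (g : Fin n → O)
    (hfin : Module.Finite K (O ⧸ Ideal.span (Set.range g))) :
    Module.Finite K (O ⧸ (Ideal.span (Set.range g)) ^ 3) ∧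
      Module.finrank K (O ⧸ (Ideal.span (Set.range g)) ^ 3) ≤
        (1 + n + n ^ 2) * Module.finrank K (O ⧸ Ideal.span (Set.range g)) := by
  classical
  set J := Ideal.span (Set.range g) with hJ
  let bas := Module.finBasis K (O ⧸ J)
  set μ := Module.finrank K (O ⧸ J) with hμ
  choose v hv using fun k => Ideal.Quotient.mk_surjective (bas k)
  have step : ∀ a : O, ∃ (α : Fin μ → K) (h : Fin n → O),
      a = ∑ k, α k • v k + ∑ i, h i * g i := by
    intro a
    let α : Fin μ → K := fun k => bas.repr (Ideal.Quotient.mk J a) k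
    have h1 : Ideal.Quotient.mk J a = Ideal.Quotient.mkₐ K J (∑ k, α k • v k) := by
      rw [map_sum]
      conv_lhs => rw [← bas.sum_repr (Ideal.Quotient.mk J a)]
      refine Finset.sum_congr rfl fun k _ => ?_
      rw [map_smul, Ideal.Quotient.mkₐ_eq_mk, hv]
    rw [Ideal.Quotient.mkₐ_eq_mk, Ideal.Quotient.eq, hJ, Ideal.mem_span_range_iff_exists_fun] at h1
    obtain ⟨h, hh⟩ := h1
    exact ⟨α, h, by rw [hh]; ring⟩
  let q : O →ₐ[K] O ⧸ J ^ 3 := Ideal.Quotient.mkₐ K (J ^ 3)
  have hq : ∀ a, a ∈ J ^ 3 → q a = 0 := fun a ha => Ideal.Quotient.eq_zero_iff_mem.mpr ha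
  let w : Fin μ ⊕ (Fin n × Fin μ) ⊕ (Fin n × Fin n × Fin μ) → O ⧸ J ^ 3 := fun o =>
    match o with
    | Sum.inl k => q (v k)
    | Sum.inr (Sum.inl (i, k)) => q (g i * v k)
    | Sum.inr (Sum.inr (i, j, k)) => q (g i * g j * v k)
  set S := Submodule.span K (Set.range w) with hS
  have hg : ∀ i, g i ∈ J := fun i => Ideal.subset_span ⟨i, rfl⟩
  have A3 : ∀ i j a, q (g i * g j * a) ∈ S := by
    intro i j a
    obtain ⟨α, h, ha⟩ := step a
    rw [ha, mul_add, map_add, Finset.mul_sum, Finset.mul_sum, map_sum, map_sum]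
    refine Submodule.add_mem _ (Submodule.sum_mem _ fun k _ => ?_)
      (Submodule.sum_mem _ fun l _ => ?_)
    · rw [mul_smul_comm, map_smul]
      exact Submodule.smul_mem _ _ (Submodule.subset_span ⟨Sum.inr (Sum.inr (i, j, k)), rfl⟩)
    · rw [hq]
      · exact Submodule.zero_mem _
      · have h1 : g i * g j * (h l * g l) = h l * (g i * g j * g l) := by ring
        rw [h1]
        refine Ideal.mul_mem_left _ _ ?_
        have h2 : J ^ 3 = J * J * J := by ring
        rw [h2]
        exact Ideal.mul_mem_mul (Ideal.mul_mem_mul (hg i) (hg j)) (hg l)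
  have A2 : ∀ i a, q (g i * a) ∈ S := by
    intro i a
    obtain ⟨α, h, ha⟩ := step a
    rw [ha, mul_add, map_add, Finset.mul_sum, Finset.mul_sum, map_sum, map_sum]
    refine Submodule.add_mem _ (Submodule.sum_mem _ fun k _ => ?_)
      (Submodule.sum_mem _ fun l _ => ?_)
    · rw [mul_smul_comm, map_smul]
      exact Submodule.smul_mem _ _ (Submodule.subset_span ⟨Sum.inr (Sum.inl (i, k)), rfl⟩)
    · have h1 : g i * (h l * g l) = g i * g l * h l := by ring
      rw [h1]
      exact A3 i l (h l)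
  have A1 : ∀ a, q a ∈ S := by
    intro a
    obtain ⟨α, h, ha⟩ := step a
    rw [ha, map_add, map_sum, map_sum]
    refine Submodule.add_mem _ (Submodule.sum_mem _ fun k _ => ?_)
      (Submodule.sum_mem _ fun l _ => ?_)
    · rw [map_smul]
      exact Submodule.smul_mem _ _ (Submodule.subset_span ⟨Sum.inl k, rfl⟩)
    · rw [mul_comm]
      exact A2 l (h l)
  have hStop : S = ⊤ := by
    rw [eq_top_iff]
    intro z _
    obtain ⟨a, rfl⟩ := Ideal.Quotient.mk_surjective z
    exact A1 a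
  have hfin3 : Module.Finite K (O ⧸ J ^ 3) := by
    rw [Module.finite_def, ← hStop]
    exact Submodule.fg_span (Set.finite_range w)
  refine ⟨hfin3, ?_⟩
  have h1 := finrank_range_le_card (R := K) w
  unfold Set.finrank at h1
  rw [← hS, hStop, finrank_top] at h1
  refine h1.trans (le_of_eq ?_)
  simp only [Fintype.card_sum, Fintype.card_prod, Fintype.card_fin]
  ring

end dim

variable {n : ℕ}

/-- Polynomials approximate germs modulo powers of the maximal ideal. -/
lemma exists_poly_mod_pow (k : ℕ) (g : HolAt n) :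
    ∃ P : MvPolynomial (Fin n) ℂ,
      germ g - germ (MvPolynomial.aeval (coord : Fin n → HolAt n) P) ∈ (mO n) ^ k := by
  induction k generalizing g with
  | zero => exact ⟨0, by simp⟩
  | succ k ih =>
    obtain ⟨h, hh⟩ := exists_hadamard g
    choose Q hQ using fun i => ih (h i)
    refine ⟨MvPolynomial.C (g.1 0) + ∑ i, MvPolynomial.X i * Q i, ?_⟩
    have h1 : germ g - germ (MvPolynomial.aeval (coord : Fin n → HolAt n)
        (MvPolynomial.C (g.1 0) + ∑ i, MvPolynomial.X i * Q i)) =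
        ∑ i, germ (coord i) * (germ (h i) - germ (MvPolynomial.aeval coord (Q i))) := by
      rw [hh]
      simp only [map_add, map_sum, map_mul, MvPolynomial.aeval_C, MvPolynomial.aeval_X, mul_sub,
        Finset.sum_sub_distrib]
      ring
    rw [h1]
    refine Ideal.sum_mem _ fun i _ => ?_
    rw [pow_succ']
    refine Ideal.mul_mem_mul ?_ (hQ i)
    exact mem_mO.mpr ⟨coord i, rfl, rfl⟩

/-- the Jacobian ideal lies in the maximal ideal at a critical point -/
lemma jacobian_le {f : HolAt n} (hf : ∀ i, (pdH i f).1 0 = 0) : jacG f ≤ mO n := by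
  unfold jacG
  rw [Ideal.span_le]
  rintro _ ⟨i, rfl⟩
  exact mem_mO.mpr ⟨pdH i f, hf i, rfl⟩

/-- elements of `𝔪²` (at the level of functions) have zero value and zero derivative -/
lemma fderiv_of_mem_sq {g : HolAt n} (hg : g ∈ (mR n) ^ 2) :
    g.1 0 = 0 ∧ fderiv ℂ g.1 0 = 0 := by
  rw [pow_two] at hg
  refine Submodule.mul_induction_on hg ?_ ?_
  · intro a ha b hb
    have ha' : a.1 0 = 0 := ha
    have hb' : b.1 0 = 0 := hb
    refine ⟨by rw [coe_mul, ha', zero_mul], ?_⟩
    have h1 : fderiv ℂ (a * b).1 0 = a.1 0 • fderiv ℂ b.1 0 + b.1 0 • fderiv ℂ a.1 0 :=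
      fderiv_fun_mul (AnalyticAt.differentiableAt a.2) (AnalyticAt.differentiableAt b.2)
    rw [h1, ha', hb']
    ext v
    simp
  · rintro a b ⟨ha, ha'⟩ ⟨hb, hb'⟩
    refine ⟨by rw [coe_add, ha, hb, add_zero], ?_⟩
    have h1 : fderiv ℂ (a + b).1 0 = fderiv ℂ a.1 0 + fderiv ℂ b.1 0 :=
      fderiv_fun_add (AnalyticAt.differentiableAt a.2) (AnalyticAt.differentiableAt b.2)
    rw [h1, ha', hb', add_zero]

/-- Approximation of a germ modulo the cube of its Jacobian ideal by a polynomial of small degree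
in suitable coordinates tangent to the identity. -/
theorem exists_approx (f : HolAt n) (hf : IsolatedCritical f.1) (j : ℕ)
    (hj : (1 + n + n ^ 2) * milnorNumber f.1 <
      Module.finrank ℂ (MvPolynomial.restrictTotalDegree (Fin n) ℂ j)) :
    ∃ (ψ : Fin n → HolAt n) (P : MvPolynomial (Fin n) ℂ), P.totalDegree ≤ 2 * j - 1 ∧
      (∀ i, ψ i - coord i ∈ (mR n) ^ 2) ∧
      germ (MvPolynomial.aeval ψ P) - germ f ∈ (jacG f) ^ 3 := by
  classical
  obtain ⟨e⟩ := nonempty_milnorEquiv f
  have hfin0 : Module.Finite ℂ (HolGerm n ⧸ jacG f) := by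
    have h1 := hf.finite
    exact Module.Finite.equiv e
  have hrank : Module.finrank ℂ (HolGerm n ⧸ jacG f) = milnorNumber f.1 :=
    e.finrank_eq.symm
  obtain ⟨hfin, hdim⟩ := finrank_quot_cube (K := ℂ) (fun i : Fin n => germ (pdH i f)) hfin0
  change Module.Finite ℂ (HolGerm n ⧸ (jacG f) ^ 3) at hfin
  change Module.finrank ℂ (HolGerm n ⧸ (jacG f) ^ 3) ≤ (1 + n + n ^ 2) *
    Module.finrank ℂ (HolGerm n ⧸ jacG f) at hdim
  rw [hrank] at hdim
  set J := jacG f with hJ
  let B := HolGerm n ⧸ J ^ 3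
  have hfinB : Module.Finite ℂ B := hfin
  let q : HolGerm n →ₐ[ℂ] B := Ideal.Quotient.mkₐ ℂ (J ^ 3)
  have hqs : Function.Surjective q := Ideal.Quotient.mkₐ_surjective ℂ (J ^ 3)
  have hq0 : ∀ z, q z = 0 ↔ z ∈ J ^ 3 := fun z => Ideal.Quotient.eq_zero_iff_mem
  let ρ : HolAt n →ₐ[ℂ] B := q.comp germ
  have hρs : Function.Surjective ρ := hqs.comp germ_surjective
  let T : Submodule ℂ B := (((mR n) ^ 2).map ρ).restrictScalars ℂ
  have hTmem : ∀ z : B, z ∈ T ↔ ∃ g ∈ (mR n) ^ 2, ρ g = z := by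
    intro z
    change z ∈ ((mR n) ^ 2).map ρ ↔ _
    rw [Ideal.mem_map_iff_of_surjective _ hρs]
  let x : Fin n → B := fun i => ρ (coord i)
  have hcm : ∀ i : Fin n, coord i ∈ mR n := fun i => rfl
  have hT : ∀ b : Fin n → B, (∀ i, b i - x i ∈ T) → ∀ i k, b i * b k ∈ T := by
    intro b hb i k
    choose g hg hgb using fun i => (hTmem _).mp (hb i)
    have h1 : ∀ i, b i = ρ (coord i + g i) := by
      intro i
      rw [map_add, hgb]
      ring
    have h2 : ∀ i, coord i + g i ∈ mR n := fun i =>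
      Ideal.add_mem _ (hcm i) (Ideal.pow_le_self two_ne_zero (hg i))
    rw [hTmem]
    refine ⟨(coord i + g i) * (coord k + g k), ?_, ?_⟩
    · rw [pow_two]
      exact Ideal.mul_mem_mul (h2 i) (h2 k)
    · rw [map_mul, ← h1, ← h1]
  -- the maximal ideal is nilpotent in `B`
  have hnil : ∃ k, (mO n) ^ k ≤ J ^ 3 := by
    have hart : IsArtinianRing B := IsArtinianRing.of_finite ℂ B
    obtain ⟨k, hk⟩ := IsArtinianRing.isNilpotent_jacobson_bot (R := B)
    refine ⟨k, ?_⟩
    have h1 : (mO n).map q ≤ Ideal.jacobson ⊥ := by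
      intro z hz
      rw [Ideal.mem_map_iff_of_surjective _ hqs] at hz
      obtain ⟨y, hy, rfl⟩ := hz
      rw [Ideal.mem_jacobson_bot]
      intro u
      obtain ⟨u', rfl⟩ := hqs u
      have h2 := Ideal.mem_jacobson_bot.mp (mO_le_jacobson hy) u'
      have h3 := h2.map q
      simpa using h3
    have h4 : ((mO n) ^ k).map q ≤ ⊥ := by
      rw [Ideal.map_pow]
      calc ((mO n).map q) ^ k ≤ (Ideal.jacobson ⊥) ^ k := Ideal.pow_right_mono h1 k
        _ = ⊥ := hk
    intro z hz
    have h5 : q z ∈ ((mO n) ^ k).map q := Ideal.mem_map_of_mem q hz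
    have h6 := h4 h5
    exact (hq0 z).mp h6
  have hgen : Algebra.adjoin ℂ (Set.range x) = ⊤ := by
    rw [eq_top_iff]
    intro z _
    obtain ⟨g, rfl⟩ := hρs z
    obtain ⟨k, hk⟩ := hnil
    obtain ⟨P, hP⟩ := exists_poly_mod_pow k g
    have h1 := hk hP
    rw [← hq0, map_sub, sub_eq_zero] at h1
    rw [Algebra.adjoin_range_eq_range_aeval]
    refine ⟨P, ?_⟩
    change MvPolynomial.aeval (fun i => ρ (coord i)) P = q (germ g)
    rw [h1]
    have h2 : (MvPolynomial.aeval (fun i => ρ (coord i)) : MvPolynomial (Fin n) ℂ →ₐ[ℂ] B) =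
        ρ.comp (MvPolynomial.aeval coord) := by
      apply MvPolynomial.algHom_ext
      intro i
      simp
    rw [h2]
    rfl
  obtain ⟨b, hb, hbv⟩ := GenEmb.exists_tuple T x hT hgen j (lt_of_le_of_lt hdim hj)
  obtain ⟨P, hP, hPf⟩ := hbv (ρ f)
  choose g hg hgb using fun i => (hTmem _).mp (hb i)
  refine ⟨fun i => coord i + g i, P, hP, fun i => ?_, ?_⟩
  · rw [add_sub_cancel_left]
    exact hg i
  · rw [← hq0, map_sub, sub_eq_zero]
    change ρ (MvPolynomial.aeval (fun i => coord i + g i) P) = ρ f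
    rw [← hPf]
    have h2 : ρ.comp (MvPolynomial.aeval (fun i => coord i + g i)) =
        (MvPolynomial.aeval b : MvPolynomial (Fin n) ℂ →ₐ[ℂ] B) := by
      apply MvPolynomial.algHom_ext
      intro i
      rw [AlgHom.comp_apply, MvPolynomial.aeval_X, MvPolynomial.aeval_X, map_add, hgb]
      ring
    rw [← h2]
    rfl

end Q51.PolyDeg
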