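import Mathlib
import Pool.Agent.Q51.PolyDegQuot
import Pool.Agent.Q51.Determinacy

set_option autoImplicit false

/-!
A germ agreeing with a polynomial modulo the cube of its Jacobian ideal in coordinates tangent to
the identity is right equivalent to that polynomial.
-/

namespace Q51.PolyDeg

open Filter Topology
open scoped ContDiff

variable {n : ℕ}

lemma coe_aeval (ψ : Fin n → HolAt n) (P : MvPolynomial (Fin n) ℂ) (x : Fin n → ℂ) :
    (MvPolynomial.aeval ψ P).1 x = MvPolynomial.eval (fun i => (ψ i).1 x) P := by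
  induction P using MvPolynomial.induction_on with
  | C a => rw [MvPolynomial.aeval_C, coe_algebraMap, MvPolynomial.eval_C]
  | add p q hp hq => rw [map_add, coe_add, hp, hq, map_add]
  | mul_X p k hp => rw [map_mul, coe_mul, hp, map_mul, MvPolynomial.aeval_X, MvPolynomial.eval_X]

lemma pd_algebraMap (i : Fin n) (a : ℂ) : pdH i (algebraMap ℂ (HolAt n) a) = 0 := by
  apply Subtype.ext
  funext x
  change fderiv ℂ (fun _ => a) x _ = 0
  rw [fderiv_fun_const]
  rfl

/-- chain rule for germs -/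
lemma germ_pd_aeval (l : Fin n) (ψ : Fin n → HolAt n) (P : MvPolynomial (Fin n) ℂ) :
    germ (pdH l (MvPolynomial.aeval ψ P)) =
      ∑ m, germ (MvPolynomial.aeval ψ (MvPolynomial.pderiv m P)) * germ (pdH l (ψ m)) := by
  classical
  induction P using MvPolynomial.induction_on with
  | C a =>
    rw [MvPolynomial.aeval_C, pd_algebraMap]
    simp
  | add p q hp hq =>
    rw [map_add, germ_pd_add, hp, hq, ← Finset.sum_add_distrib]
    refine Finset.sum_congr rfl fun m _ => ?_
    rw [map_add, map_add, map_add, add_mul]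
  | mul_X p k hp =>
    rw [map_mul, MvPolynomial.aeval_X, germ_pd_mul, hp, Finset.mul_sum]
    have h3 : ∀ m, germ (MvPolynomial.aeval ψ (MvPolynomial.pderiv m (p * MvPolynomial.X k))) *
        germ (pdH l (ψ m)) = germ (ψ k) * (germ (MvPolynomial.aeval ψ (MvPolynomial.pderiv m p)) *
          germ (pdH l (ψ m))) +
        (if m = k then germ (MvPolynomial.aeval ψ p) * germ (pdH l (ψ k)) else 0) := by
      intro m
      rw [MvPolynomial.pderiv_mul, MvPolynomial.pderiv_X]
      by_cases hik : m = k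
      · subst hik
        simp; ring
      · simp [hik, Ne.symm hik]; ring
    simp_rw [h3]
    rw [Finset.sum_add_distrib]
    simp
    ring

/-- derivatives lower the order along an ideal by at most one -/
lemma germ_pd_mem (J : Ideal (HolGerm n)) (l : Fin n) (k : ℕ) :
    ∀ h : HolAt n, germ h ∈ J ^ (k + 1) → germ (pdH l h) ∈ J ^ k := by
  induction k with
  | zero => intro h _; simp
  | succ k ih =>
    intro h hh
    have hh' : germ h ∈ J ^ (k + 1) * J := by rw [← pow_succ]; exact hh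
    have key : ∀ z ∈ J ^ (k + 1) * J, ∀ h : HolAt n, germ h = z → germ (pdH l h) ∈ J ^ (k + 1) := by
      intro z hz
      refine Submodule.mul_induction_on hz ?_ ?_
      · intro a ha b hb h hab
        obtain ⟨a', rfl⟩ := germ_surjective a
        obtain ⟨b', rfl⟩ := germ_surjective b
        rw [← map_mul] at hab
        rw [germ_pd_congr l hab, germ_pd_mul]
        refine Ideal.add_mem _ (Ideal.mul_mem_right _ _ ha) ?_
        rw [pow_succ']
        exact Ideal.mul_mem_mul hb (ih a' ha)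
      · intro z₁ z₂ h₁ h₂ h hh
        obtain ⟨a', rfl⟩ := germ_surjective z₁
        obtain ⟨b', rfl⟩ := germ_surjective z₂
        rw [← map_add] at hh
        rw [germ_pd_congr l hh, germ_pd_add]
        exact Ideal.add_mem _ (h₁ a' rfl) (h₂ b' rfl)
    exact key _ hh' h rfl

/-- elements of the cube of an ideal inside the maximal ideal -/
lemma exists_quadratic_expr (u : Fin n → HolAt n) (hu : ∀ i, (u i).1 0 = 0) (z : HolGerm n)
    (hz : z ∈ (Ideal.span (Set.range fun i => germ (u i))) ^ 3) :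
    ∃ c : Fin n → Fin n → HolAt n, (∀ i j, (c i j).1 0 = 0) ∧
      z = ∑ i, ∑ j, germ (c i j) * germ (u i) * germ (u j) := by
  classical
  have hle : Ideal.span (Set.range fun i => germ (u i)) ≤ mO n := by
    rw [Ideal.span_le]
    rintro _ ⟨i, rfl⟩
    exact mem_mO.mpr ⟨u i, hu i, rfl⟩
  have h1 : (Ideal.span (Set.range fun i => germ (u i))) ^ 3 ≤
      mO n • Submodule.span (HolGerm n)
        (Set.range fun p : Fin n × Fin n => germ (u p.1) * germ (u p.2)) := by
    have h2 : (Ideal.span (Set.range fun i => germ (u i))) ^ 2 =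
        Ideal.span (Set.range fun p : Fin n × Fin n => germ (u p.1) * germ (u p.2)) := by
      rw [pow_two, Ideal.span_mul_span']
      congr 1
      ext w
      constructor
      · rintro ⟨_, ⟨i, rfl⟩, _, ⟨j, rfl⟩, rfl⟩
        exact ⟨(i, j), rfl⟩
      · rintro ⟨⟨i, j⟩, rfl⟩
        exact ⟨_, ⟨i, rfl⟩, _, ⟨j, rfl⟩, rfl⟩
    rw [pow_succ', h2]
    exact Ideal.mul_mono_left hle
  have h3 := h1 hz
  rw [Submodule.mem_ideal_smul_span_iff_exists_sum] at h3
  obtain ⟨a, ha, haz⟩ := h3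
  choose c hc0 hc using fun p : Fin n × Fin n => mem_mO.mp (ha p)
  refine ⟨fun i j => c (i, j), fun i j => hc0 (i, j), ?_⟩
  rw [← haz, Finsupp.sum_fintype _ _ (by simp), Fintype.sum_prod_type]
  refine Finset.sum_congr rfl fun i _ => Finset.sum_congr rfl fun j _ => ?_
  rw [hc, smul_eq_mul, mul_assoc]

/-- A map analytic at `0` and tangent to the identity is a local biholomorphism. -/
lemma exists_localHomeo (g : (Fin n → ℂ) → (Fin n → ℂ)) (hg : AnalyticAt ℂ g 0) (hg0 : g 0 = 0)
    (hg' : HasFDerivAt g (ContinuousLinearMap.id ℂ (Fin n → ℂ)) 0) :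
    ∃ Θ : OpenPartialHomeomorph (Fin n → ℂ) (Fin n → ℂ), (Θ : (Fin n → ℂ) → (Fin n → ℂ)) = g ∧
      (0 : Fin n → ℂ) ∈ Θ.source ∧ Θ.symm 0 = 0 ∧ AnalyticAt ℂ Θ.symm 0 := by
  have hcd : ContDiffAt ℂ ω g 0 := hg.contDiffAt
  have hder : HasFDerivAt g ((ContinuousLinearEquiv.refl ℂ (Fin n → ℂ) :
      (Fin n → ℂ) ≃L[ℂ] (Fin n → ℂ)) : (Fin n → ℂ) →L[ℂ] (Fin n → ℂ)) 0 := hg'
  refine ⟨hcd.toOpenPartialHomeomorph g hder (by simp), rfl,
    hcd.mem_toOpenPartialHomeomorph_source hder (by simp), ?_, ?_⟩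
  · have h1 := hcd.localInverse_apply_image hder (by simp)
    rw [hg0] at h1
    exact h1
  · have h1 := (hcd.to_localInverse hder (by simp)).analyticAt
    rw [hg0] at h1
    exact h1

lemma apply_zero_of_germ_mem {g : HolAt n} (hg : germ g ∈ mO n) : g.1 0 = 0 := by
  obtain ⟨f, hf, hfg⟩ := mem_mO.mp hg
  rw [germ_eq_iff] at hfg
  rw [← hfg.self_of_nhds, hf]

/-- main reduction -/
theorem rightEquivalent_of_approx (f : HolAt n) (hf : ∀ i, (pdH i f).1 0 = 0)
    (ψ : Fin n → HolAt n) (P : MvPolynomial (Fin n) ℂ) (hψ : ∀ i, ψ i - coord i ∈ (mR n) ^ 2)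
    (hP : germ (MvPolynomial.aeval ψ P) - germ f ∈ (jacG f) ^ 3) :
    RightEquivalent f.1 fun x => MvPolynomial.eval x P := by
  classical
  set J := jacG f with hJ
  have hJm : J ≤ mO n := jacobian_le hf
  -- behaviour of `ψ` at the origin
  have hψ0 : ∀ i, (ψ i).1 0 = 0 := by
    intro i
    have h1 := (fderiv_of_mem_sq (hψ i)).1
    rw [coe_sub, coord_apply, Pi.zero_apply, sub_zero] at h1
    exact h1
  have hψd : ∀ i, HasFDerivAt (ψ i).1
      (ContinuousLinearMap.proj (R := ℂ) (φ := fun _ : Fin n => ℂ) i) 0 := by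
    intro i
    have h1 := (fderiv_of_mem_sq (hψ i)).2
    have h2 : HasFDerivAt (ψ i - coord i).1 (0 : (Fin n → ℂ) →L[ℂ] ℂ) 0 := by
      rw [← h1]
      exact (AnalyticAt.differentiableAt (ψ i - coord i).2).hasFDerivAt
    have h3 : HasFDerivAt (coord i).1
        (ContinuousLinearMap.proj (R := ℂ) (φ := fun _ : Fin n => ℂ) i) 0 :=
      (ContinuousLinearMap.proj (R := ℂ) (φ := fun _ : Fin n => ℂ) i).hasFDerivAt
    have h4 := h2.add h3
    rw [zero_add] at h4
    have h5 : (ψ i - coord i).1 + (coord i).1 = (ψ i).1 := by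
      funext x
      rw [Pi.add_apply, coe_sub]
      ring
    rwa [h5] at h4
  -- Jacobian ideals
  set h : HolAt n := MvPolynomial.aeval ψ P - f with hh
  have hhJ : germ h ∈ J ^ 3 := by rw [hh, map_sub]; exact hP
  have hPf : MvPolynomial.aeval ψ P = f + h := by rw [hh]; ring
  let u : Fin n → HolAt n := fun m => MvPolynomial.aeval ψ (MvPolynomial.pderiv m P)
  have hchain : ∀ l, germ (pdH l f) = (∑ m, germ (u m) * germ (pdH l (ψ m))) - germ (pdH l h) := by
    intro l
    rw [← germ_pd_aeval, hPf, germ_pd_add]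
    ring
  have hpdh : ∀ l, germ (pdH l h) ∈ J ^ 2 := fun l => germ_pd_mem J l 2 h hhJ
  have hJ2 : J ^ 2 ≤ mO n := (Ideal.pow_le_self two_ne_zero).trans hJm
  have hu0 : ∀ m, (u m).1 0 = 0 := by
    intro m
    have h1 := hchain m
    simp_rw [← map_mul] at h1
    rw [← map_sum, ← map_sub, germ_eq_iff] at h1
    have h2 := h1.self_of_nhds
    rw [hf m, coe_sub, coe_sum] at h2
    have h3 : (pdH m h).1 0 = 0 := apply_zero_of_germ_mem (hJ2 (hpdh m))
    rw [h3, sub_zero] at h2
    have h4 : ∀ k, (u k * pdH m (ψ k)).1 0 = if k = m then (u m).1 0 else 0 := by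
      intro k
      rw [coe_mul]
      have h5 : (pdH m (ψ k)).1 0 = (Pi.single m 1 : Fin n → ℂ) k := by
        change fderiv ℂ (ψ k).1 0 (Pi.single m 1) = _
        rw [(hψd k).fderiv]
        rfl
      rw [h5]
      by_cases hkm : k = m
      · subst hkm; simp
      · simp [hkm]
    simp_rw [h4] at h2
    rw [Finset.sum_ite_eq' Finset.univ m] at h2
    simpa using h2.symm
  set JP : Ideal (HolGerm n) := Ideal.span (Set.range fun m => germ (u m)) with hJP
  have hJJP : J ≤ JP := by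
    have hfg : (J : Submodule (HolGerm n) (HolGerm n)).FG := by
      rw [hJ]
      exact Submodule.fg_span (Set.finite_range _)
    refine Submodule.le_of_le_smul_of_le_jacobson_bot (I := mO n) hfg mO_le_jacobson ?_
    have h1 : ∀ l, germ (pdH l f) ∈ JP ⊔ mO n • J := by
      intro l
      rw [hchain l]
      refine Submodule.sub_mem _ ?_ ?_
      · refine Submodule.mem_sup_left ?_
        refine Ideal.sum_mem _ fun m _ => Ideal.mul_mem_right _ _ (Ideal.subset_span ⟨m, rfl⟩)
      · refine Submodule.mem_sup_right ?_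
        have h2 : J ^ 2 ≤ mO n • J := by
          rw [pow_two]
          exact Ideal.mul_mono_left hJm
        exact h2 (hpdh l)
    conv_lhs => rw [hJ]
    unfold jacG
    rw [Ideal.span_le]
    rintro _ ⟨l, rfl⟩
    exact h1 l
  -- quadratic expression of the remainder
  have hneg : - germ h ∈ JP ^ 3 := by
    refine Submodule.neg_mem _ ?_
    exact Ideal.pow_right_mono hJJP 3 hhJ
  obtain ⟨c, hc0, hc⟩ := exists_quadratic_expr u hu0 _ hneg
  -- `f` near the origin
  have hfx : ∀ᶠ x in 𝓝 (0 : Fin n → ℂ), f.1 x = MvPolynomial.eval (fun i => (ψ i).1 x) P +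
      ∑ i, ∑ j, (c i j).1 x * MvPolynomial.eval (fun i => (ψ i).1 x) (MvPolynomial.pderiv i P) *
        MvPolynomial.eval (fun i => (ψ i).1 x) (MvPolynomial.pderiv j P) := by
    have h1 : germ f = germ (MvPolynomial.aeval ψ P + ∑ i, ∑ j, c i j * u i * u j) := by
      rw [map_add, map_sum]
      simp_rw [map_sum, map_mul]
      rw [← hc, hPf, map_add]
      ring
    rw [germ_eq_iff] at h1
    filter_upwards [h1] with x hx
    rw [hx, coe_add, coe_sum, coe_aeval]
    congr 1
    refine Finset.sum_congr rfl fun i _ => ?_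
    rw [coe_sum]
    refine Finset.sum_congr rfl fun j _ => ?_
    rw [coe_mul, coe_mul]
    simp only [u]
    rw [coe_aeval, coe_aeval]
  -- the coordinate change `ψ`
  let ψ' : (Fin n → ℂ) → (Fin n → ℂ) := fun x i => (ψ i).1 x
  have hψ'an : AnalyticAt ℂ ψ' 0 := by
    rw [analyticAt_pi_iff]
    intro i
    exact (ψ i).2
  have hψ'0 : ψ' 0 = 0 := by
    funext i
    exact hψ0 i
  have hψ'd : HasFDerivAt ψ' (ContinuousLinearMap.id ℂ (Fin n → ℂ)) 0 := by
    rw [hasFDerivAt_pi']
    intro i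
    exact hψd i
  obtain ⟨Φ, hΦ, hΦ0, hΦs0, hΦs⟩ := exists_localHomeo ψ' hψ'an hψ'0 hψ'd
  have hP0 : ∀ i, MvPolynomial.eval (0 : Fin n → ℂ) (MvPolynomial.pderiv i P) = 0 := by
    intro i
    have h1 := hu0 i
    simp only [u] at h1
    rw [coe_aeval] at h1
    simp_rw [hψ0] at h1
    exact h1
  have hc'an : ∀ i j, AnalyticAt ℂ (fun y => (c i j).1 (Φ.symm y)) 0 := by
    intro i j
    have h1 : AnalyticAt ℂ (c i j).1 (Φ.symm 0) := by
      rw [hΦs0]
      exact (c i j).2
    exact AnalyticAt.comp (g := (c i j).1) h1 hΦs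
  obtain ⟨φ, hφan, hφ0, hφd, hφP⟩ := determinacy P hP0 (fun i j y => (c i j).1 (Φ.symm y)) hc'an
    (fun i j => by rw [hΦs0]; exact hc0 i j)
  -- the composite
  have hcont : Tendsto ψ' (𝓝 0) (𝓝 0) := by
    have h1 := hψ'an.continuousAt
    unfold ContinuousAt at h1
    rwa [hψ'0] at h1
  have hleft : ∀ᶠ x in 𝓝 (0 : Fin n → ℂ), Φ.symm (ψ' x) = x := by
    filter_upwards [Φ.open_source.mem_nhds hΦ0] with x hx
    rw [← hΦ]
    exact Φ.left_inv hx
  have hfinal : ∀ᶠ x in 𝓝 (0 : Fin n → ℂ), f.1 x = MvPolynomial.eval (φ (ψ' x)) P := by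
    filter_upwards [hfx, hleft, hcont.eventually hφP] with x h1 h2 h3
    rw [h3, h1, h2]
  have hgan : AnalyticAt ℂ (fun x => φ (ψ' x)) 0 := by
    have h1 : AnalyticAt ℂ φ (ψ' 0) := by rw [hψ'0]; exact hφan
    exact AnalyticAt.comp (g := φ) h1 hψ'an
  have hg0 : (fun x => φ (ψ' x)) 0 = 0 := by
    change φ (ψ' 0) = 0
    rw [hψ'0, hφ0]
  have hgd : HasFDerivAt (fun x => φ (ψ' x)) (ContinuousLinearMap.id ℂ (Fin n → ℂ)) 0 := by
    have h1 : HasFDerivAt φ (ContinuousLinearMap.id ℂ (Fin n → ℂ)) (ψ' 0) := by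
      rw [hψ'0]; exact hφd
    have h2 := HasFDerivAt.comp (g := φ) (0 : Fin n → ℂ) h1 hψ'd
    rw [ContinuousLinearMap.id_comp] at h2
    exact h2
  obtain ⟨Θ, hΘ, hΘ0, hΘs0, hΘs⟩ := exists_localHomeo _ hgan hg0 hgd
  have hΘ00 : Θ 0 = 0 := by rw [hΘ]; exact hg0
  have h0t : (0 : Fin n → ℂ) ∈ Θ.target := by
    rw [← hΘ00]
    exact Θ.map_source hΘ0
  refine ⟨Θ.symm, h0t, hΘs0, hΘs, ?_, ?_⟩
  · rw [OpenPartialHomeomorph.symm_symm, hΘ]
    exact hgan
  · have h1 : Tendsto Θ.symm (𝓝 0) (𝓝 0) := by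
      have h2 := hΘs.continuousAt
      unfold ContinuousAt at h2
      rwa [hΘs0] at h2
    filter_upwards [h1.eventually hfinal, Θ.open_target.mem_nhds h0t] with y h2 h3
    rw [h2]
    have h4 : φ (ψ' (Θ.symm y)) = Θ (Θ.symm y) := by rw [hΘ]
    rw [h4, Θ.right_inv h3]

end Q51.PolyDeg
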